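import Pool.Agent.Lib.MP_f3b2fd_co.KEP.A.St

/-! The cells cover the balls up to a null set. -/

namespace Pool.Agent.Lib.MP_f3b2fd_co.KA

open MeasureTheory Set Real Metric Filter Topology
open scoped ENNReal RealInnerProductSpace

namespace Cover

theorem ev_pos {α β γ : ℝ} (h : 0 ≤ α) (h0 : α = 0 → 0 < β) :
    ∀ᶠ s in 𝓝[>] (0 : ℝ), 0 < α + s * β - s ^ 2 * γ := by
  rcases h.eq_or_lt with e | e
  · have c : ContinuousAt (fun s : ℝ => β - s * γ) 0 := by fun_prop
    have := c.eventually (lt_mem_nhds (by simpa using h0 e.symm : (0 : ℝ) < β - 0 * γ))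
    filter_upwards [self_mem_nhdsWithin, mem_nhdsWithin_of_mem_nhds this] with s h1 h2
    have := mul_pos (mem_Ioi.1 h1) h2
    rw [← e]
    linarith
  · have c : ContinuousAt (fun s : ℝ => α + s * β - s ^ 2 * γ) 0 := by fun_prop
    exact mem_nhdsWithin_of_mem_nhds
      (c.eventually (lt_mem_nhds (by simpa using e : (0 : ℝ) < α + 0 * β - 0 ^ 2 * γ)))

theorem dist_sq (y e w : E3) (s : ℝ) :
    dist (y + s • e) w ^ 2 = dist y w ^ 2 + 2 * s * ⟪e, y - w⟫ + s ^ 2 * ‖e‖ ^ 2 := by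
  rw [dist_eq_norm, dist_eq_norm, add_sub_right_comm, norm_add_sq_real, inner_smul_right,
    norm_smul, mul_pow, Real.norm_eq_abs, sq_abs, real_inner_comm]
  ring

theorem exists_max (V : Finset E3) (hV : V.Nonempty) (x : E3) : ∃ (y : E3) (r : ℝ), 0 ≤ r ∧
    r ≤ √2 ∧ Em V y r ∧ ∀ B : Finset E3, (∀ w ∈ V, dist y w = r → w ∈ B) → (r = √2 → y ∈ B) →
      x ∈ convexHull ℝ (B : Set E3) := by
  let D : E3 → ℝ := fun z => min (V.inf' hV fun w => dist z w ^ 2) 2
  have hD : Continuous D :=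
    (Continuous.finset_inf'_apply hV fun w _ => by fun_prop).min continuous_const
  have h0 : ∀ z, 0 ≤ D z := fun z =>
    le_min (Finset.le_inf' _ _ fun w _ => sq_nonneg _) zero_le_two
  obtain ⟨y, -, hy⟩ := (isCompact_closedBall x 2).exists_isMaxOn ⟨x, mem_closedBall_self zero_le_two⟩
    (f := fun z => D z - dist z x ^ 2) (hD.sub (by fun_prop)).continuousOn
  have hm : ∀ z, D z - dist z x ^ 2 ≤ D y - dist y x ^ 2 := fun z => by
    by_cases hz : z ∈ closedBall x 2
    · exact hy hz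
    · have h1 : D x - dist x x ^ 2 ≤ D y - dist y x ^ 2 := hy (mem_closedBall_self zero_le_two)
      have h2 : D z ≤ 2 := min_le_right _ _
      have h3 := not_le.1 (mt mem_closedBall.2 hz)
      have h4 := h0 x
      rw [dist_self] at h1
      nlinarith
  have h1 : ∀ w ∈ V, D y ≤ dist y w ^ 2 := fun w hw =>
    (min_le_left _ _).trans (Finset.inf'_le _ hw)
  have h2 : D y ≤ 2 := min_le_right _ _
  refine ⟨y, √(D y), sqrt_nonneg _, sqrt_le_sqrt h2, fun w hw =>
    (sqrt_le_left dist_nonneg).2 (h1 w hw), fun B hB hB' => ?_⟩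
  by_contra hx
  obtain ⟨f, u, hf, hu⟩ := geometric_hahn_banach_closed_point (convex_convexHull ℝ _)
    (B.finite_toSet.isClosed_convexHull ℝ) hx
  let e : E3 := (InnerProductSpace.toDual ℝ E3).symm f
  have he : ∀ a ∈ B, 0 < ⟪e, x - a⟫ := fun a ha => by
    rw [InnerProductSpace.toDual_symm_apply, map_sub]
    linarith [hf a (subset_convexHull ℝ _ ha)]
  have e1 : ∀ᶠ s in 𝓝[>] (0 : ℝ), ∀ w ∈ V,
      0 < (dist y w ^ 2 - D y) + s * (2 * ⟪e, x - w⟫) - s ^ 2 * 0 :=
    (Finset.eventually_all V).2 fun w hw => ev_pos (sub_nonneg.2 (h1 w hw)) fun h =>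
      mul_pos two_pos (he w (hB w hw (by rw [← sub_eq_zero.1 h, sqrt_sq dist_nonneg])))
  have e2 : ∀ᶠ s in 𝓝[>] (0 : ℝ), 0 < (2 - D y) + s * (2 * ⟪e, x - y⟫) - s ^ 2 * ‖e‖ ^ 2 :=
    ev_pos (sub_nonneg.2 h2) fun h => mul_pos two_pos (he y (hB' (by rw [sub_eq_zero.1 h])))
  obtain ⟨s, k1, k2⟩ := (e1.and e2).exists
  have k3 : D y - dist y x ^ 2 + dist (y + s • e) x ^ 2 < D (y + s • e) := by
    refine lt_min ((Finset.lt_inf'_iff hV).2 fun w hw => ?_) ?_
    · have := k1 w hw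
      rw [dist_sq, dist_sq]
      simp only [inner_sub_right] at this ⊢
      linarith
    · rw [dist_sq]
      simp only [inner_sub_right] at k2 ⊢
      linarith
  linarith [hm (y + s • e)]

theorem null (S : Finset E3) (h : S.card ≤ 3) : volume (convexHull ℝ (S : Set E3)) = 0 := by
  classical
  rcases S.eq_empty_or_nonempty with rfl | hS
  · simp
  refine measure_mono_null (convexHull_subset_affineSpan _)
    (Measure.addHaar_affineSubspace _ _ fun ht => ?_)
  have h1 := finrank_vectorSpan_image_finset_le ℝ id S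
    (Nat.succ_pred_eq_of_pos (Finset.card_pos.2 hS)).symm
  rw [Finset.image_id, ← direction_affineSpan, ht, AffineSubspace.direction_top, finrank_top,
    finrank_euclideanSpace_fin, Nat.pred_eq_sub_one] at h1
  omega

theorem sum_sub (T : Finset E3) (t : E3 → ℝ) (y : E3) :
    ∑ v ∈ T, t v • (v - y) = ∑ v ∈ T, t v • v - (∑ v ∈ T, t v) • y := by
  simp only [smul_sub, Finset.sum_sub_distrib, Finset.sum_smul]

end Cover

open Cover in
theorem cover (ho : ObtS) : CoverS := by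
  classical
  intro V hV v hv
  refine measure_mono_null (t := ⋃ S ∈ V.powerset.filter (·.card ≤ 3), convexHull ℝ (S : Set E3))
    (fun x ⟨hx, hc⟩ => ?_) ((measure_biUnion_null_iff (Finset.countable_toSet _)).2
      fun S hS => null S (Finset.mem_filter.1 hS).2)
  have N : ∀ T ⊆ V, T.card ≤ 3 → x ∈ convexHull ℝ (T : Set E3) →
      x ∈ ⋃ S ∈ V.powerset.filter (·.card ≤ 3), convexHull ℝ (S : Set E3) := fun T h1 h2 h3 =>
    mem_iUnion₂.2 ⟨T, Finset.mem_filter.2 ⟨Finset.mem_powerset.2 h1, h2⟩, h3⟩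
  have C : ∀ T ⊆ V, T ≠ ∅ → x ∉ cell V T := fun T h1 h2 h3 =>
    hc (mem_iUnion₂.2 ⟨T, Finset.mem_erase.2 ⟨h2, Finset.mem_powerset.2 h1⟩, h3⟩)
  obtain ⟨y, r, h0, hr, hE, hB⟩ := exists_max V ⟨v, hv⟩ x
  let A := V.filter (dist y · = r)
  have hA : ∀ w ∈ A, w ∈ V ∧ dist y w = r := fun w hw => Finset.mem_filter.1 hw
  rcases hr.eq_or_lt with e | e
  · have h2 : 1 < r := e ▸ lt_sqrt_of_sq_lt (by norm_num)
    have hy : y ∉ A := fun h => by
      have := (hA y h).2
      rw [dist_self] at this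
      linarith
    obtain ⟨t, t0, t1, t2⟩ := Finset.mem_convexHull'.1 (hB (insert y A)
      (fun w hw h => Finset.mem_insert_of_mem (Finset.mem_filter.2 ⟨hw, h⟩))
      fun _ => Finset.mem_insert_self _ _)
    rw [Finset.sum_insert hy] at t1 t2
    obtain ⟨T, hT, t', s0, s1, s2, s3⟩ := ho.red A (fun w => w - y) t (fun p hp q hq h => by
      have := ho.inner y p q r (hA p hp).2 (hA q hq).2 (hV p (hA p hp).1 q (hA q hq).1 h)
      rwa [e, sq_sqrt zero_le_two, sub_self] at this)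
      fun w hw => t0 w (Finset.mem_insert_of_mem hw)
    have hTV : T ⊆ V := fun w hw => (hA w (hT hw)).1
    have s4 : x = y + ∑ w ∈ T, t' w • (w - y) := by
      rw [s2, sum_sub, ← t2, eq_sub_of_add_eq' t1]
      module
    have s5 : ∑ w ∈ T, t' w ≤ 1 := by linarith [t0 y (Finset.mem_insert_self _ _)]
    rcases s5.eq_or_lt with k | k
    · refine N T hTV ?_ (Finset.mem_convexHull'.2 ⟨t', fun w hw => (s0 w hw).le, k, ?_⟩)
      · simpa using s3.fintype_card_le_finrank
      · rw [s4, sum_sub, k, one_smul, add_sub_cancel]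
    · refine (C T hTV ?_ ⟨y, r, t', hE, fun w hw => ⟨(hA w (hT hw)).2, s0 w hw⟩, s4,
        Or.inl ⟨e, k, s3⟩⟩).elim
      rintro rfl
      rw [Finset.sum_empty, add_zero] at s4
      have := hE v hv
      rw [← s4] at this
      linarith [mem_ball.1 hx]
  · obtain ⟨t, t0, t1, t2⟩ := Finset.mem_convexHull'.1 (hB A
      (fun w hw h => Finset.mem_filter.2 ⟨hw, h⟩) fun h => (e.ne h).elim)
    let T := A.filter (t · ≠ 0)
    have hT : ∀ w ∈ T, w ∈ A ∧ t w ≠ 0 := fun w hw => Finset.mem_filter.1 hw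
    have hTV : T ⊆ V := fun w hw => (hA w (hT w hw).1).1
    have s1 : ∑ w ∈ T, t w = 1 := (Finset.sum_filter_ne_zero A).trans t1
    have s2 : ∑ w ∈ T, t w • w = x :=
      (Finset.sum_filter_of_ne (p := fun w => t w ≠ 0) (f := fun w => t w • w)
        fun w _ h k => h (by rw [k, zero_smul])).trans t2
    have s3 := (ho.four T y r (fun p hp q hq => hV p (hTV hp) q (hTV hq))
      (fun w hw => (hA w (hT w hw).1).2) e).1
    rcases s3.eq_or_lt with k | k
    · refine (C T hTV (Finset.card_pos.1 (by omega)).ne_empty ⟨y, r, t, hE, fun w hw =>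
        ⟨(hA w (hT w hw).1).2, (t0 w (hT w hw).1).lt_of_ne' (hT w hw).2⟩, ?_,
        Or.inr ⟨e, s1, k⟩⟩).elim
      rw [sum_sub, s1, s2, one_smul, add_sub_cancel]
    · exact N T hTV (by omega)
        (Finset.mem_convexHull'.2 ⟨t, fun w hw => t0 w (hT w hw).1, s1, s2⟩)

end Pool.Agent.Lib.MP_f3b2fd_co.KA
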