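import Pool.Agent.Lib.MP_f3b2fd_co.KEP.A.St

/-! The volume of a spherical wedge. -/

namespace Pool.Agent.Lib.MP_f3b2fd_co.KA

open MeasureTheory Set Real Metric Filter Topology InnerProductSpace
open scoped ENNReal RealInnerProductSpace

namespace Dih

theorem angle {k φ : ℝ} (h1 : -π < φ) (h2 : φ < π) :
    0 < sin φ ∧ k * sin φ < cos φ ↔ 0 < φ ∧ φ < π / 2 - arctan k := by
  have e : 0 < φ → (k * sin φ < cos φ ↔ φ < π / 2 - arctan k) := fun h => by
    rw [← lt_div_iff₀ (sin_pos_of_pos_of_lt_pi h h2), ← cos_pi_div_two_sub, ← sin_pi_div_two_sub,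
      ← tan_eq_sin_div_cos, ← arctan_strictMono.lt_iff_lt,
      arctan_tan (by linarith) (by linarith), lt_sub_comm]
  refine ⟨fun h => ?_, fun h => ⟨sin_pos_of_pos_of_lt_pi h.1 h2, (e h.1).2 h.2⟩⟩
  have h0 : 0 < φ := not_le.1 fun h0 => (sin_nonpos_of_nonpos_of_neg_pi_le h0 h1.le).not_gt h.1
  exact ⟨h0, (e h0).1 h.2⟩

theorem sector (k c : ℝ) : volume {p : ℝ × ℝ | p.1 ^ 2 + p.2 ^ 2 < c ∧ 0 < p.2 ∧ k * p.2 < p.1} =
    ENNReal.ofReal ((π / 2 - arctan k) / 2 * c) := by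
  have t0 : 0 < π / 2 - arctan k := sub_pos.2 (arctan_lt_pi_div_two k)
  have t1 : π / 2 - arctan k < π := by linarith [neg_pi_div_two_lt_arctan k]
  have hS : MeasurableSet {p : ℝ × ℝ | p.1 ^ 2 + p.2 ^ 2 < c ∧ 0 < p.2 ∧ k * p.2 < p.1} := by
    measurability
  have hT : MeasurableSet (Ioo 0 √c ×ˢ Ioo 0 (π / 2 - arctan k)) :=
    measurableSet_Ioo.prod measurableSet_Ioo
  rw [← lintegral_indicator_one hS, ← lintegral_comp_polarCoord_symm, setLIntegral_congr_fun
    polarCoord.open_target.measurableSet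
    (g := (Ioo 0 √c ×ˢ Ioo 0 (π / 2 - arctan k)).indicator fun p => ENNReal.ofReal p.1 * 1),
    lintegral_indicator hT, Measure.restrict_restrict hT, inter_eq_left.2 (show _ ⊆ polarCoord.target
      from fun p hp => ⟨hp.1.1, by linarith [hp.2.1, pi_pos], hp.2.2.trans t1⟩),
    Measure.volume_eq_prod,
    ← Measure.prod_restrict, lintegral_prod_mul (f := fun r => ENNReal.ofReal r) (g := fun _ => 1)
      (by fun_prop) (by fun_prop), setLIntegral_one, volume_Ioo,
    ← ofReal_integral_eq_lintegral_ofReal (μ := volume.restrict (Ioo 0 √c))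
      (continuous_id'.integrableOn_Icc.mono_set
      Ioo_subset_Icc_self) ((ae_restrict_iff' measurableSet_Ioo).2
        (Eventually.of_forall fun t ht => ht.1.le)), ← integral_Ioc_eq_integral_Ioo,
    ← intervalIntegral.integral_of_le (sqrt_nonneg c), integral_id, mul_comm,
    ← ENNReal.ofReal_mul (by linarith)]
  · rcases le_total 0 c with h | h
    · rw [sq_sqrt h]
      congr 1
      ring
    · rw [sqrt_eq_zero_of_nonpos h, ENNReal.ofReal_of_nonpos (by simp),
        ENNReal.ofReal_of_nonpos (mul_nonpos_of_nonneg_of_nonpos (by linarith) h)]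
  · rintro ⟨r, φ⟩ ⟨h0, h1, h2⟩
    replace h0 : 0 < r := h0
    have e : polarCoord.symm (r, φ) ∈
        {p : ℝ × ℝ | p.1 ^ 2 + p.2 ^ 2 < c ∧ 0 < p.2 ∧ k * p.2 < p.1} ↔
        (r, φ) ∈ Ioo 0 √c ×ˢ Ioo 0 (π / 2 - arctan k) := by
      show (r * cos φ) ^ 2 + (r * sin φ) ^ 2 < c ∧ 0 < r * sin φ ∧ k * (r * sin φ) < r * cos φ ↔
        (0 < r ∧ r < √c) ∧ 0 < φ ∧ φ < π / 2 - arctan k
      rw [← angle h1 h2, mul_pow, mul_pow, ← mul_add, cos_sq_add_sin_sq, mul_one, lt_sqrt h0.le,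
        mul_left_comm, mul_lt_mul_iff_right₀ h0, mul_pos_iff_of_pos_left h0, and_iff_right h0]
    by_cases h : (r, φ) ∈ Ioo 0 √c ×ˢ Ioo 0 (π / 2 - arctan k)
    · simp only [indicator_of_mem h, indicator_of_mem (e.2 h), Pi.one_apply, smul_eq_mul]
    · simp only [indicator_of_notMem h, indicator_of_notMem (mt e.1 h), smul_zero]

theorem ball_int : ∫⁻ t : ℝ, ENNReal.ofReal (π * (1 - t ^ 2)) = ENNReal.ofReal (π * 4 / 3) := by
  have := slab_vol 1 zero_le_one (EuclideanSpace.single 0 1) (by simp) univ MeasurableSet.univ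
  simp only [mem_univ, and_true, ← mem_closedBall_zero_iff, ofPred_mem_eq,
    EuclideanSpace.volume_closedBall_fin_three] at this
  simpa using this.symm

theorem coord (k : ℝ) :
    volume {x : E3 | x 0 ^ 2 + x 1 ^ 2 + x 2 ^ 2 < 1 ∧ 0 < x 2 ∧ k * x 2 < x 1} =
      ENNReal.ofReal (2 / 3 * (π / 2 - arctan k)) := by
  have t0 : 0 < π / 2 - arctan k := sub_pos.2 (arctan_lt_pi_div_two k)
  have hS : MeasurableSet {p : ℝ × ℝ × ℝ |
      p.1 ^ 2 + p.2.1 ^ 2 + p.2.2 ^ 2 < 1 ∧ 0 < p.2.2 ∧ k * p.2.2 < p.2.1} := by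
    measurability
  have h1 := ((((MeasurePreserving.id volume).prod (volume_preserving_finTwoArrow ℝ)).comp
    (volume_preserving_piFinSuccAbove (fun _ : Fin 3 => ℝ) 0)).comp
    (PiLp.volume_preserving_ofLp (Fin 3))).measure_preimage hS.nullMeasurableSet
  refine h1.trans ?_
  rw [Measure.prod_apply hS, lintegral_congr (g := fun t => ENNReal.ofReal
    ((π / 2 - arctan k) / (2 * π)) * ENNReal.ofReal (π * (1 - t ^ 2))) fun t => ?_,
    lintegral_const_mul' _ _ ENNReal.ofReal_ne_top, ball_int,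
    ← ENNReal.ofReal_mul (by positivity)]
  · congr 1
    field_simp
    ring
  · rw [← ENNReal.ofReal_mul (by positivity), show (π / 2 - arctan k) / (2 * π) * (π * (1 - t ^ 2))
      = (π / 2 - arctan k) / 2 * (1 - t ^ 2) by field_simp, ← sector]
    congr 1
    ext p
    exact and_congr_left' ⟨fun h => by linarith, fun h => by linarith⟩

theorem tri {u v w : E3} (u0 : 0 < u 0) (u1 : u 1 = 0) (u2 : u 2 = 0) (v1 : 0 < v 1) (v2 : v 2 = 0)
    (w2 : 0 < w 2) :
    volume (wed u v w ∩ ball 0 1) = ENNReal.ofReal (2 / 3 * onP dih 0 u v w) := by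
  have e : onP dih 0 u v w = π / 2 - arctan (w 1 / w 2) := by
    simp only [onP, dih, EuclideanSpace.dist_sq_eq, Fin.sum_univ_three, Real.dist_eq, sq_abs,
      PiLp.zero_apply, u1, u2, v2]
    rw [sqrt_eq_iff_mul_self_eq_of_pos (y := 4 * u 0 ^ 2 * v 1 * w 2) (by positivity) |>.2
      (by rw [del]; ring), del4]
    congr 2
    field_simp
    ring
  rw [e, ← coord]
  congr 1
  ext z
  rw [mem_inter_iff, mem_ball_zero_iff, ← sq_lt_one_iff₀ (norm_nonneg z),
    EuclideanSpace.real_norm_sq_eq, Fin.sum_univ_three, and_comm]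
  refine and_congr_right' ⟨?_, fun ⟨h1, h2⟩ => ⟨(z 0 - (z 1 - w 1 / w 2 * z 2) / v 1 * v 0 -
    z 2 / w 2 * w 0) / u 0, (z 1 - w 1 / w 2 * z 2) / v 1, z 2 / w 2, div_pos (sub_pos.2 h2) v1,
    div_pos h1 w2, ?_⟩⟩
  · rintro ⟨α, β, γ, h1, h2, rfl⟩
    simp only [PiLp.add_apply, PiLp.smul_apply, smul_eq_mul, u1, u2, v2, mul_zero, zero_add]
    refine ⟨mul_pos h2 w2, ?_⟩
    rw [mul_left_comm, div_mul_cancel₀ _ w2.ne']
    linarith [mul_pos h1 v1]
  · ext i
    fin_cases i <;> simp [u1, u2, v2] <;> field_simp <;> ring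

theorem gs_pos {f : Fin 3 → E3} (hf : LinearIndependent ℝ f)
    (h : Module.finrank ℝ E3 = Fintype.card (Fin 3)) (i : Fin 3) :
    0 < (gramSchmidtOrthonormalBasis h f).repr (f i) i := by
  have h0 := norm_pos_iff.2 (gramSchmidt_ne_zero i hf)
  have e : ⟪gramSchmidt ℝ f i, f i⟫ = ‖gramSchmidt ℝ f i‖ ^ 2 := by
    rw [gramSchmidt_def'' ℝ f i, inner_add_right, inner_sum, real_inner_self_eq_norm_sq,
      Finset.sum_eq_zero fun j hj => ?_, add_zero]
    rw [real_inner_smul_right, gramSchmidt_orthogonal ℝ f (Finset.mem_Iio.1 hj).ne', mul_zero]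
  rw [OrthonormalBasis.repr_apply_apply, gramSchmidtOrthonormalBasis_apply h
    (norm_ne_zero_iff.1 (gramSchmidtNormed_unit_length i hf ▸ one_ne_zero)), gramSchmidtNormed,
    real_inner_smul_left, e]
  exact mul_pos (inv_pos.2 h0) (pow_pos h0 2)

end Dih

theorem dihS : DihS := fun u v w hf => by
  have h : Module.finrank ℝ E3 = Fintype.card (Fin 3) := finrank_euclideanSpace
  have p := Dih.gs_pos hf h
  have q := fun i j => gramSchmidtOrthonormalBasis_inv_triangular' h ![u, v, w] (i := i) (j := j)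
  generalize (gramSchmidtOrthonormalBasis h ![u, v, w]).repr = R at p q
  have e := Dih.tri (u := R u) (v := R v) (w := R w) (p 0) (q 0 1 (by decide)) (q 0 2 (by decide))
    (p 1) (q 1 2 (by decide)) (p 2)
  rw [← R.measurePreserving.measure_preimage_emb R.toHomeomorph.measurableEmbedding,
    ← R.map_zero] at e
  simp only [onP, R.dist_map] at e
  rw [onP, ← e]
  congr 1
  ext z
  simp only [wed, mem_inter_iff, mem_preimage, mem_ball, R.dist_map, mem_ofPred_eq, ← map_smul,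
    ← map_add, R.injective.eq_iff]

end Pool.Agent.Lib.MP_f3b2fd_co.KA
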