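import Pool.Agent.Lib.MP_f3b2fd_co.KEP.A.St

/-! The cells are disjoint, far from the other centres and inside the large balls. -/

namespace Pool.Agent.Lib.MP_f3b2fd_co.KA

open MeasureTheory Set Real Metric Filter Topology
open scoped ENNReal RealInnerProductSpace

namespace Disj

theorem ident {S : Finset E3} {x y : E3} {r : ℝ} {t : E3 → ℝ} (y' : E3)
    (h : ∀ v ∈ S, dist y v = r) (hx : x = y + ∑ v ∈ S, t v • (v - y)) :
    ∑ v ∈ S, t v * dist y' v ^ 2 - dist y' x ^ 2 =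
      (∑ v ∈ S, t v) * r ^ 2 - dist y x ^ 2 - (1 - ∑ v ∈ S, t v) * dist y y' ^ 2 := by
  have e : ∀ v : E3, dist y' v ^ 2 = dist y v ^ 2 - 2 * ⟪v - y, y' - y⟫ + dist y y' ^ 2 := by
    intro v
    rw [dist_comm y' v, dist_comm y v, dist_comm y y', dist_eq_norm, dist_eq_norm, dist_eq_norm,
      ← norm_sub_sq_real, sub_sub_sub_cancel_right]
  have e1 : ⟪x - y, y' - y⟫ = ∑ v ∈ S, t v * ⟪v - y, y' - y⟫ := by
    rw [hx, add_sub_cancel_left, sum_inner]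
    exact Finset.sum_congr rfl fun v _ => real_inner_smul_left _ _ _
  have e2 : ∑ v ∈ S, t v * dist y' v ^ 2 = (∑ v ∈ S, t v) * r ^ 2 -
      2 * ∑ v ∈ S, t v * ⟪v - y, y' - y⟫ + (∑ v ∈ S, t v) * dist y y' ^ 2 := by
    rw [Finset.sum_mul, Finset.sum_mul, Finset.mul_sum, ← Finset.sum_sub_distrib,
      ← Finset.sum_add_distrib]
    refine Finset.sum_congr rfl fun v hv => ?_
    rw [e v, h v hv]
    ring
  rw [e2, e x, e1]
  ring

theorem key (V S : Finset E3) (x y y' : E3) (r r' : ℝ) (t : E3 → ℝ) (hS : S ⊆ V)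
    (h : ∀ v ∈ S, dist y v = r ∧ 0 < t v) (hx : x = y + ∑ v ∈ S, t v • (v - y))
    (h1 : ∑ v ∈ S, t v ≤ 1) (h2 : ∑ v ∈ S, t v < 1 → r = √2) (hE : Em V y' r') (h0 : 0 ≤ r')
    (h3 : r' ≤ √2) :
    r' ^ 2 - dist y' x ^ 2 + (1 - ∑ v ∈ S, t v) * dist y y' ^ 2 ≤ r ^ 2 - dist y x ^ 2 ∧
    (r ^ 2 - dist y x ^ 2 ≤ r' ^ 2 - dist y' x ^ 2 → ∀ v ∈ S, dist y' v = r') := by
  have e := ident y' (fun v hv => (h v hv).1) hx
  have p : ∀ v ∈ S, 0 ≤ t v * (dist y' v ^ 2 - r' ^ 2) := fun v hv =>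
    mul_nonneg (h v hv).2.le (sub_nonneg.2 (pow_le_pow_left₀ h0 (hE v (hS hv)) 2))
  have e2 : ∑ v ∈ S, t v * (dist y' v ^ 2 - r' ^ 2) =
      ∑ v ∈ S, t v * dist y' v ^ 2 - (∑ v ∈ S, t v) * r' ^ 2 := by
    rw [Finset.sum_mul, ← Finset.sum_sub_distrib]
    exact Finset.sum_congr rfl fun v _ => by ring
  have p2 := Finset.sum_nonneg p
  have p3 : (1 - ∑ v ∈ S, t v) * r' ^ 2 ≤ (1 - ∑ v ∈ S, t v) * r ^ 2 := by
    rcases h1.eq_or_lt with k | k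
    · rw [k, sub_self, zero_mul, zero_mul]
    · rw [h2 k]
      exact mul_le_mul_of_nonneg_left (pow_le_pow_left₀ h0 h3 2) (by linarith)
  refine ⟨by linarith, fun k v hv => ?_⟩
  have p4 : 0 ≤ (1 - ∑ v ∈ S, t v) * dist y y' ^ 2 := mul_nonneg (by linarith) (sq_nonneg _)
  have p5 : ∑ v ∈ S, t v * (dist y' v ^ 2 - r' ^ 2) = 0 := le_antisymm (by linarith) p2
  have p6 := (Finset.sum_eq_zero_iff_of_nonneg p).1 p5 v hv
  have p7 := sub_eq_zero.1 ((mul_eq_zero.1 p6).resolve_left (h v hv).2.ne')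
  exact (pow_left_inj₀ dist_nonneg h0 two_ne_zero).1 p7

theorem kind {r T : ℝ} {P Q : Prop} (h : (r = √2 ∧ T < 1 ∧ P) ∨ (r < √2 ∧ T = 1 ∧ Q)) :
    T ≤ 1 ∧ (T < 1 → r = √2) ∧ r ≤ √2 := by
  rcases h with h | h
  · exact ⟨h.2.1.le, fun _ => h.1, h.1.le⟩
  · exact ⟨h.2.1.le, fun k => absurd h.2.1 k.ne, h.1.le⟩

theorem same {T d : ℝ} (h : T < 1) (k : (1 - T) * d ^ 2 ≤ 0) : d = 0 := by
  have : d ^ 2 ≤ 0 := by
    by_contra c
    exact absurd k (not_le.2 (mul_pos (by linarith) (not_le.1 c)))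
  exact pow_eq_zero_iff two_ne_zero |>.1 (le_antisymm this (sq_nonneg d))

theorem disj (ho : ObtS) (V S T : Finset E3) (hV : Pack V) (hS : S ⊆ V) (hT : T ⊆ V)
    (nS : S.Nonempty) (nT : T.Nonempty) (hne : S ≠ T) : Disjoint (cell V S) (cell V T) := by
  rw [Set.disjoint_left]
  rintro x ⟨y, r, t, hE, h, hx, hk⟩ ⟨y', r', t', hE', h', hx', hk'⟩
  obtain ⟨a, ha⟩ := nS
  obtain ⟨b, hb⟩ := nT
  have r0 : 0 ≤ r := (h a ha).1 ▸ dist_nonneg
  have r0' : 0 ≤ r' := (h' b hb).1 ▸ dist_nonneg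
  obtain ⟨a1, a2, a3⟩ := kind hk
  obtain ⟨b1, b2, b3⟩ := kind hk'
  obtain ⟨k1, k2⟩ := key V S x y y' r r' t hS h hx a1 a2 hE' r0' b3
  obtain ⟨l1, l2⟩ := key V T x y' y r' r t' hT h' hx' b1 b2 hE r0 a3
  have p1 : 0 ≤ (1 - ∑ v ∈ S, t v) * dist y y' ^ 2 := mul_nonneg (by linarith) (sq_nonneg _)
  have p2 : 0 ≤ (1 - ∑ v ∈ T, t' v) * dist y' y ^ 2 := mul_nonneg (by linarith) (sq_nonneg _)
  have k3 := k2 (by linarith)
  have l3 := l2 (by linarith)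
  have hU : S ∪ T ⊆ V := Finset.union_subset hS hT
  have hP : Pack (S ∪ T) := fun v hv w hw => hV v (hU hv) w (hU hw)
  have u1 : ∀ v ∈ S ∪ T, dist y v = r := fun v hv =>
    (Finset.mem_union.1 hv).elim (fun k => (h v k).1) (l3 v)
  rcases hk with ⟨c1, c2, c3⟩ | ⟨c1, c2, c3⟩
  · obtain rfl : y = y' := dist_eq_zero.1 (same c2 (by linarith))
    rcases hk' with ⟨d1, d2, d3⟩ | ⟨d1, d2, d3⟩
    · refine hne (ho.uniq S T (fun v => v - y) t t' (fun v hv w hw hvw => ?_)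
        (fun v hv => (h v hv).2) (fun v hv => (h' v hv).2) c3 d3 (add_left_cancel (hx.symm.trans hx')))
      have := ho.inner y v w r (u1 v hv) (u1 w hw) (hP v hv w hw hvw)
      rwa [c1, sq_sqrt zero_le_two, sub_self] at this
    · rw [← k3 a ha, (h a ha).1, c1] at d1
      exact lt_irrefl _ d1
  · rcases hk' with ⟨d1, d2, d3⟩ | ⟨d1, d2, d3⟩
    · obtain rfl : y' = y := dist_eq_zero.1 (same d2 (by linarith))
      rw [← l3 b hb, (h' b hb).1, d1] at c1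
      exact lt_irrefl _ c1
    · have c4 := (ho.four _ y r hP u1 c1).1
      exact hne ((Finset.eq_of_subset_of_card_le Finset.subset_union_left (c3 ▸ c4)).trans
        (Finset.eq_of_subset_of_card_le Finset.subset_union_right (d3 ▸ c4)).symm)

theorem far (V S : Finset E3) (hV : Pack V) (hS : S ⊆ V) (v : E3) (hv : v ∈ V) (hn : v ∉ S) :
    cell V S ∩ ball v 1 = ∅ := by
  rw [eq_empty_iff_forall_notMem]
  rintro x ⟨⟨y, r, t, hE, h, hx, hk⟩, hb⟩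
  have e := ident v (fun w hw => (h w hw).1) hx
  have p1 : (∑ w ∈ S, t w) * 4 ≤ ∑ w ∈ S, t w * dist v w ^ 2 := by
    rw [Finset.sum_mul]
    refine Finset.sum_le_sum fun w hw => mul_le_mul_of_nonneg_left ?_ (h w hw).2.le
    have := hV v hv w (hS hw) fun k => hn (k ▸ hw)
    nlinarith
  have p2 : dist v x ^ 2 < 1 := by
    rw [mem_ball, dist_comm] at hb
    nlinarith [dist_nonneg (x := v) (y := x)]
  have p3 := sq_nonneg (dist y x)
  have s2 : √2 ^ 2 = 2 := sq_sqrt zero_le_two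
  rcases hk with ⟨c1, c2, -⟩ | ⟨c1, c2, c3⟩
  · have p4 : r ^ 2 ≤ dist y v ^ 2 := pow_le_pow_left₀ (c1 ▸ sqrt_nonneg 2) (hE v hv) 2
    have p5 := mul_le_mul_of_nonneg_left p4 (sub_nonneg.2 c2.le)
    rw [c1, s2] at e p5
    linarith
  · obtain ⟨a, ha⟩ := Finset.card_pos.1 (by omega : 0 < S.card)
    have p4 : r ^ 2 ≤ √2 ^ 2 := pow_le_pow_left₀ ((h a ha).1 ▸ dist_nonneg) c1.le 2
    rw [c2] at e p1
    linarith

theorem sub (V S : Finset E3) (hS : S ⊆ V) (nS : S.Nonempty) :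
    cell V S ⊆ ⋃ v ∈ V, ball v √2 := by
  rintro x ⟨y, r, t, -, h, hx, hk⟩
  by_contra hn
  have hE : Em V x √2 := fun v hv => not_lt.1 fun k => hn (mem_iUnion₂.2 ⟨v, hv, k⟩)
  obtain ⟨a, ha⟩ := nS
  obtain ⟨a1, a2, a3⟩ := kind hk
  have r0 : 0 ≤ r := (h a ha).1 ▸ dist_nonneg
  have k1 := (key V S x y x r √2 t hS h hx a1 a2 hE (sqrt_nonneg 2) le_rfl).1
  have p1 : 0 ≤ (1 - ∑ v ∈ S, t v) * dist y x ^ 2 := mul_nonneg (by linarith) (sq_nonneg _)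
  have p2 : r ^ 2 ≤ √2 ^ 2 := pow_le_pow_left₀ r0 a3 2
  have p3 := sq_nonneg (dist y x)
  rw [dist_self] at k1
  rcases hk with ⟨-, -, c3⟩ | ⟨c1, -, -⟩
  · have e : y = x := dist_eq_zero.1 (same zero_lt_one (by linarith))
    have e2 : ∑ v ∈ S, t v • (v - y) = 0 := by
      rw [← e] at hx
      exact left_eq_add.1 hx
    rw [← Finset.sum_coe_sort S fun v => t v • (v - y)] at e2
    exact (h a ha).2.ne' (Fintype.linearIndependent_iff.1 c3 (fun v => t v) e2 ⟨a, ha⟩)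
  · have := pow_lt_pow_left₀ c1 r0 two_ne_zero
    linarith

end Disj

theorem disjS (ho : ObtS) : DisjS := ⟨Disj.key, Disj.disj ho, Disj.far, Disj.sub⟩

end Pool.Agent.Lib.MP_f3b2fd_co.KA
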