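import Pool.Agent.Lib.MP_f3b2fd_co.KEP.A.St

/-! The formula of Girard for the volume of an octant. -/

namespace Pool.Agent.Lib.MP_f3b2fd_co.KA

open MeasureTheory Set Real Metric
open scoped ENNReal

namespace Gir

theorem op (f : E3 →ₗ[ℝ] ℝ) : IsOpen {z : E3 | 0 < f z} :=
  isOpen_lt continuous_const f.continuous_of_finiteDimensional

/-- a plane cuts a set in two parts. -/
theorem split (f : E3 →ₗ[ℝ] ℝ) (hf : f ≠ 0) (A : Set E3) :
    volume A = volume (A ∩ {z | 0 < f z}) + volume (A ∩ {z | 0 < (-f) z}) := by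
  have h0 : volume (LinearMap.ker f : Set E3) = 0 :=
    Measure.addHaar_submodule _ _ fun h => hf (LinearMap.ker_eq_top.1 h)
  rw [← measure_inter_add_diff A (op f).measurableSet]
  congr 1
  refine measure_congr ?_
  have h1 : ∀ᵐ z : E3, z ∉ (LinearMap.ker f : Set E3) := measure_eq_zero_iff_ae_notMem.1 h0
  filter_upwards [h1] with z hz
  have hz' : f z ≠ 0 := hz
  refine propext ⟨fun h => ⟨h.1, ?_⟩, fun h => ⟨h.1, fun k => ?_⟩⟩
  · have := lt_of_le_of_ne (not_lt.1 h.2) hz'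
    simpa using this
  · have k1 : 0 < -f z := h.2
    have k2 : 0 < f z := k
    linarith

/-- the half ball. -/
noncomputable def m1 (h : E3 →ₗ[ℝ] ℝ) : ℝ≥0∞ := volume (ball (0 : E3) 1 ∩ {z | 0 < h z})

/-- the wedge. -/
noncomputable def m2 (g h : E3 →ₗ[ℝ] ℝ) : ℝ≥0∞ :=
  volume (ball (0 : E3) 1 ∩ {z | 0 < h z} ∩ {z | 0 < g z})

/-- the octant. -/
noncomputable def m3 (f g h : E3 →ₗ[ℝ] ℝ) : ℝ≥0∞ :=
  volume (ball (0 : E3) 1 ∩ {z | 0 < h z} ∩ {z | 0 < g z} ∩ {z | 0 < f z})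

theorem m1_neg (h : E3 →ₗ[ℝ] ℝ) : m1 (-h) = m1 h := by
  rw [m1, m1, ← Measure.measure_neg]
  congr 1
  ext z
  simp

theorem m3_neg (f g h : E3 →ₗ[ℝ] ℝ) : m3 (-f) (-g) h = m3 f g (-h) := by
  rw [m3, m3, ← Measure.measure_neg]
  congr 1
  ext z
  simp

theorem m3_sw1 (f g h : E3 →ₗ[ℝ] ℝ) : m3 f g h = m3 g f h := by
  rw [m3, m3, inter_right_comm]

theorem m3_sw2 (f g h : E3 →ₗ[ℝ] ℝ) : m3 f g h = m3 h f g := by
  rw [m3, m3]
  congr 1
  ext z
  simp only [mem_inter_iff]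
  tauto

theorem half (h : E3 →ₗ[ℝ] ℝ) (hh : h ≠ 0) : m1 h = ENNReal.ofReal (2 * π / 3) := by
  have e := split h hh (ball 0 1)
  change _ = m1 h + m1 (-h) at e
  rw [m1_neg, EuclideanSpace.volume_ball_fin_three, ← two_mul] at e
  refine (ENNReal.mul_right_inj two_ne_zero ENNReal.ofNat_ne_top).1 ?_
  rw [← e, ← ENNReal.ofReal_ofNat 2, ← ENNReal.ofReal_mul (by norm_num)]
  simp only [ENNReal.ofReal_one, one_pow, one_mul]
  congr 1
  ring

theorem main (f g h : E3 →ₗ[ℝ] ℝ) (hf : f ≠ 0) (hg : g ≠ 0) (hh : h ≠ 0) :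
    2 * m3 f g h + ENNReal.ofReal (2 * π / 3) = m2 g h + m2 f h + m2 f g := by
  have e1 : m1 h = m2 g h + m2 (-g) h := split g hg _
  have e2 : m2 g h = m3 f g h + m3 (-f) g h := split f hf _
  have e3 : m2 (-g) h = m3 f (-g) h + m3 (-f) (-g) h := split f hf _
  have e4 : m2 f h = m3 g f h + m3 (-g) f h := split g hg _
  have e5 : m2 f g = m3 h f g + m3 (-h) f g := split h hh _
  rw [← half h hh, e1, e3, e4, e5, e2, m3_neg, m3_sw1 g f, m3_sw1 (-g) f, ← m3_sw2 f g h,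
    ← m3_sw2 f g (-h)]
  ring

end Gir

open Gir in
/-- the formula of Girard. -/
theorem gir : GirS := by
  intro u v w hl
  let B : Module.Basis (Fin 3) ℝ E3 := basisOfLinearIndependentOfCardEqFinrank hl (by simp)
  have b0 : B 0 = u := by simp [B]
  have b1 : B 1 = v := by simp [B]
  have b2 : B 2 = w := by simp [B]
  have hz : ∀ z : E3, z = B.coord 0 z • u + B.coord 1 z • v + B.coord 2 z • w := fun z => by
    have := B.sum_repr z
    rw [Fin.sum_univ_three, b0, b1, b2] at this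
    exact this.symm
  have hc : ∀ α β γ : ℝ, B.coord 0 (α • u + β • v + γ • w) = α ∧
      B.coord 1 (α • u + β • v + γ • w) = β ∧ B.coord 2 (α • u + β • v + γ • w) = γ := by
    intro α β γ
    rw [← b0, ← b1, ← b2]
    simp
  have hn : ∀ i, B.coord i ≠ 0 := fun i h => by
    have := LinearMap.congr_fun h (B i)
    simp at this
  have w0 : wed u v w = {z | 0 < B.coord 2 z} ∩ {z | 0 < B.coord 1 z} := by
    ext z
    refine ⟨?_, fun h => ⟨_, _, _, h.2, h.1, hz z⟩⟩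
    rintro ⟨α, β, γ, p, q, rfl⟩
    exact ⟨q.trans_eq (hc α β γ).2.2.symm, p.trans_eq (hc α β γ).2.1.symm⟩
  have w1 : wed v u w = {z | 0 < B.coord 2 z} ∩ {z | 0 < B.coord 0 z} := by
    ext z
    refine ⟨?_, fun h => ⟨B.coord 1 z, _, _, h.2, h.1, (hz z).trans (by abel)⟩⟩
    rintro ⟨α, β, γ, p, q, e⟩
    obtain rfl : z = β • u + α • v + γ • w := e.trans (by abel)
    exact ⟨q.trans_eq (hc β α γ).2.2.symm, p.trans_eq (hc β α γ).1.symm⟩
  have w2 : wed w u v = {z | 0 < B.coord 1 z} ∩ {z | 0 < B.coord 0 z} := by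
    ext z
    refine ⟨?_, fun h => ⟨B.coord 2 z, _, _, h.2, h.1, (hz z).trans (by abel)⟩⟩
    rintro ⟨α, β, γ, p, q, e⟩
    obtain rfl : z = β • u + γ • v + α • w := e.trans (by abel)
    exact ⟨q.trans_eq (hc β γ α).2.1.symm, p.trans_eq (hc β γ α).1.symm⟩
  have w3 : oct u v w = {z | 0 < B.coord 2 z} ∩ {z | 0 < B.coord 1 z} ∩ {z | 0 < B.coord 0 z} := by
    ext z
    refine ⟨?_, fun h => ⟨_, _, _, h.2, h.1.2, h.1.1, hz z⟩⟩
    rintro ⟨α, β, γ, o, p, q, rfl⟩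
    exact ⟨⟨q.trans_eq (hc α β γ).2.2.symm, p.trans_eq (hc α β γ).2.1.symm⟩,
      o.trans_eq (hc α β γ).1.symm⟩
  refine ⟨w0 ▸ (op _).inter (op _), ?_⟩
  have e := main _ _ _ (hn 0) (hn 1) (hn 2)
  simp only [m2, m3, inter_assoc] at e
  rw [w0, w1, w2, w3, inter_comm _ (ball _ _), inter_comm _ (ball _ _), inter_comm _ (ball _ _),
    inter_comm _ (ball _ _), inter_assoc]
  exact e

end Pool.Agent.Lib.MP_f3b2fd_co.KA
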