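import Pool.Agent.Lib.MP_f3b2fd_co.KEP.A.St

/-! The cell inequality for cells with two vertices. -/

namespace Pool.Agent.Lib.MP_f3b2fd_co.KA

open MeasureTheory Set Real Metric Filter Topology
open scoped ENNReal RealInnerProductSpace

namespace Good2

/-- a function with two pieces. -/
noncomputable def two (a b c : ℝ) (p q : ℝ → ℝ) (s : ℝ) : ℝ :=
  (Ioc a b).indicator p s + (Ioc b c).indicator q s

theorem two_meas (a b c : ℝ) {p q : ℝ → ℝ} (hp : Continuous p) (hq : Continuous q) :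
    Measurable (two a b c p q) :=
  (hp.measurable.indicator measurableSet_Ioc).add (hq.measurable.indicator measurableSet_Ioc)

theorem two_left {a b c : ℝ} (p q : ℝ → ℝ) {s : ℝ} (h1 : a < s) (h2 : s ≤ b) :
    two a b c p q s = p s := by
  unfold two
  rw [indicator_of_mem (show s ∈ Ioc a b from ⟨h1, h2⟩),
    indicator_of_notMem (fun h : s ∈ Ioc b c => absurd h.1 (not_lt.2 h2)), add_zero]

theorem two_right {a b c : ℝ} (p q : ℝ → ℝ) {s : ℝ} (h1 : b < s) (h2 : s ≤ c) :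
    two a b c p q s = q s := by
  unfold two
  rw [indicator_of_mem (show s ∈ Ioc b c from ⟨h1, h2⟩),
    indicator_of_notMem (fun h : s ∈ Ioc a b => absurd h1 (not_lt.2 h.2)), zero_add]

theorem two_cases (a b c : ℝ) (p q : ℝ → ℝ) (s : ℝ) :
    (a < s ∧ s ≤ b ∧ two a b c p q s = p s) ∨ (b < s ∧ s ≤ c ∧ two a b c p q s = q s) ∨
      two a b c p q s = 0 := by
  by_cases h1 : s ∈ Ioc a b
  · exact Or.inl ⟨h1.1, h1.2, two_left p q h1.1 h1.2⟩
  by_cases h2 : s ∈ Ioc b c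
  · exact Or.inr (Or.inl ⟨h2.1, h2.2, two_right p q h2.1 h2.2⟩)
  · right; right
    unfold two
    rw [indicator_of_notMem h1, indicator_of_notMem h2, add_zero]

theorem two_int {a b c : ℝ} {p q : ℝ → ℝ} (hp : Continuous p) (hq : Continuous q) (hab : a ≤ b)
    (hbc : b ≤ c) (p0 : ∀ s, a < s → s ≤ b → 0 ≤ p s) (q0 : ∀ s, b < s → s ≤ c → 0 ≤ q s) :
    ∫⁻ s, ENNReal.ofReal (two a b c p q s) =
      ENNReal.ofReal ((∫ s in a..b, p s) + ∫ s in b..c, q s) := by
  have i1 : Integrable ((Ioc a b).indicator p) volume :=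
    (integrable_indicator_iff measurableSet_Ioc).2 (hp.integrableOn_Icc.mono_set Ioc_subset_Icc_self)
  have i2 : Integrable ((Ioc b c).indicator q) volume :=
    (integrable_indicator_iff measurableSet_Ioc).2 (hq.integrableOn_Icc.mono_set Ioc_subset_Icc_self)
  rw [← ofReal_integral_eq_lintegral_ofReal (f := two a b c p q) (i1.add i2)
    (Eventually.of_forall fun s => ?_)]
  · congr 1
    unfold two
    rw [integral_add i1 i2, integral_indicator measurableSet_Ioc,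
      integral_indicator measurableSet_Ioc, intervalIntegral.integral_of_le hab,
      intervalIntegral.integral_of_le hbc]
  · show 0 ≤ two a b c p q s
    rcases two_cases a b c p q s with h | h | h
    · rw [h.2.2]; exact p0 s h.1 h.2.1
    · rw [h.2.2]; exact q0 s h.1 h.2.1
    · rw [h]

theorem int_quad (a b u v w : ℝ) : ∫ s in a..b, (u + v * s + w * s ^ 2) =
    u * (b - a) + v * (b ^ 2 - a ^ 2) / 2 + w * (b ^ 3 - a ^ 3) / 3 := by
  have hd : ∀ s ∈ uIcc a b, HasDerivAt (fun s : ℝ => u * s + v * s ^ 2 / 2 + w * s ^ 3 / 3)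
      (u + v * s + w * s ^ 2) s := fun s _ => by
    have := (((hasDerivAt_id s).const_mul u).add
      (((hasDerivAt_pow 2 s).const_mul v).div_const 2)).add
      (((hasDerivAt_pow 3 s).const_mul w).div_const 3)
    exact this.congr_deriv (by push_cast; ring)
  rw [intervalIntegral.integral_eq_sub_of_hasDerivAt hd
    (Continuous.intervalIntegrable (by fun_prop) _ _)]
  ring

/-- the part orthogonal to `e`. -/
noncomputable def pr (e z : E3) : E3 := z - ⟪z, e⟫ • e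

theorem pr_sq {e : E3} (he : ‖e‖ = 1) (z : E3) : ‖pr e z‖ ^ 2 = ‖z‖ ^ 2 - ⟪z, e⟫ ^ 2 := by
  unfold pr
  rw [norm_sub_sq_real, inner_smul_right, norm_smul, he, mul_one, Real.norm_eq_abs, sq_abs]
  ring

theorem pr_perp {e : E3} (he : ‖e‖ = 1) (z : E3) : ⟪pr e z, e⟫ = 0 := by
  unfold pr
  rw [inner_sub_left, real_inner_smul_left, real_inner_self_eq_norm_sq, he]
  ring

theorem in_add {e : E3} (he : ‖e‖ = 1) (z : E3) (s : ℝ) : ⟪z + s • e, e⟫ = ⟪z, e⟫ + s := by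
  rw [inner_add_left, real_inner_smul_left, real_inner_self_eq_norm_sq, he]
  ring

theorem pr_add {e : E3} (he : ‖e‖ = 1) (z : E3) (s : ℝ) : pr e (z + s • e) = pr e z := by
  unfold pr
  rw [in_add he, add_smul]
  abel

theorem pr_smul (e z : E3) (c : ℝ) : pr e (c • z) = c • pr e z := by
  unfold pr
  rw [real_inner_smul_left, smul_sub, mul_smul]

theorem pr_cont (e : E3) : Continuous (pr e) := by
  unfold pr
  fun_prop

/-- the directions whose point on the circle of radius `ρ` is the centre of an empty ball. -/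
def W0 (V : Finset E3) (m e : E3) (ρ : ℝ) : Set E3 :=
  {z | pr e z ≠ 0 ∧ Em V (m + (ρ / ‖pr e z‖) • pr e z) √2}

theorem W0_meas (V : Finset E3) (m e : E3) (ρ : ℝ) : MeasurableSet (W0 V m e ρ) := by
  have hp := (pr_cont e).measurable
  have hY : Measurable fun z => m + (ρ / ‖pr e z‖) • pr e z :=
    measurable_const.add ((measurable_const.div hp.norm).smul hp)
  have : W0 V m e ρ = (pr e ⁻¹' {0})ᶜ ∩
      ⋂ u ∈ V, {z | √2 ≤ dist (m + (ρ / ‖pr e z‖) • pr e z) u} := by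
    ext z
    simp [W0, Em]
  rw [this]
  exact (hp (measurableSet_singleton 0)).compl.inter (Finset.measurableSet_biInter V fun u _ =>
    measurableSet_le measurable_const (hY.dist measurable_const))

theorem W0_add {V : Finset E3} {m e : E3} {ρ : ℝ} (he : ‖e‖ = 1) :
    ∀ z ∈ W0 V m e ρ, ∀ s : ℝ, z + s • e ∈ W0 V m e ρ := fun z hz s => by
  unfold W0 at hz ⊢
  simpa only [mem_ofPred_eq, pr_add he] using hz

theorem W0_smul {V : Finset E3} {m e : E3} {ρ : ℝ} :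
    ∀ z ∈ W0 V m e ρ, ∀ c : ℝ, 0 < c → c • z ∈ W0 V m e ρ := fun z hz c hc => by
  obtain ⟨h1, h2⟩ := hz
  refine ⟨by rw [pr_smul]; exact smul_ne_zero hc.ne' h1, ?_⟩
  have h3 : ‖pr e z‖ ≠ 0 := norm_ne_zero_iff.2 h1
  rw [pr_smul, norm_smul, Real.norm_eq_abs, abs_of_pos hc, smul_smul,
    show ρ / (c * ‖pr e z‖) * c = ρ / ‖pr e z‖ by field_simp]
  exact h2

theorem sph {m e y : E3} {h : ℝ} (he : ‖e‖ = 1) (hh : 0 < h) :
    (dist y (m - h • e) = √2 ∧ dist y (m + h • e) = √2) ↔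
      (⟪y - m, e⟫ = 0 ∧ ‖y - m‖ ^ 2 = 2 - h ^ 2) := by
  have e1 : dist y (m - h • e) ^ 2 = ‖y - m‖ ^ 2 + 2 * h * ⟪y - m, e⟫ + h ^ 2 := by
    rw [dist_eq_norm, show y - (m - h • e) = (y - m) + h • e by abel, norm_add_sq_real,
      inner_smul_right, norm_smul, he, mul_one, Real.norm_eq_abs, sq_abs]
    ring
  have e2 : dist y (m + h • e) ^ 2 = ‖y - m‖ ^ 2 - 2 * h * ⟪y - m, e⟫ + h ^ 2 := by
    rw [dist_eq_norm, show y - (m + h • e) = (y - m) - h • e by abel, norm_sub_sq_real,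
      inner_smul_right, norm_smul, he, mul_one, Real.norm_eq_abs, sq_abs]
    ring
  have s2 : (√2 : ℝ) ^ 2 = 2 := Real.sq_sqrt (by norm_num)
  constructor
  · rintro ⟨h1, h2⟩
    rw [h1, s2] at e1
    rw [h2, s2] at e2
    have : h * ⟪y - m, e⟫ = 0 := by linarith
    have h0 := (mul_eq_zero.1 this).resolve_left hh.ne'
    refine ⟨h0, ?_⟩
    rw [h0] at e1
    linarith
  · rintro ⟨h1, h2⟩
    rw [h1, h2] at e1 e2
    exact ⟨(sq_eq_sq₀ dist_nonneg (Real.sqrt_nonneg 2)).1 (by rw [e1, s2]; ring),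
      (sq_eq_sq₀ dist_nonneg (Real.sqrt_nonneg 2)).1 (by rw [e2, s2]; ring)⟩

theorem li {m e y v w : E3} {h : ℝ} (he : ‖e‖ = 1) (hh : 0 < h) (hv : v = m - h • e)
    (hw : w = m + h • e) (hvw : v ≠ w) (hy : ⟪y - m, e⟫ = 0) :
    (LinearIndependent ℝ fun u : ({v, w} : Finset E3) => (u : E3) - y) ↔ y - m ≠ 0 := by
  have : (LinearIndependent ℝ fun u : ({v, w} : Finset E3) => (u : E3) - y) ↔
      LinearIndepOn ℝ (fun u : E3 => u - y) (({v, w} : Finset E3) : Set E3) := Iff.rfl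
  rw [this, Finset.coe_pair, LinearIndepOn.pair_iff _ hvw]
  have key : ∀ c d : ℝ, c • (v - y) + d • (w - y) = (-(c + d)) • (y - m) + ((d - c) * h) • e :=
    fun c d => by rw [hv, hw]; module
  constructor
  · intro H h0
    have := (H 1 1 (by rw [key, h0]; simp)).1
    norm_num at this
  · intro h0 c d H
    rw [key] at H
    have h1 := in_add he ((-(c + d)) • (y - m)) ((d - c) * h)
    rw [H, inner_zero_left, real_inner_smul_left, hy] at h1
    have h2 : d - c = 0 := (mul_eq_zero.1 (by linarith : (d - c) * h = 0)).resolve_right hh.ne'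
    rw [h2, zero_mul, zero_smul, add_zero] at H
    have h3 := (smul_eq_zero.1 H).resolve_right h0
    constructor <;> linarith

theorem fwd {V : Finset E3} {m e v w x : E3} {h : ℝ} (he : ‖e‖ = 1) (hh : 0 < h)
    (hv : v = m - h • e) (hw : w = m + h • e) (hvw : v ≠ w) (hx : x ∈ cell V {v, w}) :
    h ^ 2 < 2 ∧ x - m ∈ W0 V m e √(2 - h ^ 2) ∧
      ‖pr e (x - m)‖ < √(2 - h ^ 2) * (1 - |⟪x - m, e⟫| / h) := by
  obtain ⟨y, r, t, hE, hS, hx, hc⟩ := hx
  rw [Finset.sum_pair hvw] at hx hc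
  obtain ⟨rfl, h1, h2⟩ := hc.resolve_right fun k => by
    have := k.2.2
    rw [Finset.card_pair hvw] at this
    omega
  obtain ⟨a1, a2⟩ := hS v (by simp)
  obtain ⟨b1, b2⟩ := hS w (by simp)
  obtain ⟨c1, c2⟩ := (sph (m := m) (y := y) he hh).1 ⟨hv ▸ a1, hw ▸ b1⟩
  have n0 := (li he hh hv hw hvw c1).1 h2
  have n1 : 0 < ‖y - m‖ := norm_pos_iff.2 n0
  have n2 : √(2 - h ^ 2) = ‖y - m‖ := by rw [← c2, Real.sqrt_sq n1.le]
  have e1 : x - m = (1 - t v - t w) • (y - m) + ((t w - t v) * h) • e := by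
    rw [hx]
    generalize t v = α
    generalize t w = β
    rw [hv, hw]
    module
  have g0 : 0 < 1 - t v - t w := by linarith
  have e2 : ⟪x - m, e⟫ = (t w - t v) * h := by
    rw [e1, in_add he, real_inner_smul_left, c1]; ring
  have e3 : pr e (x - m) = (1 - t v - t w) • (y - m) := by
    rw [e1, pr_add he, pr_smul, pr, c1, zero_smul, sub_zero]
  have e4 : ‖pr e (x - m)‖ = (1 - t v - t w) * ‖y - m‖ := by
    rw [e3, norm_smul, Real.norm_eq_abs, abs_of_pos g0]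
  refine ⟨by nlinarith, ⟨by rw [e3]; exact smul_ne_zero g0.ne' n0, ?_⟩, ?_⟩
  · rw [e4, e3, n2, smul_smul,
      show ‖y - m‖ / ((1 - t v - t w) * ‖y - m‖) * (1 - t v - t w) = 1 by field_simp, one_smul,
      add_sub_cancel]
    exact hE
  · rw [e4, n2, e2, abs_mul, abs_of_pos hh, mul_div_assoc, div_self hh.ne', mul_one, mul_comm]
    refine mul_lt_mul_of_pos_left ?_ n1
    have : |t w - t v| < t v + t w := abs_lt.2 ⟨by linarith, by linarith⟩
    linarith

theorem bwd {V : Finset E3} {m e v w x : E3} {h : ℝ} (he : ‖e‖ = 1) (hh : 0 < h)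
    (hv : v = m - h • e) (hw : w = m + h • e) (hvw : v ≠ w) (h2 : h ^ 2 < 2)
    (hx : x - m ∈ W0 V m e √(2 - h ^ 2))
    (hl : ‖pr e (x - m)‖ < √(2 - h ^ 2) * (1 - |⟪x - m, e⟫| / h)) : x ∈ cell V {v, w} := by
  classical
  obtain ⟨n0, hE⟩ := hx
  have r0 : 0 < √(2 - h ^ 2) := Real.sqrt_pos.2 (by linarith)
  have r2 : √(2 - h ^ 2) ^ 2 = 2 - h ^ 2 := Real.sq_sqrt (by linarith)
  have dec : x - m = pr e (x - m) + ⟪x - m, e⟫ • e := by unfold pr; abel
  have pe := pr_perp he (x - m)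
  generalize √(2 - h ^ 2) = R at *
  generalize ⟪x - m, e⟫ = s at *
  generalize pr e (x - m) = p at *
  have n1 : 0 < ‖p‖ := norm_pos_iff.2 n0
  set y := m + (R / ‖p‖) • p with hy
  have y1 : y - m = (R / ‖p‖) • p := by rw [hy]; abel
  have c1 : ⟪y - m, e⟫ = 0 := by rw [y1, real_inner_smul_left, pe, mul_zero]
  have c2 : ‖y - m‖ ^ 2 = 2 - h ^ 2 := by
    rw [y1, norm_smul, Real.norm_eq_abs, abs_of_pos (div_pos r0 n1), div_mul_cancel₀ _ n1.ne', r2]
  obtain ⟨d1, d2⟩ := (sph (m := m) (y := y) he hh).2 ⟨c1, c2⟩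
  have g1 : ‖p‖ / R < 1 - |s| / h := by rwa [div_lt_iff₀ r0, mul_comm]
  have g2 : s / h ≤ |s| / h := div_le_div_of_nonneg_right (le_abs_self s) hh.le
  have g3 : -(s / h) ≤ |s| / h := by
    rw [← neg_div]; exact div_le_div_of_nonneg_right (neg_le_abs s) hh.le
  have g4 : 0 < ‖p‖ / R := div_pos n1 r0
  refine ⟨y, √2, fun u => if u = v then (1 - ‖p‖ / R - s / h) / 2 else (1 - ‖p‖ / R + s / h) / 2,
    hE, ?_, ?_, Or.inl ⟨rfl, ?_, (li he hh hv hw hvw c1).2 ?_⟩⟩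
  · intro u hu
    rcases Finset.mem_insert.1 hu with rfl | hu
    · exact ⟨hv ▸ d1, by simp only [if_true]; linarith⟩
    · rw [Finset.mem_singleton.1 hu]
      exact ⟨hw ▸ d2, by simp only [if_neg hvw.symm]; linarith⟩
  · rw [Finset.sum_pair hvw]
    simp only [if_true, if_neg hvw.symm]
    have k1 : p = (‖p‖ / R) • (y - m) := by
      rw [y1, smul_smul, show ‖p‖ / R * (R / ‖p‖) = 1 by field_simp, one_smul]
    have k2 : s = s / h * h := by field_simp
    have k3 : x = m + ((‖p‖ / R) • (y - m) + (s / h * h) • e) := by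
      rw [← k1, ← k2, ← dec]; abel
    generalize ‖p‖ / R = γ at *
    generalize s / h = σ at *
    rw [k3, hv, hw]
    module
  · rw [Finset.sum_pair hvw]
    simp only [if_true, if_neg hvw.symm]
    linarith
  · rw [y1]; exact smul_ne_zero (div_pos r0 n1).ne' n0

theorem good_empty (a b : ℝ) (f : ℝ → ℝ) (V : Finset E3) : Good a b f V ∅ :=
  ⟨MeasurableSet.empty, fun _ _ => ∅, fun _ _ => ⟨MeasurableSet.empty, empty_subset _⟩, by simp⟩

theorem vol_shift (A : Set E3) (c : E3) : volume ((fun x => x - c) ⁻¹' A) = volume A := by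
  simpa only [sub_eq_add_neg] using measure_preimage_add_right volume (-c) A

/-- the volumes. -/
theorem vols (hr : RevS) {V : Finset E3} {m e v w : E3} {h : ℝ} (he : ‖e‖ = 1) (hh : 0 < h)
    (hv : v = m - h • e) (hw : w = m + h • e) (hvw : v ≠ w) (h2 : h ^ 2 < 2) :
    MeasurableSet (cell V {v, w}) ∧ ∃ ω : ℝ, 0 ≤ ω ∧
      volume (cell V {v, w}) = ENNReal.ofReal (ω * (2 * h * (2 - h ^ 2) / 3)) ∧
      volume (cell V {v, w} ∩ ball v 1) ≤ ENNReal.ofReal (ω * (2 / 3 * (1 - h / √2))) ∧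
      volume (cell V {v, w} ∩ ball w 1) ≤ ENNReal.ofReal (ω * (2 / 3 * (1 - h / √2))) ∧
      ENNReal.ofReal (ω * (4 / 3)) ≤ volume (W0 V m e √(2 - h ^ 2) ∩ ball 0 1) := by
  have r0 : 0 < √(2 - h ^ 2) := Real.sqrt_pos.2 (by linarith)
  have r2 : √(2 - h ^ 2) ^ 2 = 2 - h ^ 2 := Real.sq_sqrt (by linarith)
  have s0 : (0 : ℝ) < √2 := Real.sqrt_pos.2 (by norm_num)
  have s2 : (√2 : ℝ) ^ 2 = 2 := Real.sq_sqrt (by norm_num)
  have fw := fun x => fwd (V := V) (x := x) he hh hv hw hvw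
  have bw := fun x => bwd (V := V) (x := x) he hh hv hw hvw h2
  obtain ⟨ω, w0, hω⟩ := hr e _ he (W0_meas V m e √(2 - h ^ 2)) (W0_add he) W0_smul
  have wm := W0_meas V m e √(2 - h ^ 2)
  have wa := W0_add (V := V) (m := m) (ρ := √(2 - h ^ 2)) he
  generalize W0 V m e √(2 - h ^ 2) = W at *
  generalize √(2 - h ^ 2) = R at *
  obtain ⟨c, hc⟩ : ∃ c, c = h / √2 := ⟨_, rfl⟩
  have c0 : 0 < c := hc ▸ div_pos hh s0
  have c2 : c ^ 2 = h ^ 2 / 2 := by rw [hc, div_pow, s2]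
  have c1 : c < 1 := by nlinarith
  obtain ⟨k, hk⟩ : ∃ k, k = R ^ 2 / h ^ 2 := ⟨_, rfl⟩
  have k0 : 0 ≤ k := hk ▸ by positivity
  have k1 : k * c ^ 2 = 1 - c ^ 2 := by rw [hk, c2, r2]; field_simp
  rw [← hc]
  have hcell : cell V {v, w} = (fun x => x - m) ⁻¹' (W ∩ {z | ‖z‖ ^ 2 - ⟪z, e⟫ ^ 2 <
      two (-h) 0 h (fun s => R ^ 2 + 2 * R ^ 2 / h * s + k * s ^ 2)
        (fun s => R ^ 2 + -(2 * R ^ 2 / h) * s + k * s ^ 2) ⟪z, e⟫}) := by
    have q1 : ∀ s, s ≤ 0 → R ^ 2 + 2 * R ^ 2 / h * s + k * s ^ 2 = (R * (1 - |s| / h)) ^ 2 :=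
      fun s hs => by rw [abs_of_nonpos hs, hk]; field_simp; ring
    have q2 : ∀ s, 0 < s → R ^ 2 + -(2 * R ^ 2 / h) * s + k * s ^ 2 = (R * (1 - |s| / h)) ^ 2 :=
      fun s hs => by rw [abs_of_pos hs, hk]; field_simp; ring
    ext x
    simp only [mem_preimage, mem_inter_iff, mem_ofPred_eq, ← pr_sq he]
    constructor
    · intro hx
      obtain ⟨-, a1, a2⟩ := fw x hx
      refine ⟨a1, ?_⟩
      have a3 : 0 < 1 - |⟪x - m, e⟫| / h :=
        (mul_pos_iff_of_pos_left r0).1 ((norm_nonneg _).trans_lt a2)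
      have a4 : |⟪x - m, e⟫| < h := by rwa [sub_pos, div_lt_one hh] at a3
      have a5 := pow_lt_pow_left₀ a2 (norm_nonneg _) two_ne_zero
      rcases le_or_gt ⟪x - m, e⟫ 0 with a6 | a6
      · rwa [two_left _ _ (abs_lt.1 a4).1 a6, q1 _ a6]
      · rwa [two_right _ _ a6 (abs_lt.1 a4).2.le, q2 _ a6]
    · rintro ⟨a1, a2⟩
      refine bw x a1 ?_
      have fin : |⟪x - m, e⟫| ≤ h → ‖pr e (x - m)‖ ^ 2 < (R * (1 - |⟪x - m, e⟫| / h)) ^ 2 →
          ‖pr e (x - m)‖ < R * (1 - |⟪x - m, e⟫| / h) := fun b1 b2 =>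
        lt_of_pow_lt_pow_left₀ 2 (mul_nonneg r0.le (sub_nonneg.2 ((div_le_one hh).2 b1))) b2
      rcases two_cases (-h) 0 h (fun s => R ^ 2 + 2 * R ^ 2 / h * s + k * s ^ 2)
        (fun s => R ^ 2 + -(2 * R ^ 2 / h) * s + k * s ^ 2) ⟪x - m, e⟫ with b | b | b
      · rw [b.2.2, q1 _ b.2.1] at a2
        exact fin (abs_le.2 ⟨b.1.le, b.2.1.trans hh.le⟩) a2
      · rw [b.2.2, q2 _ b.1] at a2
        exact fin (abs_le.2 ⟨by linarith [b.1], b.2.1⟩) a2
      · rw [b] at a2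
        exact absurd a2 (not_lt.2 (sq_nonneg _))
  have cap : ∀ x ∈ cell V {v, w}, ∀ σ : ℝ, |σ| = h → ‖x - m + σ • e‖ < 1 →
      0 < σ * ⟪x - m + σ • e, e⟫ ∧ |⟪x - m + σ • e, e⟫| < 1 ∧
      ‖pr e (x - m + σ • e)‖ ^ 2 < 0 + 0 * ⟪x - m + σ • e, e⟫ + k * ⟪x - m + σ • e, e⟫ ^ 2 ∧
      ‖pr e (x - m + σ • e)‖ ^ 2 < 1 + 0 * ⟪x - m + σ • e, e⟫ + -1 * ⟪x - m + σ • e, e⟫ ^ 2 := by
    intro x hx σ hσ hb
    obtain ⟨-, a1, a2⟩ := fw x hx
    have a3 : 0 < 1 - |⟪x - m, e⟫| / h :=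
      (mul_pos_iff_of_pos_left r0).1 ((norm_nonneg _).trans_lt a2)
    have a4 : |⟪x - m, e⟫| < h := by rwa [sub_pos, div_lt_one hh] at a3
    have b1 := pr_sq he (x - m + σ • e)
    have b2 : ‖x - m + σ • e‖ ^ 2 < 1 := by nlinarith [norm_nonneg (x - m + σ • e)]
    have b3 := sq_nonneg ‖pr e (x - m + σ • e)‖
    refine ⟨?_, (sq_lt_one_iff_abs_lt_one _).1 (by linarith), ?_, by linarith⟩
    · rw [in_add he]
      have t1 : |σ * ⟪x - m, e⟫| < h * h := by
        rw [abs_mul, hσ]; exact mul_lt_mul_of_pos_left a4 hh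
      have t2 : σ * σ = h * h := by rw [← hσ, abs_mul_abs_self]
      linarith [(abs_lt.1 t1).1]
    · rw [pr_add he, in_add he]
      have t1 : h - |⟪x - m, e⟫| ≤ |⟪x - m, e⟫ + σ| := by
        have := abs_sub_abs_le_abs_add σ ⟪x - m, e⟫
        rwa [hσ, add_comm] at this
      have t2 : R * (1 - |⟪x - m, e⟫| / h) ≤ R / h * |⟪x - m, e⟫ + σ| := by
        rw [show R * (1 - |⟪x - m, e⟫| / h) = R / h * (h - |⟪x - m, e⟫|) by field_simp]
        exact mul_le_mul_of_nonneg_left t1 (div_pos r0 hh).le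
      have t3 := pow_lt_pow_left₀ (a2.trans_le t2) (norm_nonneg _) two_ne_zero
      rw [mul_pow, sq_abs, div_pow, ← hk] at t3
      linarith
  refine ⟨?_, ω, w0, ?_, ?_, ?_, ?_⟩
  · rw [hcell]
    refine (measurable_id.sub measurable_const) (wm.inter (measurableSet_lt (by fun_prop) ?_))
    exact (two_meas _ _ _ (by fun_prop) (by fun_prop)).comp (by fun_prop)
  · rw [hcell, vol_shift, hω _ (two_meas _ _ _ (by fun_prop) (by fun_prop)),
      two_int (by fun_prop) (by fun_prop) (by linarith) hh.le, int_quad, int_quad,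
      ← ENNReal.ofReal_mul w0]
    · congr 2
      rw [hk, ← r2]; field_simp; ring
    · intro s _ _
      rw [show R ^ 2 + 2 * R ^ 2 / h * s + k * s ^ 2 = (R * (1 + s / h)) ^ 2 by
        rw [hk]; field_simp; ring]
      positivity
    · intro s _ _
      rw [show R ^ 2 + -(2 * R ^ 2 / h) * s + k * s ^ 2 = (R * (1 - s / h)) ^ 2 by
        rw [hk]; field_simp; ring]
      positivity
  · have sub : cell V {v, w} ∩ ball v 1 ⊆ (fun x => x - v) ⁻¹' (W ∩ {z | ‖z‖ ^ 2 - ⟪z, e⟫ ^ 2 <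
        two 0 c 1 (fun s => 0 + 0 * s + k * s ^ 2) (fun s => 1 + 0 * s + -1 * s ^ 2) ⟪z, e⟫}) := by
      rintro x ⟨hx, hb⟩
      have e1 : x - v = x - m + h • e := by rw [hv]; abel
      rw [mem_ball, dist_eq_norm, e1] at hb
      obtain ⟨a1, a2, a3, a4⟩ := cap x hx h (abs_of_pos hh) hb
      simp only [mem_preimage, mem_inter_iff, mem_ofPred_eq, ← pr_sq he, e1]
      refine ⟨wa _ (fw x hx).2.1 h, ?_⟩
      rcases le_or_gt ⟪x - m + h • e, e⟫ c with b | b
      · rwa [two_left _ _ ((mul_pos_iff_of_pos_left hh).1 a1) b]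
      · rwa [two_right _ _ b (abs_lt.1 a2).2.le]
    refine (measure_mono sub).trans (le_of_eq ?_)
    rw [vol_shift, hω _ (two_meas _ _ _ (by fun_prop) (by fun_prop)),
      two_int (by fun_prop) (by fun_prop) c0.le c1.le (fun s _ _ => by nlinarith [mul_nonneg k0 (sq_nonneg s)])
        (fun s _ _ => by nlinarith), int_quad, int_quad, ← ENNReal.ofReal_mul w0]
    congr 2
    linear_combination c / 3 * k1
  · have sub : cell V {v, w} ∩ ball w 1 ⊆ (fun x => x - w) ⁻¹' (W ∩ {z | ‖z‖ ^ 2 - ⟪z, e⟫ ^ 2 <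
        two (-1) (-c) 0 (fun s => 1 + 0 * s + -1 * s ^ 2) (fun s => 0 + 0 * s + k * s ^ 2)
          ⟪z, e⟫}) := by
      rintro x ⟨hx, hb⟩
      have e1 : x - w = x - m + (-h) • e := by rw [hw, neg_smul]; abel
      rw [mem_ball, dist_eq_norm, e1] at hb
      obtain ⟨a1, a2, a3, a4⟩ := cap x hx (-h) (by rw [abs_neg, abs_of_pos hh]) hb
      simp only [mem_preimage, mem_inter_iff, mem_ofPred_eq, ← pr_sq he, e1]
      refine ⟨wa _ (fw x hx).2.1 (-h), ?_⟩
      rcases le_or_gt ⟪x - m + (-h) • e, e⟫ (-c) with b | b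
      · rwa [two_left _ _ (abs_lt.1 a2).1 b]
      · rwa [two_right _ _ b (by nlinarith)]
    refine (measure_mono sub).trans (le_of_eq ?_)
    rw [vol_shift, hω _ (two_meas _ _ _ (by fun_prop) (by fun_prop)),
      two_int (by fun_prop) (by fun_prop) (by linarith) (by linarith) (fun s _ _ => by nlinarith)
        (fun s _ _ => by nlinarith [mul_nonneg k0 (sq_nonneg s)]), int_quad, int_quad,
      ← ENNReal.ofReal_mul w0]
    congr 2
    linear_combination c / 3 * k1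
  · have sub : W ∩ {z | ‖z‖ ^ 2 - ⟪z, e⟫ ^ 2 < two (-1) 0 1 (fun s => 1 + 0 * s + -1 * s ^ 2)
        (fun s => 1 + 0 * s + -1 * s ^ 2) ⟪z, e⟫} ⊆ W ∩ ball 0 1 := by
      rintro z ⟨a1, a2⟩
      refine ⟨a1, mem_ball_zero_iff.2 ((sq_lt_one_iff₀ (norm_nonneg z)).1 ?_)⟩
      have a3 := pr_sq he z
      have a4 := sq_nonneg ‖pr e z‖
      rw [mem_ofPred_eq] at a2
      rcases two_cases (-1) 0 1 (fun s => 1 + 0 * s + -1 * s ^ 2)
        (fun s => 1 + 0 * s + -1 * s ^ 2) ⟪z, e⟫ with b | b | b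
      · rw [b.2.2] at a2; linarith
      · rw [b.2.2] at a2; linarith
      · rw [b] at a2; linarith
    refine le_trans (le_of_eq ?_) (measure_mono sub)
    rw [hω _ (two_meas _ _ _ (by fun_prop) (by fun_prop)),
      two_int (by fun_prop) (by fun_prop) (by norm_num) (by norm_num) (fun s _ _ => by nlinarith)
        (fun s _ _ => by nlinarith), int_quad, int_quad, ← ENNReal.ofReal_mul w0]
    congr 2
    norm_num

theorem W0_wdg {V : Finset E3} {m e v w : E3} {h : ℝ} (he : ‖e‖ = 1) (hh : 0 < h)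
    (hv : v = m - h • e) (hw : w = m + h • e) (hvw : v ≠ w) (h2 : h ^ 2 < 2) :
    W0 V m e √(2 - h ^ 2) ⊆ wdg (cell V {v, w}) m := by
  intro z hz
  have r0 : 0 < √(2 - h ^ 2) := Real.sqrt_pos.2 (by linarith)
  have hp := pr_cont e
  have ev : ∀ᶠ t in 𝓝 (0 : ℝ), ‖pr e (t • z)‖ < √(2 - h ^ 2) * (1 - |⟪t • z, e⟫| / h) := by
    refine ContinuousAt.eventually_lt (Continuous.continuousAt (by fun_prop))
      (Continuous.continuousAt (by fun_prop)) ?_
    simpa [pr] using r0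
  filter_upwards [ev.filter_mono nhdsWithin_le_nhds, self_mem_nhdsWithin] with t h1 ht
  refine bwd he hh hv hw hvw h2 ?_ ?_
  · rw [add_sub_cancel_left]; exact W0_smul z hz t ht
  · rwa [add_sub_cancel_left]

end Good2

open Good2 in
theorem good2 (hr : RevS) (hd : DisjS) : Good2S := by
  classical
  intro a b f V v w ha hb hf g2 hV hv hw hvw
  obtain ⟨h, hh⟩ : ∃ h, h = dist v w / 2 := ⟨_, rfl⟩
  have h1 : 1 ≤ h := by have := hV v hv w hw hvw; linarith
  have h0 : 0 < h := by linarith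
  have he : ‖(2 * h)⁻¹ • (w - v)‖ = 1 := by
    rw [norm_smul, Real.norm_eq_abs, abs_of_pos (by positivity), ← dist_eq_norm, dist_comm,
      show dist v w = 2 * h by linarith, inv_mul_cancel₀ (by positivity)]
  have hs : h • (2 * h)⁻¹ • (w - v) = (2⁻¹ : ℝ) • (w - v) := by
    rw [smul_smul]; congr 1; field_simp
  have ev : v = midpoint ℝ v w - h • (2 * h)⁻¹ • (w - v) := by
    rw [hs, midpoint_eq_smul_add, invOf_eq_inv]; module
  have ew : w = midpoint ℝ v w + h • (2 * h)⁻¹ • (w - v) := by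
    rw [hs, midpoint_eq_smul_add, invOf_eq_inv]; module
  generalize (2 * h)⁻¹ • (w - v) = e at he ev ew
  by_cases h2 : h ^ 2 < 2
  swap
  · rw [show cell V {v, w} = ∅ from
      eq_empty_of_forall_notMem fun x hx => h2 (fwd he h0 ev ew hvw hx).1]
    exact good_empty a b f V
  obtain ⟨hm, ω, w0, v1, v2, v3, v4⟩ := vols (V := V) hr he h0 ev ew hvw h2
  have wd := W0_wdg (V := V) he h0 ev ew hvw h2
  have wm := W0_meas V (midpoint ℝ v w) e √(2 - h ^ 2)
  generalize W0 V (midpoint ℝ v w) e √(2 - h ^ 2) = W at v4 wd wm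
  have hl : h < √2 := Real.lt_sqrt_of_sq_lt h2
  have s0 : (0 : ℝ) < √2 := Real.sqrt_pos.2 (by norm_num)
  have c1 : 0 ≤ 1 - h / √2 := sub_nonneg.2 ((div_le_one s0).2 hl.le)
  have hS : ({v, w} : Finset E3) ⊆ V := Finset.insert_subset hv (Finset.singleton_subset_iff.2 hw)
  refine ⟨hm, fun u u' => if (u = v ∧ u' = w) ∨ (u = w ∧ u' = v) then W else ∅, fun u u' => ?_, ?_⟩
  · dsimp only
    split_ifs with k
    · refine ⟨wm, ?_⟩
      rcases k with ⟨rfl, rfl⟩ | ⟨rfl, rfl⟩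
      · exact wd
      · rwa [midpoint_comm]
    · exact ⟨MeasurableSet.empty, empty_subset _⟩
  have l1 : ∑ u ∈ V, volume (cell V {v, w} ∩ ball u 1) ≤
      ENNReal.ofReal (ω * (2 / 3 * (1 - h / √2))) + ENNReal.ofReal (ω * (2 / 3 * (1 - h / √2))) := by
    rw [← Finset.sum_subset hS fun u hu hn => by rw [hd.far V _ hV hS u hu hn, measure_empty],
      Finset.sum_pair hvw]
    exact add_le_add v2 v3
  have l2 : ENNReal.ofReal (6 * b / π * f h) * ENNReal.ofReal (ω * (4 / 3)) +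
      ENNReal.ofReal (6 * b / π * f h) * ENNReal.ofReal (ω * (4 / 3)) ≤
      ∑ u ∈ V, ∑ u' ∈ V.erase u, ENNReal.ofReal (6 * b / π * f (dist u u' / 2)) *
        volume ((if (u = v ∧ u' = w) ∨ (u = w ∧ u' = v) then W else ∅) ∩ ball 0 1) := by
    refine le_trans ?_ (Finset.sum_le_sum_of_subset hS)
    rw [Finset.sum_pair hvw]
    refine add_le_add (le_trans ?_ (Finset.single_le_sum (fun _ _ => bot_le)
      (Finset.mem_erase.2 ⟨hvw.symm, hw⟩))) (le_trans ?_ (Finset.single_le_sum (fun _ _ => bot_le)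
      (Finset.mem_erase.2 ⟨hvw, hv⟩)))
    · rw [if_pos (Or.inl ⟨rfl, rfl⟩), ← hh]
      exact mul_le_mul_right v4 _
    · rw [if_pos (Or.inr ⟨rfl, rfl⟩), dist_comm, ← hh]
      exact mul_le_mul_right v4 _
  refine (mul_le_mul_right l1 _).trans (le_trans ?_ (add_le_add v1.ge l2))
  have p1 : 0 ≤ ω * (2 / 3 * (1 - h / √2)) := by positivity
  have p2 : 0 ≤ 6 * b / π * f h := mul_nonneg (by positivity) (hf h)
  have p3 : 0 ≤ 6 * b / π * f h * (ω * (4 / 3)) := by positivity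
  have p4 : 0 ≤ ω * (2 * h * (2 - h ^ 2) / 3) :=
    mul_nonneg w0 (by have : 0 ≤ 2 - h ^ 2 := by linarith
                      positivity)
  rw [← ENNReal.ofReal_add p1 p1, ← ENNReal.ofReal_mul (by positivity), ← ENNReal.ofReal_mul p2,
    ← ENNReal.ofReal_add p3 p3, ← ENNReal.ofReal_add p4 (add_nonneg p3 p3)]
  refine ENNReal.ofReal_le_ofReal ?_
  have := mul_nonneg w0 (g2 h h1 hl)
  have e : ω * (2 * h * (2 - h ^ 2) / 3) + (6 * b / π * f h * (ω * (4 / 3)) +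
      6 * b / π * f h * (ω * (4 / 3))) - 6 * a / π * (ω * (2 / 3 * (1 - h / √2)) +
      ω * (2 / 3 * (1 - h / √2))) =
      2 * (ω * (h * (2 - h ^ 2) / 3 - 4 * a / π * (1 - h / √2) + 8 * b / π * f h)) := by ring
  linarith

end Pool.Agent.Lib.MP_f3b2fd_co.KA
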