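import Pool.Agent.Lib.MP_f3b2fd_co.KEP.A.St

/-! The cell inequality for cells with three vertices. -/

namespace Pool.Agent.Lib.MP_f3b2fd_co.KA

open MeasureTheory Set Real Metric Filter Topology
open scoped ENNReal RealInnerProductSpace

namespace Good3

theorem perp {a b c z : E3} (h : LinearIndependent ℝ ![a, b, c]) (ha : ⟪a, z⟫ = 0)
    (hb : ⟪b, z⟫ = 0) (hc : ⟪c, z⟫ = 0) : z = 0 := by
  have h1 := h.span_eq_top_of_card_eq_finrank' (by simp)
  have h2 : z ∈ Submodule.span ℝ (Set.range ![a, b, c]) := h1 ▸ Submodule.mem_top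
  obtain ⟨t, e⟩ := (Submodule.mem_span_range_iff_exists_fun ℝ).1 h2
  have : ⟪z, z⟫ = 0 := by
    nth_rewrite 1 [← e]
    simp [Fin.sum_univ_three, inner_add_left, inner_smul_left, ha, hb, hc]
  exact inner_self_eq_zero.1 this

theorem half {y y' p : E3} (h : dist y p = dist y' p) : ⟪p - y, y' - y⟫ = ‖y' - y‖ ^ 2 / 2 := by
  have e : p - y' = (p - y) - (y' - y) := by abel
  have h1 : ‖p - y'‖ ^ 2 = ‖p - y‖ ^ 2 := by
    rw [← dist_eq_norm, ← dist_eq_norm, dist_comm p y', dist_comm p y, h]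
  rw [e, norm_sub_sq_real] at h1
  linarith

/-- the centres. -/
def YY (V : Finset E3) (p q r : E3) : Set E3 :=
  {y | Em V y √2 ∧ dist y p = √2 ∧ dist y q = √2 ∧ dist y r = √2 ∧
    LinearIndependent ℝ ![p - y, q - y, r - y]}

theorem fin (V : Finset E3) (p q r : E3) : (YY V p q r).Finite := by
  rcases (YY V p q r).eq_empty_or_nonempty with h | ⟨y, hy⟩
  · rw [h]; exact finite_empty
  have hs : (YY V p q r \ {y}).Subsingleton := by
    rintro u ⟨hu, hu'⟩ v ⟨hv, hv'⟩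
    have nu : 0 < ‖u - y‖ := norm_pos_iff.2 (sub_ne_zero.2 hu')
    have nv : 0 < ‖v - y‖ := norm_pos_iff.2 (sub_ne_zero.2 hv')
    have k : ∀ w : E3, dist y w = √2 → dist u w = √2 → dist v w = √2 →
        ⟪w - y, ‖v - y‖ ^ 2 • (u - y) - ‖u - y‖ ^ 2 • (v - y)⟫ = 0 := by
      intro w a b c
      rw [inner_sub_right, inner_smul_right, inner_smul_right, half (a.trans b.symm),
        half (a.trans c.symm)]
      ring
    have z := sub_eq_zero.1 (perp hy.2.2.2.2 (k p hy.2.1 hu.2.1 hv.2.1)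
      (k q hy.2.2.1 hu.2.2.1 hv.2.2.1) (k r hy.2.2.2.1 hu.2.2.2.1 hv.2.2.2.1))
    have z1 := congrArg norm z
    rw [norm_smul, norm_smul, norm_pow, norm_pow, norm_norm, norm_norm] at z1
    have z2 : ‖v - y‖ = ‖u - y‖ := by
      have : (‖v - y‖ * ‖u - y‖) * ‖v - y‖ = (‖v - y‖ * ‖u - y‖) * ‖u - y‖ := by linarith
      exact mul_left_cancel₀ (mul_pos nv nu).ne' this
    rw [z2] at z
    exact sub_left_injective (smul_right_injective E3 (pow_pos nu 2).ne' z)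
  refine (hs.finite.insert y).subset fun u hu => ?_
  by_cases e : u = y
  · exact Or.inl e
  · exact Or.inr ⟨hu, e⟩

theorem ind {p q r : E3} (h1 : p ≠ q) (h2 : p ≠ r) (h3 : q ≠ r) (y : E3) :
    (LinearIndependent ℝ fun v : ({p, q, r} : Finset E3) => (v : E3) - y) ↔
      LinearIndependent ℝ ![p - y, q - y, r - y] := by
  let f : Fin 3 → ({p, q, r} : Finset E3) := ![⟨p, by simp⟩, ⟨q, by simp⟩, ⟨r, by simp⟩]
  have hf : Function.Bijective f := by
    constructor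
    · intro i j e
      have e' := congrArg Subtype.val e
      fin_cases i <;> fin_cases j <;> simp_all [f]
    · rintro ⟨v, hv⟩
      simp only [Finset.mem_insert, Finset.mem_singleton] at hv
      rcases hv with rfl | rfl | rfl
      · exact ⟨0, rfl⟩
      · exact ⟨1, rfl⟩
      · exact ⟨2, rfl⟩
  rw [← linearIndependent_equiv (Equiv.ofBijective f hf)]
  have : ((fun v : ({p, q, r} : Finset E3) => (v : E3) - y) ∘ Equiv.ofBijective f hf) =
      ![p - y, q - y, r - y] := by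
    funext i
    fin_cases i <;> rfl
  rw [this]

theorem sum3 {M : Type} [AddCommMonoid M] {p q r : E3} (h1 : p ≠ q) (h2 : p ≠ r) (h3 : q ≠ r)
    (F : E3 → M) : ∑ v ∈ ({p, q, r} : Finset E3), F v = F p + F q + F r := by
  rw [Finset.sum_insert (by simp [h1, h2]), Finset.sum_pair h3, add_assoc]

theorem wts {p q r : E3} (h1 : p ≠ q) (h2 : p ≠ r) (h3 : q ≠ r) (y x : E3) :
    x ∈ tet y p q r ↔ ∃ t : E3 → ℝ, (∀ v ∈ ({p, q, r} : Finset E3), 0 < t v) ∧
      x = y + ∑ v ∈ ({p, q, r} : Finset E3), t v • (v - y) ∧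
        ∑ v ∈ ({p, q, r} : Finset E3), t v < 1 := by
  constructor
  · rintro ⟨α, β, γ, a, b, c, d, e⟩
    refine ⟨fun v => if v = p then α else if v = q then β else γ, fun v _ => ?_, ?_, ?_⟩
    · dsimp only
      split_ifs <;> assumption
    · rw [sum3 h1 h2 h3, e]
      simp [h1.symm, h2.symm, h3.symm, add_assoc]
    · rw [sum3 h1 h2 h3]
      simpa [h1.symm, h2.symm, h3.symm] using d
  · rintro ⟨t, a, b, c⟩
    rw [sum3 h1 h2 h3] at b c
    exact ⟨t p, t q, t r, a p (by simp), a q (by simp), a r (by simp), c,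
      by rw [b]; simp [add_assoc]⟩

theorem all3 {p q r y : E3} {c : ℝ} (a : dist y p = c) (b : dist y q = c) (d : dist y r = c) :
    ∀ v ∈ ({p, q, r} : Finset E3), dist y v = c := by
  intro v hv
  simp only [Finset.mem_insert, Finset.mem_singleton] at hv
  rcases hv with rfl | rfl | rfl <;> assumption

theorem cell_eq (V : Finset E3) {p q r : E3} (h1 : p ≠ q) (h2 : p ≠ r) (h3 : q ≠ r) :
    cell V {p, q, r} = ⋃ y ∈ (fin V p q r).toFinset, tet y p q r := by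
  ext x
  simp only [mem_iUnion, Finite.mem_toFinset, exists_prop]
  constructor
  · rintro ⟨y, ρ, t, a, b, c, ⟨rfl, d, e⟩ | ⟨_, _, e⟩⟩
    · exact ⟨y, ⟨a, (b p (by simp)).1, (b q (by simp)).1, (b r (by simp)).1,
        (ind h1 h2 h3 y).1 e⟩, (wts h1 h2 h3 y x).2 ⟨t, fun v hv => (b v hv).2, c, d⟩⟩
    · have := Finset.card_le_three (a := p) (b := q) (c := r)
      omega
  · rintro ⟨y, ⟨a, b, c, d, e⟩, hx⟩
    obtain ⟨t, f, g, k⟩ := (wts h1 h2 h3 y x).1 hx
    exact ⟨y, √2, t, a, fun v hv => ⟨all3 b c d v hv, f v hv⟩, g,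
      Or.inl ⟨rfl, k, (ind h1 h2 h3 y).2 e⟩⟩

theorem disj (hd : DisjS) {V : Finset E3} {p q r : E3} (h1 : p ≠ q) (h2 : p ≠ r) (h3 : q ≠ r)
    (hS : {p, q, r} ⊆ V) {y y' : E3} (hy : y ∈ YY V p q r) (hy' : y' ∈ YY V p q r)
    (hn : y ≠ y') : Disjoint (tet y p q r) (tet y' p q r) := by
  refine Set.disjoint_left.2 fun x hx hx' => hn ?_
  obtain ⟨t, f, g, k⟩ := (wts h1 h2 h3 y x).1 hx
  obtain ⟨t', f', g', k'⟩ := (wts h1 h2 h3 y' x).1 hx'
  have a := (hd.key V _ x y y' √2 √2 t hS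
    (fun v hv => ⟨all3 hy.2.1 hy.2.2.1 hy.2.2.2.1 v hv, f v hv⟩) g k.le (fun _ => rfl) hy'.1
    (sqrt_nonneg _) le_rfl).1
  have b := (hd.key V _ x y' y √2 √2 t' hS
    (fun v hv => ⟨all3 hy'.2.1 hy'.2.2.1 hy'.2.2.2.1 v hv, f' v hv⟩) g' k'.le (fun _ => rfl) hy.1
    (sqrt_nonneg _) le_rfl).1
  rw [dist_comm y' y] at b
  by_contra hn
  have d : 0 < dist y y' ^ 2 := pow_pos (dist_pos.2 hn) 2
  nlinarith [mul_pos (sub_pos.2 k) d, mul_pos (sub_pos.2 k') d]

theorem vtx (ht : TetS) {p y q r : E3} {X : Set E3} (hX : X = tet p y q r)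
    (h : LinearIndependent ℝ ![y - p, q - p, r - p]) :
    0 ≤ (onP dih p y q r + onP dih p q y r + onP dih p r y q - π) / 3 ∧
    volume (X ∩ ball p 1) ≤
      ENNReal.ofReal ((onP dih p y q r + onP dih p q y r + onP dih p r y q - π) / 3) ∧
    ENNReal.ofReal (2 / 3 * onP dih p q y r) ≤
      volume (interior (wdg X (midpoint ℝ p q)) ∩ ball 0 1) ∧
    ENNReal.ofReal (2 / 3 * onP dih p r y q) ≤
      volume (interior (wdg X (midpoint ℝ p r)) ∩ ball 0 1) := by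
  subst hX
  refine ⟨by linarith [(ht.vert p y q r h).1], (ht.vert p y q r h).2, ?_, ?_⟩
  · rw [(ht.swap p y q r).2.1]
    exact ht.edge p q y r (ht.ind p y q r h).2.1
  · rw [(ht.swap p y q r).2.2, (ht.swap p y r q).2.1]
    exact ht.edge p r y q (ht.ind p y r q (ht.ind p y q r h).2.2).2.1

theorem sq_bd {y p q : E3} (a : dist y p = √2) (b : dist y q = √2) (c : 2 ≤ dist p q) :
    4 ≤ dist p q ^ 2 ∧ dist p q ^ 2 ≤ 8 := by
  have h := dist_triangle_left p q y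
  rw [a, b] at h
  have s : √2 * √2 = 2 := mul_self_sqrt (by norm_num)
  constructor <;> nlinarith [sqrt_nonneg 2]

theorem one (ht : TetS) (hv : VolS) (hd : DisjS) {a b : ℝ} {f : ℝ → ℝ} {V : Finset E3}
    {p q r : E3} (ha : 0 ≤ a) (hb : 0 ≤ b) (h0 : ∀ h, 0 ≤ f h) (g3 : G3 a b f) (hV : Pack V)
    (h1 : p ≠ q) (h2 : p ≠ r) (h3 : q ≠ r) (hS : {p, q, r} ⊆ V) {y : E3}
    (hy : y ∈ YY V p q r) : Good a b f V (tet y p q r) := by
  have hsub : tet y p q r ⊆ cell V {p, q, r} := by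
    rw [cell_eq V h1 h2 h3]
    exact subset_iUnion₂ (s := fun y (_ : y ∈ (fin V p q r).toFinset) => tet y p q r) y
      ((fin V p q r).mem_toFinset.2 hy)
  obtain ⟨-, dp, dq, dr, li⟩ := hy
  obtain ⟨v1, v2, v3⟩ := hv.vol y p q r li
  have lq := (ht.ind y p q r li).2.1
  have lr := (ht.ind y p r q (ht.ind y p q r li).2.2).2.1
  obtain ⟨p0, p1, p2, p3⟩ := vtx ht (ht.swap y p q r).1 (ht.ind y p q r li).1
  obtain ⟨q0, q1, q2, q3⟩ := vtx ht ((ht.swap y p q r).2.1.trans (ht.swap y q p r).1)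
    (ht.ind y q p r lq).1
  obtain ⟨r0, r1, r2, r3⟩ := vtx ht ((ht.swap y p q r).2.2.trans
    ((ht.swap y p r q).2.1.trans (ht.swap y r p q).1)) (ht.ind y r p q lr).1
  have mp : p ∈ V := hS (by simp)
  have mq : q ∈ V := hS (by simp)
  have mr : r ∈ V := hS (by simp)
  obtain ⟨a4, b4⟩ := sq_bd dq dr (hV q mq r mr h3)
  obtain ⟨a5, b5⟩ := sq_bd dp dr (hV p mp r mr h2)
  obtain ⟨a6, b6⟩ := sq_bd dp dq (hV p mp q mq h1)
  have s2 : √2 ^ 2 = 2 := sq_sqrt (by norm_num)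
  simp only [onP, dist_comm p y, dist_comm q y, dist_comm r y, dist_comm q p, dist_comm r p,
    dist_comm r q, dp, dq, dr, s2] at v1 v3 p0 p1 p2 p3 q0 q1 q2 q3 r0 r1 r2 r3
  have g := g3 _ _ _ a4 a5 a6 b4 b5 b6 v1
  rw [sqrt_sq dist_nonneg, sqrt_sq dist_nonneg, sqrt_sq dist_nonneg] at g
  rw [← (ht.sym 2 2 2 _ _ _).2.1] at p0 p1 q0 q1 r0 r1
  rw [← (ht.sym (dist p q ^ 2) 2 (dist p r ^ 2) 2 (dist q r ^ 2) 2).2.1] at q0 q1 q2
  rw [← (ht.sym (dist p r ^ 2) 2 (dist p q ^ 2) 2 (dist q r ^ 2) 2).2.1] at r0 r1 r2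
  rw [← (ht.sym (dist q r ^ 2) 2 (dist p q ^ 2) 2 (dist p r ^ 2) 2).2.1] at r0 r1 r3
  have n4 := (ht.sym (dist q r ^ 2) 2 (dist p q ^ 2) 2 (dist p r ^ 2) 2).2.2
  have n5 := (ht.sym (dist p r ^ 2) 2 (dist p q ^ 2) 2 (dist q r ^ 2) 2).2.2
  have n6 := (ht.sym (dist p q ^ 2) 2 (dist p r ^ 2) 2 (dist q r ^ 2) 2).2.2
  generalize dih (dist q r ^ 2) 2 (dist p q ^ 2) 2 (dist p r ^ 2) 2 = E4 at *
  generalize dih (dist p r ^ 2) 2 (dist p q ^ 2) 2 (dist q r ^ 2) 2 = E5 at *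
  generalize dih (dist p q ^ 2) 2 (dist p r ^ 2) 2 (dist q r ^ 2) 2 = E6 at *
  generalize dih 2 2 2 (dist q r ^ 2) (dist p r ^ 2) (dist p q ^ 2) = A4 at *
  generalize dih 2 2 2 (dist p r ^ 2) (dist q r ^ 2) (dist p q ^ 2) = A5 at *
  generalize dih 2 2 2 (dist p q ^ 2) (dist q r ^ 2) (dist p r ^ 2) = A6 at *
  refine ⟨v2.measurableSet, fun v w => interior (wdg (tet y p q r) (midpoint ℝ v w)),
    fun v w => ⟨isOpen_interior.measurableSet, interior_subset⟩, ?_⟩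
  have L : ∑ v ∈ V, volume (tet y p q r ∩ ball v 1) =
      ∑ v ∈ ({p, q, r} : Finset E3), volume (tet y p q r ∩ ball v 1) := by
    refine (Finset.sum_subset hS fun v a b => ?_).symm
    refine measure_mono_null (inter_subset_inter_left _ hsub) ?_
    rw [hd.far V _ hV hS v a b, measure_empty]
  set T : E3 → E3 → ℝ≥0∞ := fun v w => ENNReal.ofReal (6 * b / π * f (dist v w / 2)) *
    volume (interior (wdg (tet y p q r) (midpoint ℝ v w)) ∩ ball 0 1) with hT
  have two : ∀ u v w : E3, v ∈ V → w ∈ V → u ≠ v → u ≠ w → v ≠ w →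
      T u v + T u w ≤ ∑ z ∈ V.erase u, T u z := by
    intro u v w a b c d e
    rw [← Finset.sum_pair e]
    refine Finset.sum_le_sum_of_subset fun z hz => ?_
    simp only [Finset.mem_insert, Finset.mem_singleton] at hz
    rcases hz with rfl | rfl
    · exact Finset.mem_erase.2 ⟨c.symm, a⟩
    · exact Finset.mem_erase.2 ⟨d.symm, b⟩
  have R : (T p q + T p r) + (T q p + T q r) + (T r p + T r q) ≤
      ∑ v ∈ V, ∑ w ∈ V.erase v, T v w := by
    refine le_trans ?_ (Finset.sum_le_sum_of_subset hS)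
    rw [sum3 h1 h2 h3]
    exact add_le_add (add_le_add (two p q r mq mr h1 h2 h3) (two q p r mp mr h1.symm h3 h2))
      (two r p q mp mq h2.symm h3.symm h1)
  have c0 : ∀ x, 0 ≤ 6 * b / π * f x := fun x => mul_nonneg (by positivity) (h0 x)
  have low : ∀ (v w : E3) (E : ℝ), ENNReal.ofReal (2 / 3 * E) ≤
      volume (interior (wdg (tet y p q r) (midpoint ℝ v w)) ∩ ball 0 1) →
      ENNReal.ofReal (6 * b / π * f (dist v w / 2) * (2 / 3 * E)) ≤ T v w := by
    intro v w E h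
    rw [ENNReal.ofReal_mul (c0 _)]
    exact mul_le_mul_right h _
  have t1 := low p q _ p2
  have t2 := low p r _ p3
  have t3 := low q p _ q2
  have t4 := low q r _ q3
  have t5 := low r p _ r2
  have t6 := low r q _ r3
  rw [dist_comm q p] at t3
  rw [dist_comm r p] at t5
  rw [dist_comm r q] at t6
  have m4 : 0 ≤ 6 * b / π * f (dist q r / 2) * (2 / 3 * E4) := mul_nonneg (c0 _) (by positivity)
  have m5 : 0 ≤ 6 * b / π * f (dist p r / 2) * (2 / 3 * E5) := mul_nonneg (c0 _) (by positivity)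
  have m6 : 0 ≤ 6 * b / π * f (dist p q / 2) * (2 / 3 * E6) := mul_nonneg (c0 _) (by positivity)
  rw [L, sum3 h1 h2 h3, v3]
  refine le_trans (mul_le_mul_right (add_le_add (add_le_add p1 q1) r1) _)
    (le_trans ?_ (add_le_add_right (le_trans (add_le_add (add_le_add (add_le_add t1 t2)
      (add_le_add t3 t4)) (add_le_add t5 t6)) R) _))
  rw [← ENNReal.ofReal_add p0 q0, ← ENNReal.ofReal_add (add_nonneg p0 q0) r0,
    ← ENNReal.ofReal_mul (by positivity), ← ENNReal.ofReal_add m6 m5, ← ENNReal.ofReal_add m6 m4,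
    ← ENNReal.ofReal_add m5 m4, ← ENNReal.ofReal_add (add_nonneg m6 m5) (add_nonneg m6 m4),
    ← ENNReal.ofReal_add (add_nonneg (add_nonneg m6 m5) (add_nonneg m6 m4)) (add_nonneg m5 m4),
    ← ENNReal.ofReal_add (by positivity)
      (add_nonneg (add_nonneg (add_nonneg m6 m5) (add_nonneg m6 m4)) (add_nonneg m5 m4))]
  refine ENNReal.ofReal_le_ofReal ?_
  have e : a / π * π = a := div_mul_cancel₀ a pi_ne_zero
  simp only [mul_div_assoc] at g ⊢
  generalize a / π = c at *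
  generalize b / π = d at *
  nlinarith

end Good3

theorem good3 (ht : TetS) (hv : VolS) (hd : DisjS) (hu : UnionS) : Good3S := by
  intro a b f V S ha hb h0 g3 hV hS hc
  obtain ⟨p, q, r, h1, h2, h3, rfl⟩ := Finset.card_eq_three.1 hc
  rw [Good3.cell_eq V h1 h2 h3]
  exact hu a b f V E3 _ (fun y => tet y p q r)
    (fun y hy => Good3.one ht hv hd ha hb h0 g3 hV h1 h2 h3 hS
      ((Good3.fin V p q r).mem_toFinset.1 hy))
    fun y hy y' hy' hn => Good3.disj hd h1 h2 h3 hS ((Good3.fin V p q r).mem_toFinset.1 hy)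
      ((Good3.fin V p q r).mem_toFinset.1 hy') hn

end Pool.Agent.Lib.MP_f3b2fd_co.KA
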