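import Pool.Agent.Lib.MP_f3b2fd_co.KEP.A.St

/-! The cell inequality for cells with four vertices. -/

namespace Pool.Agent.Lib.MP_f3b2fd_co.KA

open MeasureTheory Set Real Metric Filter Topology
open scoped ENNReal RealInnerProductSpace

namespace Good4

theorem good_empty (a b : ℝ) (f : ℝ → ℝ) (V : Finset E3) : Good a b f V ∅ :=
  ⟨MeasurableSet.empty, fun _ _ => ∅, fun _ _ => ⟨MeasurableSet.empty, empty_subset _⟩, by simp⟩

theorem s1 (ht : TetS) (p q r s : E3) : onP dih p q r s = onP dih p q s r := by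
  unfold onP
  rw [(ht.sym _ _ _ _ _ _).1, dist_comm s r]

theorem s2 (ht : TetS) (p q r s : E3) : onP dih p q r s = onP dih q p r s := by
  unfold onP
  rw [(ht.sym _ _ _ _ _ _).2.1, dist_comm q p]

theorem d0 (ht : TetS) (p q r s : E3) : 0 ≤ onP dih p q r s := (ht.sym _ _ _ _ _ _).2.2

/-- the edge term. -/
theorem edge (ht : TetS) {X : Set E3} {p q r s : E3} {c : ℝ} (hc : 0 ≤ c)
    (hi : LinearIndependent ℝ ![q - p, r - p, s - p]) (hX : X = tet p q r s) :
    ENNReal.ofReal (c * (2 / 3 * onP dih p q r s)) ≤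
      ENNReal.ofReal c * volume (interior (wdg X (midpoint ℝ p q)) ∩ ball 0 1) := by
  rw [ENNReal.ofReal_mul hc, hX]
  exact mul_le_mul_right (ht.edge p q r s hi) _

theorem fin {a b v f1 f2 f3 f4 f5 f6 D1 D2 D3 D4 D5 D6 : ℝ} (ha : 0 ≤ a) (hb : 0 ≤ b) (hv : 0 ≤ v)
    (h1 : 0 ≤ f1) (h2 : 0 ≤ f2) (h3 : 0 ≤ f3) (h4 : 0 ≤ f4) (h5 : 0 ≤ f5) (h6 : 0 ≤ f6)
    (n1 : 0 ≤ D1) (n2 : 0 ≤ D2) (n3 : 0 ≤ D3) (n4 : 0 ≤ D4) (n5 : 0 ≤ D5) (n6 : 0 ≤ D6)
    (p1 : π ≤ D1 + D2 + D3) (p2 : π ≤ D1 + D6 + D5) (p3 : π ≤ D2 + D6 + D4)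
    (p4 : π ≤ D3 + D5 + D4)
    (hG : 0 ≤ v + 8 * a - (4 * a / π - 8 * b / π * f1) * D1 - (4 * a / π - 8 * b / π * f2) * D2 -
      (4 * a / π - 8 * b / π * f3) * D3 - (4 * a / π - 8 * b / π * f4) * D4 -
      (4 * a / π - 8 * b / π * f5) * D5 - (4 * a / π - 8 * b / π * f6) * D6) :
    ENNReal.ofReal (6 * a / π) * (ENNReal.ofReal ((D1 + D2 + D3 - π) / 3) +
      (ENNReal.ofReal ((D1 + D6 + D5 - π) / 3) + (ENNReal.ofReal ((D2 + D6 + D4 - π) / 3) +
        ENNReal.ofReal ((D3 + D5 + D4 - π) / 3)))) ≤ ENNReal.ofReal v +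
      (ENNReal.ofReal (6 * b / π * f1 * (2 / 3 * D1)) +
        (ENNReal.ofReal (6 * b / π * f2 * (2 / 3 * D2)) +
          ENNReal.ofReal (6 * b / π * f3 * (2 / 3 * D3))) +
      (ENNReal.ofReal (6 * b / π * f1 * (2 / 3 * D1)) +
        (ENNReal.ofReal (6 * b / π * f6 * (2 / 3 * D6)) +
          ENNReal.ofReal (6 * b / π * f5 * (2 / 3 * D5))) +
      (ENNReal.ofReal (6 * b / π * f2 * (2 / 3 * D2)) +
        (ENNReal.ofReal (6 * b / π * f6 * (2 / 3 * D6)) +
          ENNReal.ofReal (6 * b / π * f4 * (2 / 3 * D4))) +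
      (ENNReal.ofReal (6 * b / π * f3 * (2 / 3 * D3)) +
        (ENNReal.ofReal (6 * b / π * f5 * (2 / 3 * D5)) +
          ENNReal.ofReal (6 * b / π * f4 * (2 / 3 * D4))))))) := by
  have q1 : 0 ≤ (D1 + D2 + D3 - π) / 3 := by linarith
  have q2 : 0 ≤ (D1 + D6 + D5 - π) / 3 := by linarith
  have q3 : 0 ≤ (D2 + D6 + D4 - π) / 3 := by linarith
  have q4 : 0 ≤ (D3 + D5 + D4 - π) / 3 := by linarith
  have key : 6 * a / π * ((D1 + D2 + D3 - π) / 3 + ((D1 + D6 + D5 - π) / 3 +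
      ((D2 + D6 + D4 - π) / 3 + (D3 + D5 + D4 - π) / 3))) =
      4 * a / π * (D1 + D2 + D3 + D4 + D5 + D6) - 8 * a := by
    field_simp
    ring
  rw [← ENNReal.ofReal_add q3 q4, ← ENNReal.ofReal_add q2 (add_nonneg q3 q4),
    ← ENNReal.ofReal_add q1 (add_nonneg q2 (add_nonneg q3 q4)),
    ← ENNReal.ofReal_mul (by positivity), key]
  have z : ∀ u D, 6 * b / π * u * (2 / 3 * D) = 1 / 2 * (8 * b / π * u * D) := fun u D => by ring
  simp only [z]
  have c1 : 0 ≤ 1 / 2 * (8 * b / π * f1 * D1) := by positivity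
  have c2 : 0 ≤ 1 / 2 * (8 * b / π * f2 * D2) := by positivity
  have c3 : 0 ≤ 1 / 2 * (8 * b / π * f3 * D3) := by positivity
  have c4 : 0 ≤ 1 / 2 * (8 * b / π * f4 * D4) := by positivity
  have c5 : 0 ≤ 1 / 2 * (8 * b / π * f5 * D5) := by positivity
  have c6 : 0 ≤ 1 / 2 * (8 * b / π * f6 * D6) := by positivity
  have k : 4 * a / π * (D1 + D2 + D3 + D4 + D5 + D6) - 8 * a ≤ v +
      (1 / 2 * (8 * b / π * f1 * D1) + (1 / 2 * (8 * b / π * f2 * D2) +
        1 / 2 * (8 * b / π * f3 * D3)) +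
      (1 / 2 * (8 * b / π * f1 * D1) + (1 / 2 * (8 * b / π * f6 * D6) +
        1 / 2 * (8 * b / π * f5 * D5)) +
      (1 / 2 * (8 * b / π * f2 * D2) + (1 / 2 * (8 * b / π * f6 * D6) +
        1 / 2 * (8 * b / π * f4 * D4)) +
      (1 / 2 * (8 * b / π * f3 * D3) + (1 / 2 * (8 * b / π * f5 * D5) +
        1 / 2 * (8 * b / π * f4 * D4)))))) := by
    linarith
  generalize 1 / 2 * (8 * b / π * f1 * D1) = u1 at *
  generalize 1 / 2 * (8 * b / π * f2 * D2) = u2 at *
  generalize 1 / 2 * (8 * b / π * f3 * D3) = u3 at *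
  generalize 1 / 2 * (8 * b / π * f4 * D4) = u4 at *
  generalize 1 / 2 * (8 * b / π * f5 * D5) = u5 at *
  generalize 1 / 2 * (8 * b / π * f6 * D6) = u6 at *
  refine (ENNReal.ofReal_le_ofReal k).trans (le_of_eq ?_)
  simp (disch := positivity) only [ENNReal.ofReal_add]

theorem tetGood (ht : TetS) (hv : VolS) {a b : ℝ} {f : ℝ → ℝ} {V : Finset E3} {p q r s : E3}
    (ha : 0 ≤ a) (hb : 0 ≤ b) (h0 : ∀ h, 0 ≤ f h)
    (hpq : p ≠ q) (hpr : p ≠ r) (hps : p ≠ s) (hqr : q ≠ r) (hqs : q ≠ s) (hrs : r ≠ s)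
    (hS : ({p, q, r, s} : Finset E3) ⊆ V)
    (i1 : LinearIndependent ℝ ![q - p, r - p, s - p])
    (hfar : ∀ v ∈ V, v ∉ ({p, q, r, s} : Finset E3) → tet p q r s ∩ ball v 1 = ∅)
    (hG : 0 ≤ √(onP del p q r s) / 12 + 8 * a -
      (4 * a / π - 8 * b / π * f (dist p q / 2)) * onP dih p q r s -
      (4 * a / π - 8 * b / π * f (dist p r / 2)) * onP dih p r q s -
      (4 * a / π - 8 * b / π * f (dist p s / 2)) * onP dih p s q r -
      (4 * a / π - 8 * b / π * f (dist r s / 2)) * onP dih r s p q -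
      (4 * a / π - 8 * b / π * f (dist q s / 2)) * onP dih q s p r -
      (4 * a / π - 8 * b / π * f (dist q r / 2)) * onP dih q r p s) :
    Good a b f V (tet p q r s) := by
  classical
  obtain ⟨-, hop, hvol⟩ := hv.vol p q r s i1
  have A := fun p q r s => (ht.swap p q r s).1
  have B := fun p q r s => (ht.swap p q r s).2.1
  have C := fun p q r s => (ht.swap p q r s).2.2
  have iA := fun p q r s h => (ht.ind p q r s h).1
  have iB := fun p q r s h => (ht.ind p q r s h).2.1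
  have iC := fun p q r s h => (ht.ind p q r s h).2.2
  have hc : ∀ u, 0 ≤ 6 * b / π * f u := fun u => mul_nonneg (by positivity) (h0 u)
  set X := tet p q r s with hX
  have j_prqs := iB _ _ _ _ i1
  have j_psqr := iB _ _ _ _ (iC _ _ _ _ i1)
  have j_qprs := iA _ _ _ _ i1
  have j_qrps := iB _ _ _ _ j_qprs
  have j_qspr := iB _ _ _ _ (iC _ _ _ _ j_qprs)
  have j_rpqs := iA _ _ _ _ j_prqs
  have j_rqps := iB _ _ _ _ j_rpqs
  have j_rspq := iB _ _ _ _ (iC _ _ _ _ j_rpqs)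
  have j_spqr := iA _ _ _ _ j_psqr
  have j_sqpr := iB _ _ _ _ j_spqr
  have j_srpq := iB _ _ _ _ (iC _ _ _ _ j_spqr)
  have t_prqs : X = tet p r q s := B _ _ _ _
  have t_psqr : X = tet p s q r := (C _ _ _ _).trans (B _ _ _ _)
  have t_qprs : X = tet q p r s := A _ _ _ _
  have t_qrps : X = tet q r p s := t_qprs.trans (B _ _ _ _)
  have t_qspr : X = tet q s p r := t_qprs.trans ((C _ _ _ _).trans (B _ _ _ _))
  have t_rpqs : X = tet r p q s := t_prqs.trans (A _ _ _ _)
  have t_rqps : X = tet r q p s := t_rpqs.trans (B _ _ _ _)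
  have t_rspq : X = tet r s p q := t_rpqs.trans ((C _ _ _ _).trans (B _ _ _ _))
  have t_spqr : X = tet s p q r := t_psqr.trans (A _ _ _ _)
  have t_sqpr : X = tet s q p r := t_spqr.trans (B _ _ _ _)
  have t_srpq : X = tet s r p q := t_spqr.trans ((C _ _ _ _).trans (B _ _ _ _))
  obtain ⟨p1, v1⟩ := ht.vert p q r s i1
  obtain ⟨p2, v2⟩ := ht.vert q p r s j_qprs
  obtain ⟨p3, v3⟩ := ht.vert r p q s j_rpqs
  obtain ⟨p4, v4⟩ := ht.vert s p q r j_spqr
  rw [← hX] at v1
  rw [← t_qprs] at v2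
  rw [← t_rpqs] at v3
  rw [← t_spqr] at v4
  have e1 := edge ht (hc (dist p q / 2)) i1 hX
  have e2 := edge ht (hc (dist p r / 2)) j_prqs t_prqs
  have e3 := edge ht (hc (dist p s / 2)) j_psqr t_psqr
  have e4 := edge ht (hc (dist q p / 2)) j_qprs t_qprs
  have e5 := edge ht (hc (dist q r / 2)) j_qrps t_qrps
  have e6 := edge ht (hc (dist q s / 2)) j_qspr t_qspr
  have e7 := edge ht (hc (dist r p / 2)) j_rpqs t_rpqs
  have e8 := edge ht (hc (dist r q / 2)) j_rqps t_rqps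
  have e9 := edge ht (hc (dist r s / 2)) j_rspq t_rspq
  have e10 := edge ht (hc (dist s p / 2)) j_spqr t_spqr
  have e11 := edge ht (hc (dist s q / 2)) j_sqpr t_sqpr
  have e12 := edge ht (hc (dist s r / 2)) j_srpq t_srpq
  rw [← s2 ht p q r s] at p2 v2 e4
  rw [← s2 ht p r q s] at p3 v3 e7
  rw [← s2 ht q r p s] at p3 v3 e8
  rw [← s2 ht p s q r] at p4 v4 e10
  rw [← s2 ht q s p r] at p4 v4 e11
  rw [← s2 ht r s p q] at p4 v4 e12
  have n1 := d0 ht p q r s
  have n2 := d0 ht p r q s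
  have n3 := d0 ht p s q r
  have n4 := d0 ht r s p q
  have n5 := d0 ht q s p r
  have n6 := d0 ht q r p s
  generalize onP dih p q r s = D1 at *
  generalize onP dih p r q s = D2 at *
  generalize onP dih p s q r = D3 at *
  generalize onP dih r s p q = D4 at *
  generalize onP dih q s p r = D5 at *
  generalize onP dih q r p s = D6 at *
  refine ⟨hop.measurableSet, fun v w => interior (wdg X (midpoint ℝ v w)),
    fun v w => ⟨isOpen_interior.measurableSet, interior_subset⟩, ?_⟩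
  set T : E3 → E3 → ℝ≥0∞ := fun v w => ENNReal.ofReal (6 * b / π * f (dist v w / 2)) *
    volume (interior (wdg X (midpoint ℝ v w)) ∩ ball 0 1) with hT
  have L1 : ∑ v ∈ V, volume (X ∩ ball v 1) =
      ∑ v ∈ ({p, q, r, s} : Finset E3), volume (X ∩ ball v 1) :=
    (Finset.sum_subset hS fun v hv hn => by rw [hfar v hv hn, measure_empty]).symm
  have R1 : ∑ v ∈ ({p, q, r, s} : Finset E3), ∑ w ∈ ({p, q, r, s} : Finset E3).erase v, T v w ≤
      ∑ v ∈ V, ∑ w ∈ V.erase v, T v w :=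
    (Finset.sum_le_sum fun v _ => Finset.sum_le_sum_of_subset (Finset.erase_subset_erase v hS)).trans
      (Finset.sum_le_sum_of_subset hS)
  have r1 : ({p, q, r, s} : Finset E3).erase p = {q, r, s} := by
    ext x; simp only [Finset.mem_erase, Finset.mem_insert, Finset.mem_singleton]; grind
  have r2 : ({p, q, r, s} : Finset E3).erase q = {p, r, s} := by
    ext x; simp only [Finset.mem_erase, Finset.mem_insert, Finset.mem_singleton]; grind
  have r3 : ({p, q, r, s} : Finset E3).erase r = {p, q, s} := by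
    ext x; simp only [Finset.mem_erase, Finset.mem_insert, Finset.mem_singleton]; grind
  have r4 : ({p, q, r, s} : Finset E3).erase s = {p, q, r} := by
    ext x; simp only [Finset.mem_erase, Finset.mem_insert, Finset.mem_singleton]; grind
  have s3 : ∀ (g : E3 → ℝ≥0∞) (x y z : E3), x ≠ y → x ≠ z → y ≠ z →
      ∑ w ∈ ({x, y, z} : Finset E3), g w = g x + (g y + g z) := fun g x y z h1 h2 h3 => by
    rw [Finset.sum_insert (by simp [h1, h2]), Finset.sum_pair h3]
  have s4 : ∀ g : E3 → ℝ≥0∞,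
      ∑ w ∈ ({p, q, r, s} : Finset E3), g w = g p + (g q + (g r + g s)) := fun g => by
    rw [Finset.sum_insert (by simp [hpq, hpr, hps]), s3 g q r s hqr hqs hrs]
  rw [s4, r1, r2, r3, r4, s3 _ _ _ _ hqr hqs hrs, s3 _ _ _ _ hpr hps hrs, s3 _ _ _ _ hpq hps hqs,
    s3 _ _ _ _ hpq hpr hqr] at R1
  rw [L1, s4, hvol]
  have E := (add_le_add (add_le_add e1 (add_le_add e2 e3)) (add_le_add
      (add_le_add e4 (add_le_add e5 e6)) (add_le_add (add_le_add e7 (add_le_add e8 e9))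
        (add_le_add e10 (add_le_add e11 e12))))).trans R1
  refine le_trans ?_ (add_le_add_right E _)
  refine le_trans (mul_le_mul_right (add_le_add v1 (add_le_add v2 (add_le_add v3 v4))) _) ?_
  rw [dist_comm q p, dist_comm r p, dist_comm r q, dist_comm s p, dist_comm s q, dist_comm s r]
  exact fin ha hb (by positivity) (h0 _) (h0 _) (h0 _) (h0 _) (h0 _) (h0 _) n1 n2 n3 n4 n5 n6
    p1 p2 p3 p4 hG

end Good4

open Good4 in
theorem good4 (ht : TetS) (hv : VolS) (hd : DisjS) (ho : ObtS) : Good4S := by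
  classical
  intro a b f V S ha hb h0 g4 hV hS h4
  have no1 : ∀ y : E3, ¬ LinearIndependent ℝ fun v : S => (v : E3) - y := fun y h => by
    have := h.fintype_card_le_finrank
    simp at this
    omega
  rcases (cell V S).eq_empty_or_nonempty with he | ⟨x, y, R, t, hem, hyt, -, hk⟩
  · rw [he]; exact good_empty a b f V
  obtain ⟨hR, -, hc⟩ := hk.resolve_left fun h => no1 y h.2.2
  obtain ⟨p, q, r, s, hpq, hpr, hps, hqr, hqs, hrs, rfl⟩ := Finset.card_eq_four.1 hc
  have mp : p ∈ ({p, q, r, s} : Finset E3) := by simp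
  have mq : q ∈ ({p, q, r, s} : Finset E3) := by simp
  have mr : r ∈ ({p, q, r, s} : Finset E3) := by simp
  have ms : s ∈ ({p, q, r, s} : Finset E3) := by simp
  have hP : Pack {p, q, r, s} := fun v hv w hw h => hV v (hS hv) w (hS hw) h
  have i0 := (ho.four _ y R hP (fun v hv => (hyt v hv).1) hR).2 p mp
  have i1 : LinearIndependent ℝ ![q - p, r - p, s - p] := by
    let e : Fin 3 → (({p, q, r, s} : Finset E3).erase p) :=
      ![⟨q, Finset.mem_erase.2 ⟨hpq.symm, mq⟩⟩, ⟨r, Finset.mem_erase.2 ⟨hpr.symm, mr⟩⟩,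
        ⟨s, Finset.mem_erase.2 ⟨hps.symm, ms⟩⟩]
    have he : Function.Injective e := by
      intro i j h
      have h' := congrArg Subtype.val h
      fin_cases i <;> fin_cases j <;> simp_all [e, hqr.symm, hqs.symm, hrs.symm]
    convert i0.comp e he using 1
    ext1 i
    fin_cases i <;> rfl
  have s4 : ∀ {M : Type} [AddCommMonoid M] (g : E3 → M),
      ∑ w ∈ ({p, q, r, s} : Finset E3), g w = g p + (g q + (g r + g s)) := fun g => by
    rw [Finset.sum_insert (by simp [hpq, hpr, hps]), Finset.sum_insert (by simp [hqr, hqs]),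
      Finset.sum_pair hrs]
  have hcell : cell V {p, q, r, s} = tet p q r s := by
    ext z
    constructor
    · rintro ⟨y', R', t', -, h1, rfl, h2⟩
      obtain ⟨-, h3, -⟩ := h2.resolve_left fun h => no1 y' h.2.2
      rw [s4] at h3
      refine ⟨t' q, t' r, t' s, (h1 q mq).2, (h1 r mr).2, (h1 s ms).2, by linarith [(h1 p mp).2], ?_⟩
      have : t' p = 1 - t' q - t' r - t' s := by linarith
      rw [s4, this]
      module
    · rintro ⟨α, β, γ, h1, h2, h3, h5, rfl⟩
      let u : E3 → ℝ := fun v => if v = q then α else if v = r then β else if v = s then γ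
        else 1 - α - β - γ
      have u1 : u p = 1 - α - β - γ := by simp [u, hpq, hpr, hps]
      have u2 : u q = α := by simp [u]
      have u3 : u r = β := by simp [u, hqr.symm]
      have u4 : u s = γ := by simp [u, hqs.symm, hrs.symm]
      refine ⟨y, R, u, hem, fun v hv => ⟨(hyt v hv).1, ?_⟩, ?_, Or.inr ⟨hR, ?_, hc⟩⟩
      · simp only [Finset.mem_insert, Finset.mem_singleton] at hv
        rcases hv with rfl | rfl | rfl | rfl
        · rw [u1]; linarith
        · rwa [u2]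
        · rwa [u3]
        · rwa [u4]
      · rw [s4, u1, u2, u3, u4]
        module
      · rw [s4, u1, u2, u3, u4]
        ring
  have hR0 : 0 ≤ R := (hyt p mp).1 ▸ dist_nonneg
  have hR2 : R ^ 2 < 2 := by
    have := pow_lt_pow_left₀ hR hR0 two_ne_zero
    rwa [sq_sqrt (by norm_num)] at this
  have lo : ∀ v ∈ ({p, q, r, s} : Finset E3), ∀ w ∈ ({p, q, r, s} : Finset E3), v ≠ w →
      4 ≤ dist v w ^ 2 := fun v hv w hw h => by nlinarith [hP v hv w hw h]
  have hi : ∀ v ∈ ({p, q, r, s} : Finset E3), ∀ w ∈ ({p, q, r, s} : Finset E3),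
      dist v w ^ 2 ≤ 8 := fun v hv w hw => by
    have k := dist_triangle_left v w y
    rw [(hyt v hv).1, (hyt w hw).1] at k
    nlinarith [dist_nonneg (x := v) (y := w)]
  have hdel := (hv.vol p q r s i1).1
  have hrho := hv.rad p q r s y R (hyt p mp).1 (hyt q mq).1 (hyt r mr).1 (hyt s ms).1
  have G := g4 _ _ _ _ _ _ (lo p mp q mq hpq) (lo p mp r mr hpr) (lo p mp s ms hps)
    (lo r mr s ms hrs) (lo q mq s ms hqs) (lo q mq r mr hqr) (hi p mp q mq) (hi p mp r mr)
    (hi p mp s ms) (hi r mr s ms) (hi q mq s ms) (hi q mq r mr) hdel (by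
      change onP rho p q r s < 8 * onP del p q r s
      nlinarith)
  simp only [sqrt_sq dist_nonneg] at G
  rw [hcell]
  refine tetGood ht hv ha hb h0 hpq hpr hps hqr hqs hrs hS i1
    (fun v hv hn => hcell ▸ hd.far V _ hV hS v hv hn) ?_
  simp only [onP, dist_comm q p, dist_comm r p, dist_comm r q, dist_comm s p, dist_comm s q,
    dist_comm s r]
  exact G

end Pool.Agent.Lib.MP_f3b2fd_co.KA
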