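import Pool.Agent.Lib.MP_f3b2fd_co.KEP.A.St

/-! Families of vectors with nonpositive products. -/

namespace Pool.Agent.Lib.MP_f3b2fd_co.KA

open Real
open scoped RealInnerProductSpace

namespace Obt

theorem pos_eq {S : Finset E3} {p : E3 → E3} {c : E3 → ℝ} (h : ∑ v ∈ S, c v • p v = 0) :
    ∑ v ∈ S, max (c v) 0 • p v = ∑ v ∈ S, max (-c v) 0 • p v := by
  rw [← sub_eq_zero, ← Finset.sum_sub_distrib, ← h]
  refine Finset.sum_congr rfl fun v _ => ?_
  rw [← sub_smul, max_zero_sub_max_neg_zero_eq_self]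

theorem quant {S : Finset E3} {p : E3 → E3} {c : E3 → ℝ} {δ : ℝ}
    (hp : ∀ v ∈ S, ∀ w ∈ S, v ≠ w → ⟪p v, p w⟫ ≤ δ) (h : ∑ v ∈ S, c v • p v = 0) :
    ‖∑ v ∈ S, max (c v) 0 • p v‖ ^ 2 ≤
      δ * ((∑ v ∈ S, max (c v) 0) * ∑ v ∈ S, max (-c v) 0) := by
  rw [← real_inner_self_eq_norm_sq]
  nth_rw 2 [pos_eq h]
  rw [sum_inner, Finset.sum_mul_sum, Finset.mul_sum]
  refine Finset.sum_le_sum fun v hv => ?_
  rw [inner_sum, Finset.mul_sum]
  refine Finset.sum_le_sum fun w hw => ?_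
  rw [real_inner_smul_left, real_inner_smul_right, ← mul_assoc, mul_comm δ]
  by_cases e : v = w
  · subst e
    have : max (c v) 0 * max (-c v) 0 = 0 := by
      rcases le_total (c v) 0 with h | h
      · rw [max_eq_right h, zero_mul]
      · rw [max_eq_right (neg_nonpos.2 h), mul_zero]
    rw [this, zero_mul, zero_mul]
  · exact mul_le_mul_of_nonneg_left (hp v hv w hw e)
      (mul_nonneg (le_max_right _ _) (le_max_right _ _))

theorem split {S : Finset E3} {p : E3 → E3} {c : E3 → ℝ}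
    (hp : ∀ v ∈ S, ∀ w ∈ S, v ≠ w → ⟪p v, p w⟫ ≤ 0) (h : ∑ v ∈ S, c v • p v = 0) :
    ∑ v ∈ S, max (c v) 0 • p v = 0 := by
  have := quant hp h
  rw [zero_mul] at this
  exact norm_eq_zero.1 (pow_eq_zero_iff two_ne_zero |>.1 (le_antisymm this (sq_nonneg _)))

theorem li_iff {S : Finset E3} {p : E3 → E3} : (LinearIndependent ℝ fun v : S => p v) ↔
    ∀ c : E3 → ℝ, ∑ v ∈ S, c v • p v = 0 → ∀ v ∈ S, c v = 0 :=
  linearIndepOn_finset_iff

theorem step {S : Finset E3} {p : E3 → E3} {t : E3 → ℝ}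
    (hp : ∀ v ∈ S, ∀ w ∈ S, v ≠ w → ⟪p v, p w⟫ ≤ 0) (ht : ∀ v ∈ S, 0 ≤ t v)
    (hl : ¬ LinearIndependent ℝ fun v : S => p v) :
    ∃ u ∈ S, ∃ t' : E3 → ℝ, (∀ v ∈ S, 0 ≤ t' v) ∧ t' u = 0 ∧ ∑ v ∈ S, t' v ≤ ∑ v ∈ S, t v ∧
      ∑ v ∈ S, t' v • p v = ∑ v ∈ S, t v • p v := by
  obtain ⟨c, h1, h2, h3⟩ : ∃ c : E3 → ℝ, ∑ v ∈ S, c v • p v = 0 ∧ (∀ v, 0 ≤ c v) ∧
      ∃ v ∈ S, 0 < c v := by
    rw [li_iff] at hl
    push Not at hl
    obtain ⟨c, h1, v, hv, h2⟩ := hl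
    rcases lt_or_gt_of_ne h2 with h | h
    · exact ⟨fun v => max (-c v) 0, (pos_eq h1).symm.trans (split hp h1),
        fun _ => le_max_right _ _, v, hv, lt_max_of_lt_left (neg_pos.2 h)⟩
    · exact ⟨fun v => max (c v) 0, split hp h1, fun _ => le_max_right _ _, v, hv,
        lt_max_of_lt_left h⟩
  obtain ⟨u, hu, h4⟩ := Finset.exists_min_image (S.filter fun v => 0 < c v) (fun v => t v / c v)
    (h3.imp fun v hv => Finset.mem_filter.2 hv)
  obtain ⟨hu, cu⟩ := Finset.mem_filter.1 hu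
  have l0 : 0 ≤ t u / c u := div_nonneg (ht u hu) cu.le
  refine ⟨u, hu, fun v => t v - t u / c u * c v, fun v hv => ?_, ?_, ?_, ?_⟩
  · rcases (h2 v).eq_or_lt with h | h
    · simpa only [← h, mul_zero, sub_zero] using ht v hv
    · exact sub_nonneg.2 ((le_div_iff₀ h).1 (h4 v (Finset.mem_filter.2 ⟨hv, h⟩)))
  · exact sub_eq_zero.2 (div_mul_cancel₀ _ cu.ne').symm
  · exact Finset.sum_le_sum fun v _ => sub_le_self _ (mul_nonneg l0 (h2 v))
  · simp only [sub_smul, mul_smul, Finset.sum_sub_distrib, ← Finset.smul_sum, h1, smul_zero,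
      sub_zero]

theorem red (S : Finset E3) (p : E3 → E3) (t : E3 → ℝ)
    (hp : ∀ v ∈ S, ∀ w ∈ S, v ≠ w → ⟪p v, p w⟫ ≤ 0) (ht : ∀ v ∈ S, 0 ≤ t v) :
    ∃ T ⊆ S, ∃ t' : E3 → ℝ, (∀ v ∈ T, 0 < t' v) ∧ ∑ v ∈ T, t' v ≤ ∑ v ∈ S, t v ∧
      ∑ v ∈ T, t' v • p v = ∑ v ∈ S, t v • p v ∧ LinearIndependent ℝ fun v : T => p v := by
  classical
  induction S using Finset.strongInduction generalizing t with
  | H S ih =>
    by_cases h : (∀ v ∈ S, 0 < t v) ∧ LinearIndependent ℝ fun v : S => p v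
    · exact ⟨S, subset_rfl, t, h.1, le_rfl, rfl, h.2⟩
    obtain ⟨u, hu, t', h1, h2, h3, h4⟩ : ∃ u ∈ S, ∃ t' : E3 → ℝ, (∀ v ∈ S, 0 ≤ t' v) ∧ t' u = 0 ∧
        ∑ v ∈ S, t' v ≤ ∑ v ∈ S, t v ∧ ∑ v ∈ S, t' v • p v = ∑ v ∈ S, t v • p v := by
      rcases not_and_or.1 h with h | h
      · push Not at h
        obtain ⟨u, hu, h⟩ := h
        exact ⟨u, hu, t, ht, le_antisymm h (ht u hu), le_rfl, rfl⟩
      · exact step hp ht h
    have e := Finset.erase_subset u S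
    obtain ⟨T, k1, t'', k2, k3, k4, k5⟩ := ih _ (Finset.erase_ssubset hu) t'
      (fun v hv w hw => hp v (e hv) w (e hw)) fun v hv => h1 v (e hv)
    rw [Finset.sum_erase S h2] at k3
    rw [Finset.sum_erase S (by rw [h2, zero_smul])] at k4
    exact ⟨T, k1.trans e, t'', k2, k3.trans h3, k4.trans h4, k5⟩

open Classical in
theorem sub {S T : Finset E3} {p : E3 → E3} {t t' : E3 → ℝ}
    (hp : ∀ v ∈ S ∪ T, ∀ w ∈ S ∪ T, v ≠ w → ⟪p v, p w⟫ ≤ 0) (ht : ∀ v ∈ S, 0 < t v)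
    (ht' : ∀ v ∈ T, 0 < t' v) (hl : LinearIndependent ℝ fun v : S => p v)
    (e : ∑ v ∈ S, t v • p v = ∑ v ∈ T, t' v • p v) : S ⊆ T := by
  have h1 : ∑ v ∈ S ∪ T, ((if v ∈ S then t v else 0) - if v ∈ T then t' v else 0) • p v = 0 := by
    simp only [sub_smul, Finset.sum_sub_distrib, ite_smul, zero_smul, Finset.sum_ite_mem,
      Finset.union_inter_cancel_left, Finset.union_inter_cancel_right, e, sub_self]
  have h2 := split hp h1
  rw [← Finset.sum_subset Finset.subset_union_left fun v hv h => by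
    rw [if_neg h, if_pos ((Finset.mem_union.1 hv).resolve_left h), max_eq_right, zero_smul]
    linarith [ht' v ((Finset.mem_union.1 hv).resolve_left h)]] at h2
  intro v hv
  by_contra h
  have h3 := li_iff.1 hl _ h2 v hv
  rw [if_pos hv, if_neg h, sub_zero, max_eq_left (ht v hv).le] at h3
  exact (ht v hv).ne' h3

theorem inner_le (y v w : E3) (r : ℝ) (h1 : dist y v = r) (h2 : dist y w = r)
    (h3 : 2 ≤ dist v w) : ⟪v - y, w - y⟫ ≤ r ^ 2 - 2 := by
  have h := norm_sub_sq_real (v - y) (w - y)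
  rw [sub_sub_sub_cancel_right, ← dist_eq_norm, ← dist_eq_norm, ← dist_eq_norm, dist_comm v y,
    dist_comm w y, h1, h2] at h
  nlinarith

open Classical in
theorem ind {S : Finset E3} {y : E3} {r : ℝ} (hS : Pack S) (hr : ∀ v ∈ S, dist y v = r)
    (h2 : r < √2) {p : E3} (hp : p ∈ S) :
    LinearIndependent ℝ fun v : S.erase p => (v : E3) - p := by
  refine (li_iff (p := fun v => v - p)).2 fun f hf => ?_
  have r0 : 0 ≤ r := hr p hp ▸ dist_nonneg
  have r2 : r ^ 2 - 2 < 0 := by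
    have := (Real.lt_sqrt r0).1 h2
    linarith
  obtain ⟨c, c1, c2⟩ : ∃ c : E3 → ℝ, c p = -∑ v ∈ S.erase p, f v ∧ ∀ v ∈ S.erase p, c v = f v :=
    ⟨fun v => if v = p then -∑ v ∈ S.erase p, f v else f v, if_pos rfl,
      fun v hv => if_neg (Finset.ne_of_mem_erase hv)⟩
  have s0 : ∑ v ∈ S, c v = 0 := by
    rw [← Finset.add_sum_erase S c hp, c1, Finset.sum_congr rfl c2, neg_add_cancel]
  have s1 : ∑ v ∈ S, c v • (v - y) = 0 := by
    have : ∀ v, c v • (v - y) = c v • (v - p) + c v • (p - y) := fun v => by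
      rw [← smul_add, sub_add_sub_cancel]
    simp only [this]
    rw [Finset.sum_add_distrib, ← Finset.sum_smul, s0, zero_smul, add_zero,
      ← Finset.add_sum_erase S _ hp, sub_self, smul_zero, zero_add, ← hf]
    exact Finset.sum_congr rfl fun v hv => by rw [c2 v hv]
  have q := quant (p := fun v => v - y)
    (fun v hv w hw h => inner_le y v w r (hr v hv) (hr w hw) (hS v hv w hw h)) s1
  have s2 : ∑ v ∈ S, max (c v) 0 = ∑ v ∈ S, max (-c v) 0 := by
    rw [← sub_eq_zero, ← Finset.sum_sub_distrib]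
    exact (Finset.sum_congr rfl fun v _ => max_zero_sub_max_neg_zero_eq_self _).trans s0
  have s3 : ∑ v ∈ S, max (-c v) 0 = 0 := by
    rw [s2] at q
    refine mul_self_eq_zero.1 (le_antisymm ?_ (mul_self_nonneg _))
    exact nonpos_of_mul_nonneg_right ((sq_nonneg _).trans q) r2
  intro v hv
  have m := Finset.mem_of_mem_erase hv
  have a1 := (Finset.sum_eq_zero_iff_of_nonneg fun _ _ => le_max_right _ _).1 s3 v m
  have a2 := (Finset.sum_eq_zero_iff_of_nonneg fun _ _ => le_max_right _ _).1 (s2.trans s3) v m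
  rw [← c2 v hv, ← max_zero_sub_max_neg_zero_eq_self (c v), a1, a2, sub_zero]

end Obt

theorem obt : ObtS where
  red := Obt.red
  uniq S T p t t' hp ht ht' hl hl' e := by
    refine Finset.Subset.antisymm (Obt.sub ?_ ht ht' hl e) (Obt.sub ?_ ht' ht hl' e.symm)
    · simpa only [Finset.mem_union] using hp
    · simpa only [Finset.mem_union, or_comm] using hp
  four S y r hS hr h2 := by
    refine ⟨?_, fun p hp => Obt.ind hS hr h2 hp⟩
    rcases S.eq_empty_or_nonempty with rfl | ⟨p, hp⟩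
    · simp
    · have h := (Obt.ind hS hr h2 hp).fintype_card_le_finrank
      rw [Fintype.card_coe, Finset.card_erase_of_mem hp, finrank_euclideanSpace_fin] at h
      omega
  inner := Obt.inner_le

end Pool.Agent.Lib.MP_f3b2fd_co.KA
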