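import Pool.Agent.Lib.MP_f3b2fd_co.KEP.A.St

/-! Volumes of solids of revolution in a wedge. -/

namespace Pool.Agent.Lib.MP_f3b2fd_co.KA

open MeasureTheory Set Real Metric
open scoped ENNReal RealInnerProductSpace Pointwise

namespace Rev

/-- cylindrical coordinates along the unit vector `e`. -/
theorem coord (e : E3) (he : ‖e‖ = 1) : ∃ Φ : ℝ × (Fin 2 → ℝ) → E3,
    MeasurePreserving Φ volume volume ∧ (∀ s q, Φ (s, q) = Φ (0, q) + s • e) ∧
    (∀ (c : ℝ) q, Φ (0, c • q) = c • Φ (0, q)) ∧ (∀ s q, ⟪Φ (s, q), e⟫ = s) ∧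
    ∀ s q, ‖Φ (s, q)‖ ^ 2 = s ^ 2 + (q 0 ^ 2 + q 1 ^ 2) := by
  set u : E3 := EuclideanSpace.single 0 1 with hu
  have hun : ‖u‖ = 1 := by simp [hu]
  set R : E3 ≃ₗᵢ[ℝ] E3 := Submodule.reflection (ℝ ∙ (u - e))ᗮ
  have hR : R u = e := Submodule.reflection_sub (by rw [hun, he])
  have hm := (R.measurePreserving.comp (PiLp.volume_preserving_toLp (Fin 3))).comp
    ((volume_preserving_piFinSuccAbove (fun _ : Fin 3 => ℝ) 0).symm _)
  have e0 : ∀ s (q : Fin 2 → ℝ), (MeasurableEquiv.piFinSuccAbove (fun _ : Fin 3 => ℝ) 0).symm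
      (s, q) = ![s, q 0, q 1] := fun s q => by
    ext i
    fin_cases i <;> rfl
  refine ⟨_, hm, fun s q => ?_, fun c q => ?_, fun s q => ?_, fun s q => ?_⟩ <;>
    simp only [Function.comp_apply, e0]
  · rw [← hR, ← map_smul, ← map_add]
    congr 1
    ext i
    fin_cases i <;> simp [hu]
  · rw [← map_smul]
    congr 1
    ext i
    fin_cases i <;> simp
  · rw [← hR, R.inner_map_map, hu, EuclideanSpace.inner_single_right]
    simp
  · rw [R.norm_map, EuclideanSpace.real_norm_sq_eq, Fin.sum_univ_three, add_assoc]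
    rfl

theorem slice (P : Set (Fin 2 → ℝ)) (hP : ∀ q ∈ P, ∀ c : ℝ, 0 < c → c • q ∈ P) (t : ℝ) :
    volume (P ∩ {q | q 0 ^ 2 + q 1 ^ 2 < t}) =
      volume (P ∩ {q | q 0 ^ 2 + q 1 ^ 2 < 1}) * ENNReal.ofReal t := by
  rcases le_or_gt t 0 with h | h
  · have e : P ∩ {q | q 0 ^ 2 + q 1 ^ 2 < t} = ∅ := eq_empty_of_forall_notMem fun q hq =>
      (lt_of_lt_of_le hq.2 h).not_ge (by positivity)
    rw [ENNReal.ofReal_of_nonpos h, mul_zero, e, measure_empty]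
  have hs := sqrt_pos.2 h
  have e : P ∩ {q | q 0 ^ 2 + q 1 ^ 2 < t} = √t • (P ∩ {q | q 0 ^ 2 + q 1 ^ 2 < 1}) := by
    ext q
    rw [mem_smul_set_iff_inv_smul_mem₀ hs.ne']
    refine and_congr ⟨fun hq => hP q hq _ (inv_pos.2 hs), fun hq => ?_⟩ ?_
    · simpa only [smul_inv_smul₀ hs.ne'] using hP _ hq _ hs
    · simp only [mem_ofPred_eq, Pi.smul_apply, smul_eq_mul, mul_pow, inv_pow, sq_sqrt h.le]
      rw [← mul_add, inv_mul_lt_iff₀ h, mul_one]
  rw [e, Measure.addHaar_smul, Module.finrank_fin_fun, sq_sqrt h.le, abs_of_pos h, mul_comm]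

end Rev

theorem rev : RevS := by
  intro e W he hW h1 h2
  obtain ⟨Φ, hΦ, p1, p2, p3, p4⟩ := Rev.coord e he
  let P : Set (Fin 2 → ℝ) := {q | Φ (0, q) ∈ W}
  have fin : volume (P ∩ {q | q 0 ^ 2 + q 1 ^ 2 < 1}) ≠ ∞ := by
    refine ((measure_mono fun q hq => ?_).trans_lt
      (measure_closedBall_lt_top (x := (0 : Fin 2 → ℝ)) (r := 1))).ne
    have hq : q 0 ^ 2 + q 1 ^ 2 < 1 := hq.2
    rw [mem_closedBall_zero_iff, pi_norm_le_iff_of_nonneg zero_le_one, Fin.forall_fin_two]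
    constructor <;> rw [Real.norm_eq_abs, ← sq_le_one_iff_abs_le_one] <;>
      nlinarith [sq_nonneg (q 0), sq_nonneg (q 1)]
  refine ⟨_, ENNReal.toReal_nonneg (a := volume (P ∩ {q | q 0 ^ 2 + q 1 ^ 2 < 1})), fun g hg => ?_⟩
  have hm : MeasurableSet (W ∩ {z : E3 | ‖z‖ ^ 2 - ⟪z, e⟫ ^ 2 < g ⟪z, e⟫}) :=
    hW.inter (measurableSet_lt (by fun_prop) (hg.comp (by fun_prop)))
  rw [← hΦ.measure_preimage hm.nullMeasurableSet, Measure.volume_eq_prod,
    Measure.prod_apply (hΦ.measurable hm), ENNReal.ofReal_toReal fin,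
    ← lintegral_const_mul _ hg.ennreal_ofReal]
  refine lintegral_congr fun s => ?_
  rw [← Rev.slice P fun q hq c hc => show Φ (0, c • q) ∈ W from p2 c q ▸ h2 _ hq c hc]
  congr 1
  ext q
  simp only [mem_preimage, mem_inter_iff, mem_ofPred_eq, p3, p4, add_sub_cancel_left, P]
  refine and_congr_left' ⟨fun h => ?_, fun h => p1 s q ▸ h1 _ h s⟩
  have := h1 _ h (-s)
  rwa [p1, neg_smul, add_neg_cancel_right] at this

end Pool.Agent.Lib.MP_f3b2fd_co.KA
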