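import Pool.Agent.Lib.MP_f3b2fd_co.KEP.A.St

/-! Tetrahedra: symmetries, the wedge at an edge and the solid angle at a vertex. -/

namespace Pool.Agent.Lib.MP_f3b2fd_co.KA

open MeasureTheory Set Real Metric Filter Topology
open scoped ENNReal RealInnerProductSpace

namespace Tet

theorem li3 (u v w : E3) : LinearIndependent ℝ ![u, v, w] ↔
    ∀ a b c : ℝ, a • u + b • v + c • w = 0 → a = 0 ∧ b = 0 ∧ c = 0 := by
  rw [Fintype.linearIndependent_iff]
  constructor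
  · intro h a b c habc
    have := h ![a, b, c] (by simpa [Fin.sum_univ_three] using habc)
    exact ⟨by simpa using this 0, by simpa using this 1, by simpa using this 2⟩
  · intro h g hg i
    obtain ⟨h0, h1, h2⟩ := h (g 0) (g 1) (g 2) (by simpa [Fin.sum_univ_three] using hg)
    fin_cases i
    · exact h0
    · exact h1
    · exact h2

theorem li_a {u v w : E3} (h : LinearIndependent ℝ ![u, v, w]) :
    LinearIndependent ℝ ![v, u, w] := by
  rw [li3] at h ⊢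
  intro a b c e
  obtain ⟨h1, h2, h3⟩ := h b a c (by rw [← e]; abel)
  exact ⟨h2, h1, h3⟩

theorem li_b {u v w : E3} (h : LinearIndependent ℝ ![u, v, w]) :
    LinearIndependent ℝ ![u, w, v] := by
  rw [li3] at h ⊢
  intro a b c e
  obtain ⟨h1, h2, h3⟩ := h a c b (by rw [← e]; abel)
  exact ⟨h1, h3, h2⟩

theorem li_c {p q r s : E3} (h : LinearIndependent ℝ ![q - p, r - p, s - p]) :
    LinearIndependent ℝ ![p - q, r - q, s - q] := by
  rw [li3] at h ⊢
  intro a b c e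
  obtain ⟨h1, h2, h3⟩ := h (-(a + b + c)) b c (by rw [← e]; module)
  exact ⟨by linarith, h2, h3⟩

theorem sub_a (p q r s : E3) : tet p q r s ⊆ tet q p r s := by
  rintro x ⟨a, b, c, ha, hb, hc, h, rfl⟩
  exact ⟨1 - a - b - c, b, c, by linarith, hb, hc, by linarith, by module⟩

theorem sub_b (p q r s : E3) : tet p q r s ⊆ tet p r q s := by
  rintro x ⟨a, b, c, ha, hb, hc, h, rfl⟩
  exact ⟨b, a, c, hb, ha, hc, by linarith, by module⟩

theorem sub_c (p q r s : E3) : tet p q r s ⊆ tet p q s r := by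
  rintro x ⟨a, b, c, ha, hb, hc, h, rfl⟩
  exact ⟨a, c, b, ha, hc, hb, by linarith, by module⟩

theorem sym1 (x1 x2 x3 x4 x5 x6 : ℝ) : dih x1 x2 x3 x4 x5 x6 = dih x1 x3 x2 x4 x6 x5 := by
  have e1 : del4 x1 x2 x3 x4 x5 x6 = del4 x1 x3 x2 x4 x6 x5 := by unfold del4; ring
  have e2 : del x1 x2 x3 x4 x5 x6 = del x1 x3 x2 x4 x6 x5 := by unfold del; ring
  unfold dih
  rw [e1, e2]

theorem sym2 (x1 x2 x3 x4 x5 x6 : ℝ) : dih x1 x2 x3 x4 x5 x6 = dih x1 x6 x5 x4 x3 x2 := by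
  have e1 : del4 x1 x2 x3 x4 x5 x6 = del4 x1 x6 x5 x4 x3 x2 := by unfold del4; ring
  have e2 : del x1 x2 x3 x4 x5 x6 = del x1 x6 x5 x4 x3 x2 := by unfold del; ring
  unfold dih
  rw [e1, e2]

theorem dih_nonneg (x1 x2 x3 x4 x5 x6 : ℝ) : 0 ≤ dih x1 x2 x3 x4 x5 x6 := by
  unfold dih
  linarith [arctan_lt_pi_div_two (del4 x1 x2 x3 x4 x5 x6 / √(4 * x1 * del x1 x2 x3 x4 x5 x6))]

theorem onP_nonneg (p q r s : E3) : 0 ≤ onP dih p q r s := dih_nonneg _ _ _ _ _ _

theorem onP_shift (F : ℝ → ℝ → ℝ → ℝ → ℝ → ℝ → ℝ) (p q r s : E3) :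
    onP F 0 (q - p) (r - p) (s - p) = onP F p q r s := by
  have e : ∀ x : E3, dist 0 (x - p) = dist p x := fun x => by
    rw [← sub_self p, dist_sub_right]
  simp only [onP, e, dist_sub_right]

theorem ev_lt (k a c : ℝ) (h : k < c) : ∀ᶠ t in 𝓝[>] (0 : ℝ), k + t * a < c := by
  have h1 : Tendsto (fun t : ℝ => k + t * a) (𝓝 0) (𝓝 (k + 0 * a)) :=
    (by fun_prop : Continuous fun t : ℝ => k + t * a).tendsto 0
  rw [zero_mul, add_zero] at h1
  exact (h1.mono_left nhdsWithin_le_nhds).eventually (gt_mem_nhds h)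

theorem wed_sub (p q r s : E3) :
    wed (q - p) (r - p) (s - p) ⊆ wdg (tet p q r s) (midpoint ℝ p q) := by
  rintro z ⟨a, b, c, hb, hc, rfl⟩
  have hm : midpoint ℝ p q = p + (1 / 2 : ℝ) • (q - p) := by
    rw [midpoint_eq_smul_add, invOf_eq_inv]; module
  have e1 := ev_lt (-(1 / 2)) (-a) 0 (by norm_num)
  have e2 := ev_lt (1 / 2) (a + b + c) 1 (by norm_num)
  have e3 : ∀ᶠ t in 𝓝[>] (0 : ℝ), 0 < t := self_mem_nhdsWithin
  show ∀ᶠ t in 𝓝[>] (0 : ℝ), _
  filter_upwards [e1, e2, e3] with t t1 t2 t3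
  exact ⟨1 / 2 + t * a, t * b, t * c, by linarith, mul_pos t3 hb, mul_pos t3 hc, by linarith,
    by rw [hm]; module⟩

theorem tet_le (p q r s : E3) : volume (tet p q r s ∩ ball p 1) ≤
    volume (oct (q - p) (r - p) (s - p) ∩ ball 0 1) := by
  rw [← measure_preimage_add_right volume (-p) (oct (q - p) (r - p) (s - p) ∩ ball 0 1)]
  refine measure_mono ?_
  rintro x ⟨⟨a, b, c, ha, hb, hc, -, e⟩, hx⟩
  refine ⟨⟨a, b, c, ha, hb, hc, by rw [e]; module⟩, ?_⟩
  rw [mem_ball, dist_eq_norm] at hx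
  rw [mem_ball, dist_zero_right]
  rwa [sub_eq_add_neg] at hx

theorem oct_vol (hd : DihS) (hg : GirS) (u v w : E3) (h : LinearIndependent ℝ ![u, v, w]) :
    π ≤ onP dih 0 u v w + onP dih 0 v u w + onP dih 0 w u v ∧ volume (oct u v w ∩ ball 0 1) =
      ENNReal.ofReal ((onP dih 0 u v w + onP dih 0 v u w + onP dih 0 w u v - π) / 3) := by
  have g := (hg u v w h).2
  rw [hd u v w h, hd v u w (li_a h), hd w u v (li_a (li_b h))] at g
  have f : volume (oct u v w ∩ ball 0 1) ≠ ⊤ :=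
    ne_top_of_le_ne_top measure_ball_lt_top.ne (measure_mono inter_subset_right)
  have n1 := onP_nonneg 0 u v w
  have n2 := onP_nonneg 0 v u w
  have n3 := onP_nonneg 0 w u v
  have hx := ENNReal.toReal_nonneg (a := volume (oct u v w ∩ ball 0 1))
  have hp := pi_pos
  have g' := congrArg ENNReal.toReal g
  rw [ENNReal.toReal_add (ENNReal.mul_ne_top (by simp) f) ENNReal.ofReal_ne_top,
    ENNReal.toReal_add (by simp) ENNReal.ofReal_ne_top,
    ENNReal.toReal_add ENNReal.ofReal_ne_top ENNReal.ofReal_ne_top, ENNReal.toReal_mul,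
    ENNReal.toReal_ofReal (by positivity), ENNReal.toReal_ofReal (by positivity),
    ENNReal.toReal_ofReal (by positivity), ENNReal.toReal_ofReal (by positivity),
    ENNReal.toReal_ofNat] at g'
  refine ⟨by linarith, ?_⟩
  rw [← ENNReal.ofReal_toReal f]
  exact congrArg ENNReal.ofReal (by linarith)

end Tet

theorem tetS (hd : DihS) (hg : GirS) : TetS where
  swap p q r s := ⟨(Tet.sub_a p q r s).antisymm (Tet.sub_a q p r s),
    (Tet.sub_b p q r s).antisymm (Tet.sub_b p r q s),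
    (Tet.sub_c p q r s).antisymm (Tet.sub_c p q s r)⟩
  ind _ _ _ _ h := ⟨Tet.li_c h, Tet.li_a h, Tet.li_b h⟩
  sym x1 x2 x3 x4 x5 x6 := ⟨Tet.sym1 x1 x2 x3 x4 x5 x6, Tet.sym2 x1 x2 x3 x4 x5 x6,
    Tet.dih_nonneg x1 x2 x3 x4 x5 x6⟩
  edge p q r s h := by
    rw [← Tet.onP_shift dih p q r s, ← hd _ _ _ h]
    exact measure_mono (inter_subset_inter_left _
      (interior_maximal (Tet.wed_sub p q r s) (hg _ _ _ h).1))
  vert p q r s h := by
    obtain ⟨k1, k2⟩ := Tet.oct_vol hd hg _ _ _ h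
    rw [Tet.onP_shift, Tet.onP_shift, Tet.onP_shift] at k1 k2
    exact ⟨k1, k2 ▸ Tet.tet_le p q r s⟩

end Pool.Agent.Lib.MP_f3b2fd_co.KA
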