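import Pool.Agent.Lib.MP_f3b2fd_co.KEP.A.St

/-! Volume and circumradius of a tetrahedron. -/

namespace Pool.Agent.Lib.MP_f3b2fd_co.KA

open MeasureTheory Set Real Metric Filter Topology
open scoped ENNReal RealInnerProductSpace

namespace Vol

/-- area of the open triangle. -/
theorem tri (t : ℝ) (ht : 0 < t) :
    volume {y : Fin 2 → ℝ | 0 < y 0 ∧ 0 < y 1 ∧ y 0 + y 1 < t} = ENNReal.ofReal (t ^ 2 / 2) := by
  have hm : MeasurableSet (regionBetween (fun _ : ℝ => (0 : ℝ)) (fun x => t - x) (Ioo 0 t)) :=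
    measurableSet_regionBetween measurable_const (by fun_prop) measurableSet_Ioo
  have h1 := (volume_preserving_finTwoArrow ℝ).measure_preimage hm.nullMeasurableSet
  have h2 : (MeasurableEquiv.finTwoArrow (α := ℝ)) ⁻¹'
      (regionBetween (fun _ : ℝ => (0 : ℝ)) (fun x => t - x) (Ioo 0 t)) =
      {y : Fin 2 → ℝ | 0 < y 0 ∧ 0 < y 1 ∧ y 0 + y 1 < t} := by
    ext y
    simp only [regionBetween, mem_preimage, MeasurableEquiv.finTwoArrow_apply, mem_ofPred_eq,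
      mem_Ioo]
    constructor
    · rintro ⟨⟨a, _⟩, c, d⟩
      exact ⟨a, c, by linarith⟩
    · rintro ⟨a, b, c⟩
      exact ⟨⟨a, by linarith⟩, b, by linarith⟩
  rw [← h2, h1, Measure.volume_eq_prod, volume_regionBetween_eq_integral
    (integrableOn_const (by simp)) ?_ measurableSet_Ioo (fun x hx => by simpa using hx.2.le)]
  · congr 1
    rw [← integral_Ioc_eq_integral_Ioo, ← intervalIntegral.integral_of_le ht.le]
    have e : ((fun x : ℝ => t - x) - fun _ => (0 : ℝ)) = fun x => t - x := by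
      funext x; simp
    rw [e, intervalIntegral.integral_sub (by simp) (by simp)]
    simp only [intervalIntegral.integral_const, integral_id, smul_eq_mul]
    ring
  · exact ((by fun_prop : Continuous fun x : ℝ => t - x).integrableOn_Icc).mono_set
      Ioo_subset_Icc_self

/-- the open standard simplex. -/
def std : Set (Fin 3 → ℝ) := {x | 0 < x 0 ∧ 0 < x 1 ∧ 0 < x 2 ∧ x 0 + x 1 + x 2 < 1}

theorem std_open : IsOpen std := by
  have c : Continuous fun x : Fin 3 → ℝ => x 0 + x 1 + x 2 := by fun_prop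
  exact (isOpen_lt continuous_const (continuous_apply 0)).inter
    ((isOpen_lt continuous_const (continuous_apply 1)).inter
      ((isOpen_lt continuous_const (continuous_apply 2)).inter (isOpen_lt c continuous_const)))

theorem std_vol : volume std = ENNReal.ofReal (1 / 6) := by
  let S : Set (ℝ × (Fin 2 → ℝ)) :=
    {z | 0 < z.1 ∧ 0 < z.2 0 ∧ 0 < z.2 1 ∧ z.2 0 + z.2 1 < 1 - z.1}
  have hS : MeasurableSet S := by
    have c0 : Continuous fun z : ℝ × (Fin 2 → ℝ) => z.2 0 := by fun_prop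
    have c1 : Continuous fun z : ℝ × (Fin 2 → ℝ) => z.2 1 := by fun_prop
    have c2 : Continuous fun z : ℝ × (Fin 2 → ℝ) => 1 - z.1 := by fun_prop
    refine IsOpen.measurableSet ?_
    exact (isOpen_lt continuous_const continuous_fst).inter
      ((isOpen_lt continuous_const c0).inter
        ((isOpen_lt continuous_const c1).inter (isOpen_lt (c0.add c1) c2)))
  have h1 := (volume_preserving_piFinSuccAbove (fun _ : Fin 3 => ℝ) 0).measure_preimage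
    hS.nullMeasurableSet
  have h2 : (MeasurableEquiv.piFinSuccAbove (fun _ : Fin 3 => ℝ) 0) ⁻¹' S = std := by
    ext x
    change (0 < x 0 ∧ 0 < x 1 ∧ 0 < x 2 ∧ x 1 + x 2 < 1 - x 0) ↔
      (0 < x 0 ∧ 0 < x 1 ∧ 0 < x 2 ∧ x 0 + x 1 + x 2 < 1)
    constructor
    · rintro ⟨a, b, c, d⟩
      exact ⟨a, b, c, by linarith⟩
    · rintro ⟨a, b, c, d⟩
      exact ⟨a, b, c, by linarith⟩
  rw [← h2, h1, Measure.volume_eq_prod, Measure.prod_apply hS]
  have h3 : ∀ a : ℝ, volume (Prod.mk a ⁻¹' S) =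
      (Ioo (0 : ℝ) 1).indicator (fun a => ENNReal.ofReal ((1 - a) ^ 2 / 2)) a := by
    intro a
    by_cases ha : a ∈ Ioo (0 : ℝ) 1
    · rw [indicator_of_mem ha, ← tri (1 - a) (by linarith [ha.2])]
      congr 1
      ext y
      simp only [S, mem_preimage, mem_ofPred_eq, ha.1, true_and]
    · rw [indicator_of_notMem ha]
      have : Prod.mk a ⁻¹' S = ∅ := by
        ext y
        simp only [S, mem_preimage, mem_ofPred_eq, mem_empty_iff_false, iff_false]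
        rintro ⟨a1, b, c, d⟩
        exact ha ⟨a1, by linarith⟩
      rw [this, measure_empty]
  simp_rw [h3]
  rw [lintegral_indicator measurableSet_Ioo, ← ofReal_integral_eq_lintegral_ofReal
    (((by fun_prop : Continuous fun a : ℝ => (1 - a) ^ 2 / 2).integrableOn_Icc).mono_set
      Ioo_subset_Icc_self) (Eventually.of_forall fun a => by positivity)]
  congr 1
  rw [← integral_Ioc_eq_integral_Ioo, ← intervalIntegral.integral_of_le zero_le_one,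
    intervalIntegral.integral_div, intervalIntegral.integral_comp_sub_left (fun x => x ^ 2)]
  simp only [integral_pow]
  norm_num

theorem dsq (p q : E3) :
    dist p q ^ 2 = (q 0 - p 0) ^ 2 + (q 1 - p 1) ^ 2 + (q 2 - p 2) ^ 2 := by
  rw [EuclideanSpace.dist_sq_eq, Fin.sum_univ_three]
  simp only [Real.dist_eq, sq_abs]
  ring

theorem dsq' (p q r : E3) :
    dist q r ^ 2 = ((q 0 - p 0) - (r 0 - p 0)) ^ 2 + ((q 1 - p 1) - (r 1 - p 1)) ^ 2 +
      ((q 2 - p 2) - (r 2 - p 2)) ^ 2 := by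
  rw [dsq]
  ring

/-- the determinant of three vectors. -/
def dt (u0 u1 u2 v0 v1 v2 w0 w1 w2 : ℝ) : ℝ :=
  u0 * v1 * w2 - u0 * w1 * v2 - v0 * u1 * w2 + v0 * w1 * u2 + w0 * u1 * v2 - w0 * v1 * u2

theorem del_dt (u0 u1 u2 v0 v1 v2 w0 w1 w2 : ℝ) :
    del (u0 ^ 2 + u1 ^ 2 + u2 ^ 2) (v0 ^ 2 + v1 ^ 2 + v2 ^ 2) (w0 ^ 2 + w1 ^ 2 + w2 ^ 2)
      ((v0 - w0) ^ 2 + (v1 - w1) ^ 2 + (v2 - w2) ^ 2)
      ((u0 - w0) ^ 2 + (u1 - w1) ^ 2 + (u2 - w2) ^ 2)
      ((u0 - v0) ^ 2 + (u1 - v1) ^ 2 + (u2 - v2) ^ 2) =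
      4 * dt u0 u1 u2 v0 v1 v2 w0 w1 w2 ^ 2 := by
  unfold del dt
  ring

/-- the quadratic form of the adjugate of a symmetric matrix. -/
def qa (h1 h2 h3 g11 g22 g33 g12 g13 g23 : ℝ) : ℝ :=
  h1 ^ 2 * (g22 * g33 - g23 ^ 2) + h2 ^ 2 * (g11 * g33 - g13 ^ 2) +
    h3 ^ 2 * (g11 * g22 - g12 ^ 2) + 2 * h1 * h2 * (g13 * g23 - g12 * g33) +
    2 * h1 * h3 * (g12 * g23 - g13 * g22) + 2 * h2 * h3 * (g12 * g13 - g11 * g23)

theorem rho_qa (g11 g22 g33 g12 g13 g23 : ℝ) :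
    rho g11 g22 g33 (g22 + g33 - 2 * g23) (g11 + g33 - 2 * g13) (g11 + g22 - 2 * g12) =
      4 * qa g11 g22 g33 g11 g22 g33 g12 g13 g23 := by
  unfold rho qa
  ring

theorem qa_dt (u0 u1 u2 v0 v1 v2 w0 w1 w2 c0 c1 c2 : ℝ) :
    qa (2 * (u0 * c0 + u1 * c1 + u2 * c2)) (2 * (v0 * c0 + v1 * c1 + v2 * c2))
      (2 * (w0 * c0 + w1 * c1 + w2 * c2))
      (u0 ^ 2 + u1 ^ 2 + u2 ^ 2) (v0 ^ 2 + v1 ^ 2 + v2 ^ 2) (w0 ^ 2 + w1 ^ 2 + w2 ^ 2)
      (u0 * v0 + u1 * v1 + u2 * v2) (u0 * w0 + u1 * w1 + u2 * w2) (v0 * w0 + v1 * w1 + v2 * w2) =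
      4 * dt u0 u1 u2 v0 v1 v2 w0 w1 w2 ^ 2 * (c0 ^ 2 + c1 ^ 2 + c2 ^ 2) := by
  unfold qa dt
  ring

theorem rho_dt (u0 u1 u2 v0 v1 v2 w0 w1 w2 c0 c1 c2 : ℝ)
    (hu : u0 ^ 2 + u1 ^ 2 + u2 ^ 2 = 2 * (u0 * c0 + u1 * c1 + u2 * c2))
    (hv : v0 ^ 2 + v1 ^ 2 + v2 ^ 2 = 2 * (v0 * c0 + v1 * c1 + v2 * c2))
    (hw : w0 ^ 2 + w1 ^ 2 + w2 ^ 2 = 2 * (w0 * c0 + w1 * c1 + w2 * c2)) :
    rho (u0 ^ 2 + u1 ^ 2 + u2 ^ 2) (v0 ^ 2 + v1 ^ 2 + v2 ^ 2) (w0 ^ 2 + w1 ^ 2 + w2 ^ 2)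
      ((v0 - w0) ^ 2 + (v1 - w1) ^ 2 + (v2 - w2) ^ 2)
      ((u0 - w0) ^ 2 + (u1 - w1) ^ 2 + (u2 - w2) ^ 2)
      ((u0 - v0) ^ 2 + (u1 - v1) ^ 2 + (u2 - v2) ^ 2) =
      4 * (4 * dt u0 u1 u2 v0 v1 v2 w0 w1 w2 ^ 2) * (c0 ^ 2 + c1 ^ 2 + c2 ^ 2) := by
  have h := qa_dt u0 u1 u2 v0 v1 v2 w0 w1 w2 c0 c1 c2
  rw [← hu, ← hv, ← hw] at h
  have k := rho_qa (u0 ^ 2 + u1 ^ 2 + u2 ^ 2) (v0 ^ 2 + v1 ^ 2 + v2 ^ 2) (w0 ^ 2 + w1 ^ 2 + w2 ^ 2)
    (u0 * v0 + u1 * v1 + u2 * v2) (u0 * w0 + u1 * w1 + u2 * w2) (v0 * w0 + v1 * w1 + v2 * w2)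
  rw [h] at k
  rw [mul_assoc, ← k]
  congr 1 <;> ring

theorem onP_del (p q r s : E3) : onP del p q r s =
    4 * dt (q 0 - p 0) (q 1 - p 1) (q 2 - p 2) (r 0 - p 0) (r 1 - p 1) (r 2 - p 2)
      (s 0 - p 0) (s 1 - p 1) (s 2 - p 2) ^ 2 := by
  unfold onP
  rw [dsq p q, dsq p r, dsq p s, dsq' p r s, dsq' p q s, dsq' p q r, del_dt]

/-- the matrix with the three vectors as columns. -/
def mat (u v w : E3) : Matrix (Fin 3) (Fin 3) ℝ := Matrix.of fun i j => ![u, v, w] j i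

theorem mat_det (u v w : E3) :
    (mat u v w).det = dt (u 0) (u 1) (u 2) (v 0) (v 1) (v 2) (w 0) (w 1) (w 2) := by
  rw [Matrix.det_fin_three]
  simp [mat, dt]

theorem mat_apply (u v w : E3) (x : Fin 3 → ℝ) :
    Matrix.toLin' (mat u v w) x = (x 0 • u + x 1 • v + x 2 • w).ofLp := by
  funext i
  simp [mat, Matrix.mulVec, dotProduct, Fin.sum_univ_three, mul_comm]

theorem mat_ne (u v w : E3) (h : LinearIndependent ℝ ![u, v, w]) : (mat u v w).det ≠ 0 := by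
  intro h0
  obtain ⟨x, hx, hx0⟩ := Matrix.exists_mulVec_eq_zero_iff.2 h0
  refine hx (funext (Fintype.linearIndependent_iff.1 h x ?_))
  have := mat_apply u v w x
  rw [Matrix.toLin'_apply, hx0] at this
  rw [Fin.sum_univ_three]
  exact (WithLp.ofLp_eq_zero 2).1 this.symm

theorem tet_eq (p q r s : E3) : tet p q r s = WithLp.ofLp ⁻¹'
    ((fun z => z - p.ofLp) ⁻¹' (Matrix.toLin' (mat (q - p) (r - p) (s - p)) '' std)) := by
  ext x
  simp only [tet, mem_ofPred_eq, mem_preimage, mem_image, mat_apply]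
  constructor
  · rintro ⟨a, b, c, ha, hb, hc, h1, rfl⟩
    refine ⟨![a, b, c], ⟨ha, hb, hc, h1⟩, ?_⟩
    refine Eq.trans ?_ (WithLp.ofLp_sub 2 _ p)
    congr 1
    simp only [Matrix.cons_val_zero, Matrix.cons_val_one, Matrix.cons_val]
    abel
  · rintro ⟨z, ⟨ha, hb, hc, h1⟩, h⟩
    refine ⟨z 0, z 1, z 2, ha, hb, hc, h1, ?_⟩
    have h' := WithLp.ofLp_injective 2 (h.trans (WithLp.ofLp_sub 2 x p).symm)
    rw [eq_sub_iff_add_eq] at h'
    rw [← h']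
    abel

end Vol

theorem volS : VolS where
  vol := by
    intro p q r s h
    have hd := Vol.mat_ne _ _ _ h
    have e : onP del p q r s = 4 * (Vol.mat (q - p) (r - p) (s - p)).det ^ 2 := by
      rw [Vol.onP_del, Vol.mat_det]
      rfl
    have hsurj : Function.Surjective (Matrix.toLin' (Vol.mat (q - p) (r - p) (s - p))) :=
      Matrix.mulVec_surjective_iff_isUnit.2 ((Matrix.isUnit_iff_isUnit_det _).2 hd.isUnit)
    have ho : IsOpen (Matrix.toLin' (Vol.mat (q - p) (r - p) (s - p)) '' Vol.std) :=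
      LinearMap.isOpenMap_of_finiteDimensional _ hsurj _ Vol.std_open
    have ho' : IsOpen ((fun z => z - p.ofLp) ⁻¹'
        (Matrix.toLin' (Vol.mat (q - p) (r - p) (s - p)) '' Vol.std)) :=
      ho.preimage (by fun_prop)
    refine ⟨by rw [e]; positivity, ?_, ?_⟩
    · rw [Vol.tet_eq]
      exact ho'.preimage (PiLp.continuous_ofLp 2 _)
    · rw [Vol.tet_eq, (PiLp.volume_preserving_ofLp (Fin 3)).measure_preimage
        ho'.measurableSet.nullMeasurableSet,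
        (measurePreserving_sub_right volume p.ofLp).measure_preimage
          ho.measurableSet.nullMeasurableSet, Measure.addHaar_image_linearMap,
        LinearMap.det_toLin', Vol.std_vol, ← ENNReal.ofReal_mul (abs_nonneg _), e]
      congr 1
      rw [show 4 * (Vol.mat (q - p) (r - p) (s - p)).det ^ 2 =
        (2 * (Vol.mat (q - p) (r - p) (s - p)).det) ^ 2 by ring, Real.sqrt_sq_eq_abs, abs_mul,
        abs_two]
      ring
  rad := by
    intro p q r s y R hp hq hr hs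
    have k0 : R ^ 2 = (y 0 - p 0) ^ 2 + (y 1 - p 1) ^ 2 + (y 2 - p 2) ^ 2 := by
      rw [← hp, dist_comm, Vol.dsq]
    have k1 := Vol.dsq' p y q
    have k2 := Vol.dsq' p y r
    have k3 := Vol.dsq' p y s
    rw [hq, k0] at k1
    rw [hr, k0] at k2
    rw [hs, k0] at k3
    rw [Vol.onP_del, k0]
    unfold onP
    rw [Vol.dsq p q, Vol.dsq p r, Vol.dsq p s, Vol.dsq' p r s, Vol.dsq' p q s, Vol.dsq' p q r]
    exact Vol.rho_dt _ _ _ _ _ _ _ _ _ _ _ _ (by linear_combination (-1 : ℝ) * k1)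
      (by linear_combination (-1 : ℝ) * k2) (by linear_combination (-1 : ℝ) * k3)

end Pool.Agent.Lib.MP_f3b2fd_co.KA
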