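import Pool.Agent.Lib.MP_f3b2fd_co.KEP.A.Union
import Pool.Agent.Lib.MP_f3b2fd_co.KEP.A.Obt
import Pool.Agent.Lib.MP_f3b2fd_co.KEP.A.Cover
import Pool.Agent.Lib.MP_f3b2fd_co.KEP.A.Disj
import Pool.Agent.Lib.MP_f3b2fd_co.KEP.A.Rev
import Pool.Agent.Lib.MP_f3b2fd_co.KEP.A.Dih
import Pool.Agent.Lib.MP_f3b2fd_co.KEP.A.Gir
import Pool.Agent.Lib.MP_f3b2fd_co.KEP.A.Vol
import Pool.Agent.Lib.MP_f3b2fd_co.KEP.A.Tet
import Pool.Agent.Lib.MP_f3b2fd_co.KEP.A.Good1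
import Pool.Agent.Lib.MP_f3b2fd_co.KEP.A.Good2
import Pool.Agent.Lib.MP_f3b2fd_co.KEP.A.Good3
import Pool.Agent.Lib.MP_f3b2fd_co.KEP.A.Good4

/-! Part A, closed. -/

namespace Pool.Agent.Lib.MP_f3b2fd_co.KA

theorem allA : AS :=
  partA union final (cover obt) (disjS obt) (good1 (disjS obt)) (good2 rev (disjS obt))
    (good3 (tetS dihS gir) volS (disjS obt) union) (good4 (tetS dihS gir) volS (disjS obt) obt)

end Pool.Agent.Lib.MP_f3b2fd_co.KA
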