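import Pool.Agent.Lib.MP_f3b2fd_co.KEP.A.St2
import Pool.Agent.Lib.MP_f3b2fd_co.KEP.A.Good3

/-! The pieces of the cells with three vertices. -/

namespace Pool.Agent.Lib.MP_f3b2fd_co.KA

open MeasureTheory Set Real Metric Filter Topology
open scoped ENNReal RealInnerProductSpace

namespace Dec3

open Good3

/-- the facts along one edge. -/
def Eg (X : Set E3) (v w : E3) (D : ℝ) : Prop :=
  MeasurableSet (wdg X (midpoint ℝ v w)) ∧
    (∀ x ∈ X, x - midpoint ℝ v w ∈ wdg X (midpoint ℝ v w)) ∧ th X v w = D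

theorem edg (ht : TetS) (h2 : Tet2S) {p y q r : E3} {X : Set E3} (hX : X = tet p y q r)
    (h : LinearIndependent ℝ ![y - p, q - p, r - p]) :
    Eg X p q (onP dih p q y r) ∧ Eg X p r (onP dih p r y q) := by
  subst hX
  constructor
  · rw [(ht.swap p y q r).2.1]
    exact (h2 p q y r (ht.ind p y q r h).2.1).2
  · rw [(ht.swap p y q r).2.2, (ht.swap p y r q).2.1]
    exact (h2 p r y q (ht.ind p y r q (ht.ind p y q r h).2.2).2.1).2

theorem all6 {p q r : E3} {Q : E3 → E3 → Prop} (a : Q p q) (b : Q p r) (c : Q q p) (d : Q q r)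
    (e : Q r p) (f : Q r q) :
    ∀ v ∈ ({p, q, r} : Finset E3), ∀ w ∈ ({p, q, r} : Finset E3), v ≠ w → Q v w := by
  intro v hv w hw h
  simp only [Finset.mem_insert, Finset.mem_singleton] at hv hw
  rcases hv with rfl | rfl | rfl <;> rcases hw with rfl | rfl | rfl <;>
    first | assumption | exact absurd rfl h

theorem nsq {y p : E3} (a : dist y p = √2) : ‖p - y‖ ^ 2 = 2 := by
  rw [← dist_eq_norm, dist_comm, a, sq_sqrt (by norm_num)]

theorem dsq {y p q : E3} (a : dist y p = √2) (b : dist y q = √2) :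
    dist p q ^ 2 = 4 - 2 * ⟪p - y, q - y⟫ := by
  rw [dist_eq_norm, show p - q = (p - y) - (q - y) by abel, norm_sub_sq_real, nsq a, nsq b]
  ring

theorem lt8 {y p q r : E3} (a : dist y p = √2) (b : dist y q = √2)
    (h : LinearIndependent ℝ ![p - y, q - y, r - y]) : dist p q ^ 2 < 8 := by
  have n : (p - y) + (q - y) ≠ 0 := fun e => by
    have := Fintype.linearIndependent_iff.1 h ![1, 1, 0] (by
      rw [Fin.sum_univ_three]
      simpa using e) 0
    simp at this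
  have k := pow_pos (norm_pos_iff.2 n) 2
  rw [norm_add_sq_real, nsq a, nsq b] at k
  rw [dsq a b]
  linarith

theorem sum18 {y p q r : E3} (a : dist y p = √2) (b : dist y q = √2) (c : dist y r = √2) :
    dist q r ^ 2 + dist p r ^ 2 + dist p q ^ 2 ≤ 18 := by
  have k := sq_nonneg ‖(p - y) + (q - y) + (r - y)‖
  rw [norm_add_sq_real, norm_add_sq_real, inner_add_left, nsq a, nsq b, nsq c] at k
  rw [dsq a b, dsq a c, dsq b c]
  linarith

theorem acu {x y z : ℝ} (a : 0 ≤ x) (b : x ≤ y + z) : dih x 2 y 2 z 2 ≤ π / 2 := by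
  have : 0 ≤ del4 x 2 y 2 z 2 := by
    have e : del4 x 2 y 2 z 2 = x * (y + z - x) := by unfold del4; ring
    rw [e]
    exact mul_nonneg a (by linarith)
  unfold dih
  linarith [arctan_nonneg.2 (div_nonneg this (sqrt_nonneg (4 * x * del x 2 y 2 z 2)))]

theorem sht {x : ℝ} (h : x ^ 2 < 8) : x < 2 * √2 := by
  have s : √2 * √2 = 2 := mul_self_sqrt (by norm_num)
  exact lt_of_pow_lt_pow_left₀ 2 (by positivity) (by nlinarith)

theorem one (ht : TetS) (h2t : Tet2S) (hv : VolS) (hd : DisjS) {a : ℝ} {P : ℕ → ℝ → ℝ → ℝ}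
    {V : Finset E3} {p q r : E3} (ha : 0 ≤ a) (g3 : G3p a P) (hV : Pack V)
    (h1 : p ≠ q) (h2 : p ≠ r) (h3 : q ≠ r) (hS : {p, q, r} ⊆ V) {y : E3}
    (hy : y ∈ YY V p q r) : Piece a P V {p, q, r} (tet y p q r) := by
  have hsub : tet y p q r ⊆ cell V {p, q, r} := by
    rw [cell_eq V h1 h2 h3]
    exact subset_iUnion₂ (s := fun y (_ : y ∈ (fin V p q r).toFinset) => tet y p q r) y
      ((fin V p q r).mem_toFinset.2 hy)
  obtain ⟨-, dp, dq, dr, li⟩ := hy
  obtain ⟨v1, v2, v3⟩ := hv.vol y p q r li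
  have lq := (ht.ind y p q r li).2.1
  have l2 := (ht.ind y p q r li).2.2
  have lr := (ht.ind y p r q l2).2.1
  have xq := (ht.swap y p q r).2.1.trans (ht.swap y q p r).1
  have xr := (ht.swap y p q r).2.2.trans ((ht.swap y p r q).2.1.trans (ht.swap y r p q).1)
  obtain ⟨p0, p1, -, -⟩ := vtx ht (ht.swap y p q r).1 (ht.ind y p q r li).1
  obtain ⟨q0, q1, -, -⟩ := vtx ht xq (ht.ind y q p r lq).1
  obtain ⟨r0, r1, -, -⟩ := vtx ht xr (ht.ind y r p q lr).1
  obtain ⟨p2, p3⟩ := edg ht h2t (ht.swap y p q r).1 (ht.ind y p q r li).1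
  obtain ⟨q2, q3⟩ := edg ht h2t xq (ht.ind y q p r lq).1
  obtain ⟨r2, r3⟩ := edg ht h2t xr (ht.ind y r p q lr).1
  have mp : p ∈ V := hS (by simp)
  have mq : q ∈ V := hS (by simp)
  have mr : r ∈ V := hS (by simp)
  have a4 := (sq_bd dq dr (hV q mq r mr h3)).1
  have a5 := (sq_bd dp dr (hV p mp r mr h2)).1
  have a6 := (sq_bd dp dq (hV p mp q mq h1)).1
  have b4 := lt8 dq dr (ht.ind y q p r lq).2.2
  have b5 := lt8 dp dr l2
  have b6 := lt8 dp dq li
  have s2 : √2 ^ 2 = 2 := sq_sqrt (by norm_num)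
  simp only [onP, dist_comm p y, dist_comm q y, dist_comm r y, dist_comm q p, dist_comm r p,
    dist_comm r q, dp, dq, dr, s2] at v1 v3 p0 p1 p2 p3 q0 q1 q2 q3 r0 r1 r2 r3
  have g := g3 _ _ _ a4 a5 a6 b4 b5 b6 (sum18 dp dq dr) v1
  rw [← (ht.sym 2 2 2 _ _ _).2.1] at p0 p1 q0 q1 r0 r1
  rw [← (ht.sym (dist p q ^ 2) 2 (dist p r ^ 2) 2 (dist q r ^ 2) 2).2.1] at q0 q1 q2
  rw [← (ht.sym (dist p r ^ 2) 2 (dist p q ^ 2) 2 (dist q r ^ 2) 2).2.1] at r0 r1 r2
  rw [← (ht.sym (dist q r ^ 2) 2 (dist p q ^ 2) 2 (dist p r ^ 2) 2).2.1] at r0 r1 r3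
  have n4 : dih (dist q r ^ 2) 2 (dist p q ^ 2) 2 (dist p r ^ 2) 2 ≤ π / 2 :=
    acu (by linarith) (by linarith)
  have n5 : dih (dist p r ^ 2) 2 (dist p q ^ 2) 2 (dist q r ^ 2) 2 ≤ π / 2 :=
    acu (by linarith) (by linarith)
  have n6 : dih (dist p q ^ 2) 2 (dist p r ^ 2) 2 (dist q r ^ 2) 2 ≤ π / 2 :=
    acu (by linarith) (by linarith)
  generalize dih (dist q r ^ 2) 2 (dist p q ^ 2) 2 (dist p r ^ 2) 2 = E4 at *
  generalize dih (dist p r ^ 2) 2 (dist p q ^ 2) 2 (dist q r ^ 2) 2 = E5 at *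
  generalize dih (dist p q ^ 2) 2 (dist p r ^ 2) 2 (dist q r ^ 2) 2 = E6 at *
  generalize dih 2 2 2 (dist q r ^ 2) (dist p r ^ 2) (dist p q ^ 2) = A4 at *
  generalize dih 2 2 2 (dist p r ^ 2) (dist q r ^ 2) (dist p q ^ 2) = A5 at *
  generalize dih 2 2 2 (dist p q ^ 2) (dist q r ^ 2) (dist p r ^ 2) = A6 at *
  have hc : ({p, q, r} : Finset E3).card = 3 := Finset.card_eq_three.2 ⟨p, q, r, h1, h2, h3, rfl⟩
  have c4 := sht b4
  have c5 := sht b5
  have c6 := sht b6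
  refine ⟨v2.measurableSet, by omega, fun v hv w hw => ?_,
    all6 p2.1 p3.1 q2.1 q3.1 r2.1 r3.1, all6 p2.2.1 p3.2.1 q2.2.1 q3.2.1 r2.2.1 r3.2.1,
    fun _ => all6 (Q := fun v w => th (tet y p q r) v w ≤ π / 2) (p2.2.2.trans_le n6)
      (p3.2.2.trans_le n5) (q2.2.2.trans_le n6) (q3.2.2.trans_le n4) (r2.2.2.trans_le n5)
      (r3.2.2.trans_le n4), ?_⟩
  · by_cases e : v = w
    · rw [e, dist_self]
      positivity
    · exact all6 (Q := fun v w => dist v w < 2 * √2) c6 c5 (by rwa [dist_comm]) c4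
        (by rwa [dist_comm]) (by rwa [dist_comm]) v hv w hw e
  have L : ∑ v ∈ V, (volume (tet y p q r ∩ ball v 1)).toReal =
      ∑ v ∈ ({p, q, r} : Finset E3), (volume (tet y p q r ∩ ball v 1)).toReal := by
    refine (Finset.sum_subset hS fun v a b => ?_).symm
    rw [measure_mono_null (inter_subset_inter_left _ hsub)
      (by rw [hd.far V _ hV hS v a b, measure_empty]), ENNReal.toReal_zero]
  have e1 : ({p, q, r} : Finset E3).erase p = {q, r} := Finset.erase_insert (by simp [h1, h2])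
  have e2 : ({p, q, r} : Finset E3).erase q = {p, r} := by
    rw [Finset.insert_comm]
    exact Finset.erase_insert (by simp [h1.symm, h3])
  have e3 : ({p, q, r} : Finset E3).erase r = {p, q} := by
    rw [Finset.pair_comm q r, Finset.insert_comm]
    exact Finset.erase_insert (by simp [h2.symm, h3.symm])
  rw [L, sum3 h1 h2 h3, sum3 h1 h2 h3, v3, e1, e2, e3, Finset.sum_pair h3, Finset.sum_pair h2,
    Finset.sum_pair h1, hc, p2.2.2, p3.2.2, q2.2.2, q3.2.2, r2.2.2, r3.2.2, dist_comm q p,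
    dist_comm r p, dist_comm r q, ENNReal.toReal_ofReal (by positivity)]
  have t1 := ENNReal.toReal_le_of_le_ofReal p0 p1
  have t2 := ENNReal.toReal_le_of_le_ofReal q0 q1
  have t3 := ENNReal.toReal_le_of_le_ofReal r0 r1
  refine (mul_le_mul_of_nonneg_left (add_le_add (add_le_add t1 t2) t3) (by positivity)).trans ?_
  have e : a / π * π = a := div_mul_cancel₀ a pi_ne_zero
  simp only [mul_div_assoc] at g ⊢
  generalize a / π = c at *
  nlinarith

end Dec3

theorem dec3 (ht : TetS) (h2 : Tet2S) (hv : VolS) (hd : DisjS) : Dec3S := by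
  classical
  intro a P V S ha g3 hV hS hc
  obtain ⟨p, q, r, h1, h3, h4, rfl⟩ := Finset.card_eq_three.1 hc
  refine ⟨(Good3.fin V p q r).toFinset.image fun y => tet y p q r, fun X hX => ?_,
    fun X hX Y hY hn => ?_, ?_⟩
  · obtain ⟨y, hy, rfl⟩ := Finset.mem_image.1 hX
    exact Dec3.one ht h2 hv hd ha g3 hV h1 h3 h4 hS ((Good3.fin V p q r).mem_toFinset.1 hy)
  · obtain ⟨y, hy, rfl⟩ := Finset.mem_image.1 hX
    obtain ⟨y', hy', rfl⟩ := Finset.mem_image.1 hY
    exact Good3.disj hd h1 h3 h4 hS ((Good3.fin V p q r).mem_toFinset.1 hy)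
      ((Good3.fin V p q r).mem_toFinset.1 hy') fun e => hn (by rw [e])
  · rw [Good3.cell_eq V h1 h3 h4, Finset.set_biUnion_finset_image]

end Pool.Agent.Lib.MP_f3b2fd_co.KA
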