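import Pool.Agent.Lib.MP_f3b2fd_co.KEP.A.St2
import Pool.Agent.Lib.MP_f3b2fd_co.KEP.A.Good4

/-! The corrected cell inequality for cells with four vertices. -/

namespace Pool.Agent.Lib.MP_f3b2fd_co.KA

open MeasureTheory Set Real Metric Filter Topology
open scoped ENNReal RealInnerProductSpace

namespace Dec4

open Good4

theorem face {y p q r : E3} {R : ℝ} (hp : dist y p = R) (hq : dist y q = R) (hr : dist y r = R) :
    dist p q ^ 2 + dist p r ^ 2 + dist q r ^ 2 ≤ 9 * R ^ 2 := by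
  have h1 : R ^ 2 = dist y p ^ 2 := by rw [hp]
  have h2 : R ^ 2 = dist y q ^ 2 := by rw [hq]
  have h3 : R ^ 2 = dist y r ^ 2 := by rw [hr]
  simp only [EuclideanSpace.dist_sq_eq, Fin.sum_univ_three, Real.dist_eq, sq_abs] at h1 h2 h3 ⊢
  nlinarith [sq_nonneg (p 0 + q 0 + r 0 - 3 * y 0), sq_nonneg (p 1 + q 1 + r 1 - 3 * y 1),
    sq_nonneg (p 2 + q 2 + r 2 - 3 * y 2)]

theorem tetPiece (ht : TetS) (h2 : Tet2S) (hv : VolS) {a : ℝ} {P : ℕ → ℝ → ℝ → ℝ} {V : Finset E3}
    {p q r s : E3} (ha : 0 ≤ a)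
    (hpq : p ≠ q) (hpr : p ≠ r) (hps : p ≠ s) (hqr : q ≠ r) (hqs : q ≠ s) (hrs : r ≠ s)
    (hS : ({p, q, r, s} : Finset E3) ⊆ V) (hc : ({p, q, r, s} : Finset E3).card = 4)
    (i1 : LinearIndependent ℝ ![q - p, r - p, s - p])
    (hfar : ∀ v ∈ V, v ∉ ({p, q, r, s} : Finset E3) → tet p q r s ∩ ball v 1 = ∅)
    (hsh : ∀ v ∈ ({p, q, r, s} : Finset E3), ∀ w ∈ ({p, q, r, s} : Finset E3),
      dist v w < 2 * √2)
    (hG : 0 ≤ √(onP del p q r s) / 12 + 8 * a -
      4 * a / π * (onP dih p q r s + onP dih p r q s + onP dih p s q r +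
        onP dih r s p q + onP dih q s p r + onP dih q r p s) +
      (P 4 (dist p q ^ 2) (onP dih p q r s) + P 4 (dist p r ^ 2) (onP dih p r q s) +
        P 4 (dist p s ^ 2) (onP dih p s q r) + P 4 (dist r s ^ 2) (onP dih r s p q) +
        P 4 (dist q s ^ 2) (onP dih q s p r) + P 4 (dist q r ^ 2) (onP dih q r p s))) :
    Piece a P V {p, q, r, s} (tet p q r s) := by
  classical
  obtain ⟨-, hop, hvol⟩ := hv.vol p q r s i1
  have A := fun p q r s => (ht.swap p q r s).1
  have B := fun p q r s => (ht.swap p q r s).2.1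
  have C := fun p q r s => (ht.swap p q r s).2.2
  have iA := fun p q r s h => (ht.ind p q r s h).1
  have iB := fun p q r s h => (ht.ind p q r s h).2.1
  have iC := fun p q r s h => (ht.ind p q r s h).2.2
  obtain ⟨X, hX⟩ : ∃ X, X = tet p q r s := ⟨_, rfl⟩
  rw [← hX] at hop hvol hfar ⊢
  have j_prqs := iB _ _ _ _ i1
  have j_psqr := iB _ _ _ _ (iC _ _ _ _ i1)
  have j_qprs := iA _ _ _ _ i1
  have j_qrps := iB _ _ _ _ j_qprs
  have j_qspr := iB _ _ _ _ (iC _ _ _ _ j_qprs)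
  have j_rpqs := iA _ _ _ _ j_prqs
  have j_rqps := iB _ _ _ _ j_rpqs
  have j_rspq := iB _ _ _ _ (iC _ _ _ _ j_rpqs)
  have j_spqr := iA _ _ _ _ j_psqr
  have j_sqpr := iB _ _ _ _ j_spqr
  have j_srpq := iB _ _ _ _ (iC _ _ _ _ j_spqr)
  have t_prqs : X = tet p r q s := hX.trans (B _ _ _ _)
  have t_psqr : X = tet p s q r := hX.trans ((C _ _ _ _).trans (B _ _ _ _))
  have t_qprs : X = tet q p r s := hX.trans (A _ _ _ _)
  have t_qrps : X = tet q r p s := t_qprs.trans (B _ _ _ _)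
  have t_qspr : X = tet q s p r := t_qprs.trans ((C _ _ _ _).trans (B _ _ _ _))
  have t_rpqs : X = tet r p q s := t_prqs.trans (A _ _ _ _)
  have t_rqps : X = tet r q p s := t_rpqs.trans (B _ _ _ _)
  have t_rspq : X = tet r s p q := t_rpqs.trans ((C _ _ _ _).trans (B _ _ _ _))
  have t_spqr : X = tet s p q r := t_psqr.trans (A _ _ _ _)
  have t_sqpr : X = tet s q p r := t_spqr.trans (B _ _ _ _)
  have t_srpq : X = tet s r p q := t_spqr.trans ((C _ _ _ _).trans (B _ _ _ _))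
  have pair : ∀ v ∈ ({p, q, r, s} : Finset E3), ∀ w ∈ ({p, q, r, s} : Finset E3), v ≠ w →
      ∃ u z, LinearIndependent ℝ ![w - v, u - v, z - v] ∧ X = tet v w u z := by
    intro v hv w hw h
    simp only [Finset.mem_insert, Finset.mem_singleton] at hv hw
    rcases hv with rfl | rfl | rfl | rfl <;> rcases hw with rfl | rfl | rfl | rfl
    exacts [absurd rfl h, ⟨_, _, i1, hX⟩, ⟨_, _, j_prqs, t_prqs⟩, ⟨_, _, j_psqr, t_psqr⟩,
      ⟨_, _, j_qprs, t_qprs⟩, absurd rfl h, ⟨_, _, j_qrps, t_qrps⟩, ⟨_, _, j_qspr, t_qspr⟩,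
      ⟨_, _, j_rpqs, t_rpqs⟩, ⟨_, _, j_rqps, t_rqps⟩, absurd rfl h, ⟨_, _, j_rspq, t_rspq⟩,
      ⟨_, _, j_spqr, t_spqr⟩, ⟨_, _, j_sqpr, t_sqpr⟩, ⟨_, _, j_srpq, t_srpq⟩, absurd rfl h]
  have T : ∀ {v w u z : E3}, LinearIndependent ℝ ![w - v, u - v, z - v] → X = tet v w u z →
      th X v w = onP dih v w u z := fun hi h => h ▸ (h2 _ _ _ _ hi).2.2.2
  have Vx : ∀ {v w u z : E3}, LinearIndependent ℝ ![w - v, u - v, z - v] → X = tet v w u z →
      (volume (X ∩ ball v 1)).toReal ≤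
        (onP dih v w u z + onP dih v u w z + onP dih v z w u - π) / 3 := fun hi h => by
    obtain ⟨k1, k2⟩ := ht.vert _ _ _ _ hi
    rw [h]
    exact ENNReal.toReal_le_of_le_ofReal (by linarith) k2
  refine ⟨hop.measurableSet, hc.le, hsh, fun v hv w hw h => ?_, fun v hv w hw h => ?_,
    fun h => absurd (hc.symm.trans h) (by norm_num), ?_⟩
  · obtain ⟨u, z, hi, k⟩ := pair v hv w hw h
    exact k ▸ (h2 _ _ _ _ hi).2.1
  · obtain ⟨u, z, hi, k⟩ := pair v hv w hw h
    exact k ▸ (h2 _ _ _ _ hi).2.2.1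
  have v1 := Vx i1 hX
  have v2 := Vx j_qprs t_qprs
  have v3 := Vx j_rpqs t_rpqs
  have v4 := Vx j_spqr t_spqr
  have e1 := T i1 hX
  have e2 := T j_prqs t_prqs
  have e3 := T j_psqr t_psqr
  have e4 := T j_qprs t_qprs
  have e5 := T j_qrps t_qrps
  have e6 := T j_qspr t_qspr
  have e7 := T j_rpqs t_rpqs
  have e8 := T j_rqps t_rqps
  have e9 := T j_rspq t_rspq
  have e10 := T j_spqr t_spqr
  have e11 := T j_sqpr t_sqpr
  have e12 := T j_srpq t_srpq
  rw [← s2 ht p q r s] at v2 e4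
  rw [← s2 ht p r q s] at v3 e7
  rw [← s2 ht q r p s] at v3 e8
  rw [← s2 ht p s q r] at v4 e10
  rw [← s2 ht q s p r] at v4 e11
  rw [← s2 ht r s p q] at v4 e12
  have L1 : ∑ v ∈ V, (volume (X ∩ ball v 1)).toReal =
      ∑ v ∈ ({p, q, r, s} : Finset E3), (volume (X ∩ ball v 1)).toReal :=
    (Finset.sum_subset hS fun v hv hn => by
      rw [hfar v hv hn, measure_empty, ENNReal.toReal_zero]).symm
  have r1 : ({p, q, r, s} : Finset E3).erase p = {q, r, s} := by
    ext x; simp only [Finset.mem_erase, Finset.mem_insert, Finset.mem_singleton]; grind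
  have r2 : ({p, q, r, s} : Finset E3).erase q = {p, r, s} := by
    ext x; simp only [Finset.mem_erase, Finset.mem_insert, Finset.mem_singleton]; grind
  have r3 : ({p, q, r, s} : Finset E3).erase r = {p, q, s} := by
    ext x; simp only [Finset.mem_erase, Finset.mem_insert, Finset.mem_singleton]; grind
  have r4 : ({p, q, r, s} : Finset E3).erase s = {p, q, r} := by
    ext x; simp only [Finset.mem_erase, Finset.mem_insert, Finset.mem_singleton]; grind
  have s3 : ∀ (g : E3 → ℝ) (x y z : E3), x ≠ y → x ≠ z → y ≠ z →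
      ∑ w ∈ ({x, y, z} : Finset E3), g w = g x + (g y + g z) := fun g x y z h1 h2 h3 => by
    rw [Finset.sum_insert (by simp [h1, h2]), Finset.sum_pair h3]
  have s4 : ∀ g : E3 → ℝ,
      ∑ w ∈ ({p, q, r, s} : Finset E3), g w = g p + (g q + (g r + g s)) := fun g => by
    rw [Finset.sum_insert (by simp [hpq, hpr, hps]), s3 g q r s hqr hqs hrs]
  rw [L1, s4, s4, r1, r2, r3, r4, s3 _ _ _ _ hqr hqs hrs, s3 _ _ _ _ hpr hps hrs,
    s3 _ _ _ _ hpq hps hqs, s3 _ _ _ _ hpq hpr hqr, hvol, ENNReal.toReal_ofReal (by positivity),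
    hc, e1, e2, e3, e4, e5, e6, e7, e8, e9, e10, e11, e12, dist_comm q p, dist_comm r p,
    dist_comm r q, dist_comm s p, dist_comm s q, dist_comm s r]
  have k := mul_le_mul_of_nonneg_left (add_le_add v1 (add_le_add v2 (add_le_add v3 v4)))
    (by positivity : 0 ≤ 6 * a / π)
  have key : ∀ D1 D2 D3 D4 D5 D6 : ℝ, 6 * a / π * ((D1 + D2 + D3 - π) / 3 +
      ((D1 + D6 + D5 - π) / 3 + ((D2 + D6 + D4 - π) / 3 + (D3 + D5 + D4 - π) / 3))) =
      4 * a / π * (D1 + D2 + D3 + D4 + D5 + D6) - 8 * a := fun _ _ _ _ _ _ => by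
    field_simp
    ring
  rw [key] at k
  refine k.trans ?_
  clear * - hG
  linarith

end Dec4

open Dec4 in
theorem dec4 (ht : TetS) (h2 : Tet2S) (hv : VolS) (hd : DisjS) (ho : ObtS) : Dec4S := by
  classical
  intro a P V S ha g4 hV hS h4
  have no1 : ∀ y : E3, ¬ LinearIndependent ℝ fun v : S => (v : E3) - y := fun y h => by
    have := h.fintype_card_le_finrank
    simp at this
    omega
  rcases (cell V S).eq_empty_or_nonempty with he | ⟨x, y, R, t, hem, hyt, -, hk⟩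
  · exact ⟨∅, by simp, by simp, by simp [he]⟩
  obtain ⟨hR, -, hc⟩ := hk.resolve_left fun h => no1 y h.2.2
  obtain ⟨p, q, r, s, hpq, hpr, hps, hqr, hqs, hrs, rfl⟩ := Finset.card_eq_four.1 hc
  have mp : p ∈ ({p, q, r, s} : Finset E3) := by simp
  have mq : q ∈ ({p, q, r, s} : Finset E3) := by simp
  have mr : r ∈ ({p, q, r, s} : Finset E3) := by simp
  have ms : s ∈ ({p, q, r, s} : Finset E3) := by simp
  have hP : Pack {p, q, r, s} := fun v hv w hw h => hV v (hS hv) w (hS hw) h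
  have i0 := (ho.four _ y R hP (fun v hv => (hyt v hv).1) hR).2 p mp
  have i1 : LinearIndependent ℝ ![q - p, r - p, s - p] := by
    let e : Fin 3 → (({p, q, r, s} : Finset E3).erase p) :=
      ![⟨q, Finset.mem_erase.2 ⟨hpq.symm, mq⟩⟩, ⟨r, Finset.mem_erase.2 ⟨hpr.symm, mr⟩⟩,
        ⟨s, Finset.mem_erase.2 ⟨hps.symm, ms⟩⟩]
    have he : Function.Injective e := by
      intro i j h
      have h' := congrArg Subtype.val h
      fin_cases i <;> fin_cases j <;> simp_all [e, hqr.symm, hqs.symm, hrs.symm]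
    convert i0.comp e he using 1
    ext1 i
    fin_cases i <;> rfl
  have s4 : ∀ {M : Type} [AddCommMonoid M] (g : E3 → M),
      ∑ w ∈ ({p, q, r, s} : Finset E3), g w = g p + (g q + (g r + g s)) := fun g => by
    rw [Finset.sum_insert (by simp [hpq, hpr, hps]), Finset.sum_insert (by simp [hqr, hqs]),
      Finset.sum_pair hrs]
  have hcell : cell V {p, q, r, s} = tet p q r s := by
    ext z
    constructor
    · rintro ⟨y', R', t', -, h1, rfl, h2⟩
      obtain ⟨-, h3, -⟩ := h2.resolve_left fun h => no1 y' h.2.2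
      rw [s4] at h3
      refine ⟨t' q, t' r, t' s, (h1 q mq).2, (h1 r mr).2, (h1 s ms).2, by linarith [(h1 p mp).2], ?_⟩
      have : t' p = 1 - t' q - t' r - t' s := by linarith
      rw [s4, this]
      module
    · rintro ⟨α, β, γ, h1, h2, h3, h5, rfl⟩
      let u : E3 → ℝ := fun v => if v = q then α else if v = r then β else if v = s then γ
        else 1 - α - β - γ
      have u1 : u p = 1 - α - β - γ := by simp [u, hpq, hpr, hps]
      have u2 : u q = α := by simp [u]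
      have u3 : u r = β := by simp [u, hqr.symm]
      have u4 : u s = γ := by simp [u, hqs.symm, hrs.symm]
      refine ⟨y, R, u, hem, fun v hv => ⟨(hyt v hv).1, ?_⟩, ?_, Or.inr ⟨hR, ?_, hc⟩⟩
      · simp only [Finset.mem_insert, Finset.mem_singleton] at hv
        rcases hv with rfl | rfl | rfl | rfl
        · rw [u1]; linarith
        · rwa [u2]
        · rwa [u3]
        · rwa [u4]
      · rw [s4, u1, u2, u3, u4]
        module
      · rw [s4, u1, u2, u3, u4]
        ring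
  have hR0 : 0 ≤ R := (hyt p mp).1 ▸ dist_nonneg
  have hR2 : R ^ 2 < 2 := by
    have := pow_lt_pow_left₀ hR hR0 two_ne_zero
    rwa [sq_sqrt (by norm_num)] at this
  have lo : ∀ v ∈ ({p, q, r, s} : Finset E3), ∀ w ∈ ({p, q, r, s} : Finset E3), v ≠ w →
      4 ≤ dist v w ^ 2 := fun v hv w hw h => by nlinarith [hP v hv w hw h]
  have sh : ∀ v ∈ ({p, q, r, s} : Finset E3), ∀ w ∈ ({p, q, r, s} : Finset E3),
      dist v w ≤ 2 * R := fun v hv w hw => by
    have k := dist_triangle_left v w y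
    rw [(hyt v hv).1, (hyt w hw).1] at k
    linarith
  have hi : ∀ v ∈ ({p, q, r, s} : Finset E3), ∀ w ∈ ({p, q, r, s} : Finset E3),
      dist v w ^ 2 < 8 := fun v hv w hw => by
    nlinarith [sh v hv w hw, dist_nonneg (x := v) (y := w)]
  have hdel := (hv.vol p q r s i1).1
  have hrho := hv.rad p q r s y R (hyt p mp).1 (hyt q mq).1 (hyt r mr).1 (hyt s ms).1
  have f1 := face (hyt p mp).1 (hyt q mq).1 (hyt r mr).1
  have f2 := face (hyt p mp).1 (hyt q mq).1 (hyt s ms).1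
  have f3 := face (hyt p mp).1 (hyt r mr).1 (hyt s ms).1
  have f4 := face (hyt q mq).1 (hyt r mr).1 (hyt s ms).1
  have G := g4 _ _ _ _ _ _ (lo p mp q mq hpq) (lo p mp r mr hpr) (lo p mp s ms hps)
    (lo r mr s ms hrs) (lo q mq s ms hqs) (lo q mq r mr hqr) (hi p mp q mq) (hi p mp r mr)
    (hi p mp s ms) (hi r mr s ms) (hi q mq s ms) (hi q mq r mr) (by linarith) (by linarith)
    (by linarith) (by linarith) hdel (by
      change onP rho p q r s < 8 * onP del p q r s
      nlinarith)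
  refine ⟨{tet p q r s}, fun X hX => ?_, by simp, by simp [hcell]⟩
  rw [Finset.mem_singleton.1 hX]
  refine tetPiece ht h2 hv ha hpq hpr hps hqr hqs hrs hS hc i1
    (fun v hv hn => hcell ▸ hd.far V _ hV hS v hv hn)
    (fun v hv w hw => by linarith [sh v hv w hw]) ?_
  simp only [onP, dist_comm q p, dist_comm r p, dist_comm r q, dist_comm s p, dist_comm s q,
    dist_comm s r]
  exact G

end Pool.Agent.Lib.MP_f3b2fd_co.KA
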