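import Pool.Agent.Lib.MP_f3b2fd_co.KEP.A.St

/-! The cell inequality for cells with one vertex. -/

namespace Pool.Agent.Lib.MP_f3b2fd_co.KA

open MeasureTheory Set Real Metric
open scoped ENNReal Pointwise

namespace Good1

/-- the cone of directions from `v` to an empty point at distance `√2`. -/
def K (V : Finset E3) (v : E3) : Set E3 := {z | z ≠ 0 ∧ Em V (v + (√2 / ‖z‖) • z) √2}

theorem meas (V : Finset E3) (v : E3) : MeasurableSet (K V v) := by
  have : K V v = {0}ᶜ ∩ ⋂ w ∈ V, {z : E3 | √2 ≤ dist (v + (√2 / ‖z‖) • z) w} := by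
    ext z
    simp [K, Em]
  rw [this]
  refine (measurableSet_singleton _).compl.inter (V.measurableSet_biInter fun w _ => ?_)
  exact measurableSet_le measurable_const (by fun_prop)

theorem cone (V : Finset E3) (v z : E3) {c : ℝ} (hc : 0 < c) : c • z ∈ K V v ↔ z ∈ K V v := by
  have : (√2 / ‖c • z‖) • c • z = (√2 / ‖z‖) • z := by
    rw [smul_smul, norm_smul, Real.norm_of_nonneg hc.le]
    congr 1
    by_cases h : ‖z‖ = 0
    · simp [h]
    · field_simp
  simp only [K, mem_ofPred_eq, this, ne_eq, smul_eq_zero, hc.ne', false_or]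

theorem scale (V : Finset E3) (v : E3) :
    K V v ∩ ball 0 √2 = (√2 : ℝ) • (K V v ∩ ball 0 1) := by
  have h2 : (0 : ℝ) < √2 := by positivity
  ext z
  rw [mem_smul_set_iff_inv_smul_mem₀ h2.ne', mem_inter_iff, mem_inter_iff,
    cone V v z (inv_pos.2 h2), mem_ball_zero_iff, mem_ball_zero_iff, norm_smul,
    Real.norm_of_nonneg (inv_pos.2 h2).le, inv_mul_lt_iff₀ h2, mul_one]

theorem cell_eq (V : Finset E3) (v : E3) :
    cell V {v} = (fun x => x + -v) ⁻¹' (K V v ∩ ball 0 √2) := by
  have h2 : (0 : ℝ) < √2 := by positivity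
  ext x
  simp only [cell, mem_ofPred_eq, Finset.mem_singleton, forall_eq, Finset.sum_singleton,
    Finset.card_singleton, mem_preimage, mem_inter_iff, mem_ball_zero_iff]
  constructor
  · rintro ⟨y, r, t, hE, ⟨hr, ht⟩, rfl, ⟨rfl, h1, -⟩ | ⟨-, -, h⟩⟩
    · have e : y + t v • (v - y) + -v = (1 - t v) • (y - v) := by module
      rw [dist_eq_norm] at hr
      rw [e, cone V v _ (sub_pos.2 h1), norm_smul, Real.norm_of_nonneg (sub_pos.2 h1).le, hr]
      refine ⟨⟨fun h => ?_, ?_⟩, by nlinarith⟩
      · rw [h, norm_zero] at hr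
        exact h2.ne hr
      · rw [hr, div_self h2.ne', one_smul, add_sub_cancel]
        exact hE
    · omega
  · rintro ⟨⟨h0, hE⟩, h1⟩
    set z := x + -v with hz
    have hn : 0 < ‖z‖ := norm_pos_iff.2 h0
    refine ⟨v + (√2 / ‖z‖) • z, √2, fun _ => 1 - ‖z‖ / √2, hE, ⟨?_, ?_⟩, ?_,
      Or.inl ⟨rfl, ?_, ?_⟩⟩
    · rw [dist_eq_norm, add_sub_cancel_left, norm_smul, Real.norm_of_nonneg (by positivity)]
      field_simp
    · rw [sub_pos, div_lt_one h2]
      exact h1
    · have e : (‖z‖ / √2) • (√2 / ‖z‖) • z = z := by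
        rw [smul_smul, show ‖z‖ / √2 * (√2 / ‖z‖) = 1 by field_simp, one_smul]
      have : x = v + z := by rw [hz]; abel
      rw [this]
      nth_rewrite 1 [← e]
      module
    · have : 0 < ‖z‖ / √2 := by positivity
      linarith
    · rw [linearIndependent_unique_iff]
      have : ((default : ({v} : Finset E3)) : E3) = v := Finset.mem_singleton.1 (Subtype.prop _)
      rw [this, sub_add_cancel_left, neg_ne_zero]
      exact smul_ne_zero (by positivity) h0

end Good1

theorem good1 (hd : DisjS) : Good1S := by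
  intro a b f V v hab hV hv
  have m := ((Good1.meas V v).inter (measurableSet_ball (x := 0) (ε := √2))).preimage
    (measurable_add_const (-v))
  refine ⟨by rw [Good1.cell_eq]; exact m, fun _ _ => ∅,
    fun _ _ => ⟨MeasurableSet.empty, empty_subset _⟩, le_add_right ?_⟩
  rw [Finset.sum_eq_single_of_mem v hv fun w hw h => by
    rw [hd.far V {v} hV (by simpa using hv) w hw (by simpa using h), measure_empty]]
  have s : cell V {v} ∩ ball v 1 ⊆ (fun x => x + -v) ⁻¹' (Good1.K V v ∩ ball 0 1) := by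
    rw [Good1.cell_eq]
    rintro x ⟨h1, h2⟩
    refine ⟨h1.1, ?_⟩
    change x + -v ∈ ball 0 1
    rwa [mem_ball_zero_iff, ← sub_eq_add_neg, ← dist_eq_norm]
  refine (mul_le_mul' (ENNReal.ofReal_le_ofReal hab) (measure_mono s)).trans (le_of_eq ?_)
  rw [Good1.cell_eq, measure_preimage_add_right, measure_preimage_add_right, Good1.scale,
    Measure.addHaar_smul, finrank_euclideanSpace_fin, abs_of_nonneg (by positivity)]
  congr 2
  rw [show (8 : ℝ) = 2 * 2 * 2 by norm_num, Real.sqrt_mul (by norm_num),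
    Real.sqrt_mul (by norm_num)]
  ring

end Pool.Agent.Lib.MP_f3b2fd_co.KA
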