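import Pool.Agent.Lib.MP_f3b2fd_co.KEP.A.Fin2b
import Pool.Agent.Lib.MP_f3b2fd_co.KEP.A.Obt
import Pool.Agent.Lib.MP_f3b2fd_co.KEP.A.Cover2
import Pool.Agent.Lib.MP_f3b2fd_co.KEP.A.Disj
import Pool.Agent.Lib.MP_f3b2fd_co.KEP.A.Rev
import Pool.Agent.Lib.MP_f3b2fd_co.KEP.A.Dih
import Pool.Agent.Lib.MP_f3b2fd_co.KEP.A.Gir
import Pool.Agent.Lib.MP_f3b2fd_co.KEP.A.Vol
import Pool.Agent.Lib.MP_f3b2fd_co.KEP.A.Tet
import Pool.Agent.Lib.MP_f3b2fd_co.KEP.A.Good1
import Pool.Agent.Lib.MP_f3b2fd_co.KEP.A.Dec2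
import Pool.Agent.Lib.MP_f3b2fd_co.KEP.A.Dec3
import Pool.Agent.Lib.MP_f3b2fd_co.KEP.A.Dec4

/-! Part A with the correction, closed. -/

set_option autoImplicit false

namespace Pool.Agent.Lib.MP_f3b2fd_co.KA

open MeasureTheory Set Real Metric Filter Topology
open scoped ENNReal Pointwise

theorem far2b : Far2S := by
  intro V S hV hS v hv hn
  rw [eq_empty_iff_forall_notMem]
  rintro x ⟨⟨y, r, t, hE, h, hx, hk⟩, hb⟩
  have e := Disj.ident v (fun w hw => (h w hw).1) hx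
  have p1 : (∑ w ∈ S, t w) * 4 ≤ ∑ w ∈ S, t w * dist v w ^ 2 := by
    rw [Finset.sum_mul]
    refine Finset.sum_le_sum fun w hw => mul_le_mul_of_nonneg_left ?_ (h w hw).2.le
    have := hV v hv w (hS hw) fun k => hn (k ▸ hw)
    nlinarith
  have s2 : √2 ^ 2 = 2 := sq_sqrt zero_le_two
  have p2 : dist v x ^ 2 < 2 := by
    rw [mem_ball, dist_comm] at hb
    rw [← s2]
    exact pow_lt_pow_left₀ hb dist_nonneg two_ne_zero
  have p3 := sq_nonneg (dist y x)
  rcases hk with ⟨c1, c2, -⟩ | ⟨c1, c2, c3⟩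
  · have p4 : r ^ 2 ≤ dist y v ^ 2 := pow_le_pow_left₀ (c1 ▸ sqrt_nonneg 2) (hE v hv) 2
    have p5 := mul_le_mul_of_nonneg_left p4 (sub_nonneg.2 c2.le)
    rw [c1, s2] at e p5
    linarith
  · obtain ⟨a, ha⟩ := Finset.card_pos.1 (by omega : 0 < S.card)
    have p4 : r ^ 2 ≤ √2 ^ 2 := pow_le_pow_left₀ ((h a ha).1 ▸ dist_nonneg) c1.le 2
    rw [c2] at e p1
    linarith

theorem tet2b (hd : DihS) (hg : GirS) : Tet2S := by
  intro p q r s h
  have hm : midpoint ℝ p q = p + (1 / 2 : ℝ) • (q - p) := by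
    rw [midpoint_eq_smul_add, invOf_eq_inv]; module
  have k : ∀ x ∈ tet p q r s, x - midpoint ℝ p q ∈ wed (q - p) (r - p) (s - p) := by
    rintro x ⟨a, b, c, -, hb, hc, -, rfl⟩
    exact ⟨a - 1 / 2, b, c, hb, hc, by rw [hm]; module⟩
  have e : wdg (tet p q r s) (midpoint ℝ p q) = wed (q - p) (r - p) (s - p) := by
    refine Subset.antisymm (fun z hz => ?_) (Tet.wed_sub p q r s)
    have hz' : ∀ᶠ t in 𝓝[>] (0 : ℝ), midpoint ℝ p q + t • z ∈ tet p q r s := hz
    have e3 : ∀ᶠ t in 𝓝[>] (0 : ℝ), 0 < t := self_mem_nhdsWithin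
    obtain ⟨t, h1, h2⟩ := (hz'.and e3).exists
    obtain ⟨a, b, c, hb, hc, e⟩ := k _ h1
    rw [add_sub_cancel_left] at e
    refine ⟨t⁻¹ * a, t⁻¹ * b, t⁻¹ * c, by positivity, by positivity, ?_⟩
    rw [← inv_smul_smul₀ h2.ne' z, e]
    module
  refine ⟨e, e ▸ (hg _ _ _ h).1.measurableSet, fun x hx => e ▸ k x hx, ?_⟩
  have := Tet.onP_nonneg p q r s
  rw [th, e, hd _ _ _ h, Tet.onP_shift, ENNReal.toReal_ofReal (by positivity)]
  ring

theorem dec1b (hd : DisjS) : Dec1S := by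
  intro a P V v hab hV hv
  obtain ⟨m, W, -, g⟩ := good1 hd a 0 (fun _ => 0) V v hab hV hv
  have one : ∀ u ∈ ({v} : Finset E3), ∀ w ∈ ({v} : Finset E3), u = w := fun u hu w hw =>
    (Finset.mem_singleton.1 hu).trans (Finset.mem_singleton.1 hw).symm
  refine ⟨{cell V {v}}, fun X hX => ?_, fun X hX Y hY h => ?_, by simp⟩
  · obtain rfl := Finset.mem_singleton.1 hX
    refine ⟨m, by simp, fun u hu w hw => ?_, fun u hu w hw h => absurd (one u hu w hw) h,
      fun u hu w hw h => absurd (one u hu w hw) h, fun h => by simp at h, ?_⟩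
    · rw [one u hu w hw, dist_self]
      positivity
    · simp only [mul_zero, ENNReal.ofReal_zero, zero_mul, Finset.sum_const_zero, add_zero] at g
      have f : volume (cell V {v}) ≠ ∞ := ne_top_of_le_ne_top
        ((measure_biUnion_finset_le V _).trans_lt
          (ENNReal.sum_lt_top.2 fun v _ => measure_ball_lt_top)).ne
        (measure_mono (hd.sub V {v} (by simpa using hv) (by simp)))
      have g2 := ENNReal.toReal_mono f g
      rw [ENNReal.toReal_mul, ENNReal.toReal_sum (fun w _ => Fin2b.fin _ _ _),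
        ENNReal.toReal_ofReal'] at g2
      have n : 0 ≤ ∑ w ∈ V, (volume (cell V {v} ∩ ball w 1)).toReal :=
        Finset.sum_nonneg fun _ _ => ENNReal.toReal_nonneg
      have g3 := mul_le_mul_of_nonneg_right (le_max_left (6 * a / π) 0) n
      simp only [Finset.sum_singleton, Finset.erase_singleton, Finset.sum_empty, add_zero]
      linarith
  · exact absurd ((Finset.mem_singleton.1 hX).trans (Finset.mem_singleton.1 hY).symm) h

theorem as2 : AS2 :=
  partA2 (final2b (cover2 obt) far2b (disjS obt)) (dec1b (disjS obt)) (dec2 rev (disjS obt))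
    (dec3 (tetS dihS gir) (tet2b dihS gir) volS (disjS obt))
    (dec4 (tetS dihS gir) (tet2b dihS gir) volS (disjS obt) obt)

end Pool.Agent.Lib.MP_f3b2fd_co.KA
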