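import Pool.Agent.Lib.MP_f3b2fd_co.KEP.A.St

/-! The constants of the cell inequality, their enclosures and the exact zeros. -/

namespace Pool.Agent.Lib.MP_f3b2fd_co.KA

open Real Filter Topology

/-- the dihedral angle of the regular tetrahedron. -/
noncomputable def th0 : ℝ := π / 2 - arctan (1 / √8)

noncomputable def m2 : ℝ := √2 * (18 * th0 - 7 * π) / (144 * π - 360 * th0)

noncomputable def m1 : ℝ := 12 * m2 + √2 / 2

namespace Const

theorem atan_aux {x : ℝ} (h0 : 0 ≤ x) (h1 : x < 1) :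
    Tendsto (fun n => ∑ i ∈ Finset.range n, (-1) ^ i * (x ^ (2 * i + 1) / (2 * i + 1))) atTop
      (𝓝 (arctan x)) ∧ Antitone fun i : ℕ => x ^ (2 * i + 1) / (2 * i + 1) := by
  constructor
  · have h := (Real.hasSum_arctan (x := x) (by rwa [Real.norm_eq_abs, abs_of_nonneg h0])).tendsto_sum_nat
    refine h.congr fun n => Finset.sum_congr rfl fun i _ => ?_
    push_cast
    ring
  · refine antitone_nat_of_succ_le fun n => ?_
    refine div_le_div₀ (by positivity) (pow_le_pow_of_le_one h0 h1.le (by omega)) (by positivity) ?_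
    push_cast
    linarith

/-- lower bounds of `arctan` by its series. -/
theorem atan_lo {x : ℝ} (h0 : 0 ≤ x) (h1 : x < 1) (k : ℕ) :
    ∑ i ∈ Finset.range (2 * k), (-1) ^ i * (x ^ (2 * i + 1) / (2 * i + 1)) ≤ arctan x :=
  (atan_aux h0 h1).2.alternating_series_le_tendsto (atan_aux h0 h1).1 k

/-- upper bounds of `arctan` by its series. -/
theorem atan_hi {x : ℝ} (h0 : 0 ≤ x) (h1 : x < 1) (k : ℕ) :
    arctan x ≤ ∑ i ∈ Finset.range (2 * k + 1), (-1) ^ i * (x ^ (2 * i + 1) / (2 * i + 1)) :=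
  (atan_aux h0 h1).2.tendsto_le_alternating_series (atan_aux h0 h1).1 k

theorem s2_sq : √2 * √2 = (2 : ℝ) := Real.mul_self_sqrt (by norm_num)

theorem sq_mul (c d : ℝ) (hc : 0 ≤ c) (h : d = c ^ 2 * 2) : √d = c * √2 := by
  rw [h, Real.sqrt_mul (by positivity), Real.sqrt_sq hc]

theorem s8 : √8 = 2 * √2 := sq_mul 2 8 (by norm_num) (by norm_num)

theorem s2_pos : (0 : ℝ) < √2 := by positivity

theorem inv8 : (1 : ℝ) / √8 = √2 / 4 := by
  rw [s8, div_eq_div_iff (by have := s2_pos; positivity) (by norm_num)]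
  linarith [s2_sq]

end Const

theorem s2_lo : (1.4142135623730950488016 : ℝ) < √2 := by
  rw [Real.lt_sqrt (by norm_num)]; norm_num

theorem s2_hi : √2 < (1.4142135623730950488017 : ℝ) := by
  rw [Real.sqrt_lt' (by norm_num)]; norm_num

theorem th0_lo : (1.2309594173407746821 : ℝ) < th0 := by
  have h1 : arctan (1 / √8) ≤ arctan (0.3535533905932737622005 : ℝ) :=
    arctan_strictMono.monotone (by rw [Const.inv8]; linarith [s2_hi])
  have h2 := Const.atan_hi (x := 0.3535533905932737622005) (by norm_num) (by norm_num) 10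
  have h3 : ∑ i ∈ Finset.range (2 * 10 + 1), (-1) ^ i *
      ((0.3535533905932737622005 : ℝ) ^ (2 * i + 1) / (2 * i + 1)) < 0.33983690945412193711 := by
    simp only [Finset.sum_range_succ, Finset.sum_range_zero]
    norm_num
  unfold th0
  linarith [pi_gt_d20]

theorem th0_hi : th0 < (1.2309594173407746822 : ℝ) := by
  have h1 : arctan (0.3535533905932737622004 : ℝ) ≤ arctan (1 / √8) :=
    arctan_strictMono.monotone (by rw [Const.inv8]; linarith [s2_lo])
  have h2 := Const.atan_lo (x := 0.3535533905932737622004) (by norm_num) (by norm_num) 10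
  have h3 : (0.33983690945412193708 : ℝ) < ∑ i ∈ Finset.range (2 * 10), (-1) ^ i *
      ((0.3535533905932737622004 : ℝ) ^ (2 * i + 1) / (2 * i + 1)) := by
    simp only [Finset.sum_range_succ, Finset.sum_range_zero]
    norm_num
  unfold th0
  linarith [pi_lt_d20]

theorem den_pos : 0 < 144 * π - 360 * th0 := by linarith [pi_gt_d20, th0_hi]

theorem m2_lo : (0.02541450726950892 : ℝ) < m2 := by
  unfold m2
  rw [lt_div_iff₀ den_pos]
  have h1 : (0.16612093700539160 : ℝ) < 18 * th0 - 7 * π := by linarith [pi_lt_d20, th0_lo]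
  have h2 := mul_lt_mul'' s2_lo h1 (by norm_num) (by norm_num)
  linarith [pi_lt_d20, th0_lo]

theorem m2_hi : m2 < (0.02541450726950894 : ℝ) := by
  unfold m2
  rw [div_lt_iff₀ den_pos]
  have h0 : (0 : ℝ) ≤ 18 * th0 - 7 * π := by linarith [pi_lt_d20, th0_lo]
  have h1 : 18 * th0 - 7 * π < (0.16612093700539162 : ℝ) := by linarith [pi_gt_d20, th0_hi]
  have h2 := mul_lt_mul'' s2_hi h1 Const.s2_pos.le h0
  linarith [pi_gt_d20, th0_hi]

theorem m1_lo : (1.0120808684206545 : ℝ) < m1 := by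
  unfold m1; linarith [m2_lo, s2_lo]

theorem m1_hi : m1 < (1.0120808684206549 : ℝ) := by
  unfold m1; linarith [m2_hi, s2_hi]

theorem m2_pos : 0 < m2 := by linarith [m2_lo]

theorem m1_pos : 0 < m1 := by linarith [m1_lo]

theorem hab : 8 * m1 - 96 * m2 = √32 := by
  rw [Const.sq_mul 4 32 (by norm_num) (by norm_num)]
  unfold m1
  ring

theorem ca_lo : (1.288621384143082 : ℝ) < 4 * m1 / π := by
  rw [lt_div_iff₀ pi_pos]; linarith [m1_lo, pi_lt_d20]

theorem ca_hi : 4 * m1 / π < (1.288621384143083 : ℝ) := by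
  rw [div_lt_iff₀ pi_pos]; linarith [m1_hi, pi_gt_d20]

theorem cb_lo : (0.0647175113309960 : ℝ) < 8 * m2 / π := by
  rw [lt_div_iff₀ pi_pos]; linarith [m2_lo, pi_lt_d20]

theorem cb_hi : 8 * m2 / π < (0.0647175113309961 : ℝ) := by
  rw [div_lt_iff₀ pi_pos]; linarith [m2_hi, pi_gt_d20]

theorem six_m1 : 6 * m1 / π ≤ √8 := by
  rw [Const.s8, div_le_iff₀ pi_pos]
  have := mul_lt_mul'' s2_lo pi_gt_d20 (by norm_num) (by norm_num)
  linarith [m1_hi]

/-- the regular tetrahedron is tight. -/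
theorem zero_tet : 2 * √2 / 3 + 8 * m1 = 6 * th0 * (4 * m1 / π - 8 * m2 / π) := by
  have h : m2 * (144 * π - 360 * th0) = √2 * (18 * th0 - 7 * π) := by
    unfold m2
    exact div_mul_cancel₀ _ den_pos.ne'
  have e : 6 * th0 * (4 * m1 / π - 8 * m2 / π) = 6 * th0 * (4 * m1 - 8 * m2) / π := by ring
  rw [e, eq_div_iff pi_pos.ne']
  unfold m1
  linear_combination (2 / 3) * h

/-- the quarter of the regular octahedron is tight. -/
theorem zero_oct : 2 * √2 / 3 + 6 * m1 = 3 * (π - th0) * (4 * m1 / π - 8 * m2 / π) := by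
  have h := zero_tet
  have e : π * (4 * m1 / π - 8 * m2 / π) = 4 * m1 - 8 * m2 := by
    field_simp
  have k : m1 = 12 * m2 + √2 / 2 := rfl
  linear_combination (-1 / 2) * h - 3 * e - 2 * k

theorem atan_half : arctan (1 / √2) = th0 / 2 := by
  have p := Const.s2_pos
  have s := Const.s2_sq
  have h1 : (1 : ℝ) / √2 < 1 := by rw [div_lt_one p]; linarith [s2_lo]
  have h0 : (0 : ℝ) < 1 / √2 := by positivity
  have h2 := two_mul_arctan (x := 1 / √2) (by linarith) h1
  have h3 : 2 * (1 / √2) / (1 - (1 / √2) ^ 2) = (1 / √8 : ℝ)⁻¹ := by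
    rw [div_pow, Real.sq_sqrt (by norm_num), Const.s8, one_div (2 * √2), inv_inv,
      div_eq_iff (by norm_num), mul_one_div, div_eq_iff p.ne']
    linear_combination (-1 : ℝ) * s
  rw [h3, arctan_inv_of_pos (by positivity)] at h2
  unfold th0
  linarith

namespace Const

theorem dih_val (x1 x2 x3 x4 x5 x6 c e : ℝ) (hc : 0 < c)
    (h : 4 * x1 * del x1 x2 x3 x4 x5 x6 = c ^ 2 * 2) (h4 : del4 x1 x2 x3 x4 x5 x6 = e * c) :
    dih x1 x2 x3 x4 x5 x6 = π / 2 - arctan (e / √2) := by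
  unfold dih
  rw [sq_mul c _ hc.le h, h4, mul_comm e c, mul_div_mul_left _ _ hc.ne']

theorem e8 : (1 / 2 : ℝ) / √2 = 1 / √8 := by rw [s8, div_div]

end Const

theorem dih_tet : dih 4 4 4 4 4 4 = th0 := by
  rw [Const.dih_val 4 4 4 4 4 4 32 (1 / 2) (by norm_num) (by norm_num [del]) (by norm_num [del4]),
    Const.e8, th0]

theorem dih_q1 : dih 8 4 4 4 4 4 = π / 2 := by
  have : del4 8 4 4 4 4 4 = 0 := by norm_num [del4]
  rw [dih, this, zero_div, arctan_zero, sub_zero]

theorem dih_q4 : dih 4 4 4 8 4 4 = π - th0 := by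
  rw [Const.dih_val 4 4 4 8 4 4 32 (-(1 / 2)) (by norm_num) (by norm_num [del])
    (by norm_num [del4]), neg_div, Const.e8, arctan_neg, th0]
  ring

theorem dih_q2 : dih 4 8 4 4 4 4 = (π - th0) / 2 := by
  rw [Const.dih_val 4 8 4 4 4 4 32 1 (by norm_num) (by norm_num [del]) (by norm_num [del4]),
    atan_half]
  ring

theorem dih_q3 : dih 4 4 8 4 4 4 = (π - th0) / 2 := by
  rw [Const.dih_val 4 4 8 4 4 4 32 1 (by norm_num) (by norm_num [del]) (by norm_num [del4]),
    atan_half]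
  ring

theorem dih_q5 : dih 4 4 4 4 8 4 = (π - th0) / 2 := by
  rw [Const.dih_val 4 4 4 4 8 4 32 1 (by norm_num) (by norm_num [del]) (by norm_num [del4]),
    atan_half]
  ring

theorem dih_q6 : dih 4 4 4 4 4 8 = (π - th0) / 2 := by
  rw [Const.dih_val 4 4 4 4 4 8 32 1 (by norm_num) (by norm_num [del]) (by norm_num [del4]),
    atan_half]
  ring

theorem dih_c1 : dih 2 2 2 4 4 4 = π / 2 := by
  have : del4 2 2 2 4 4 4 = 0 := by norm_num [del4]
  rw [dih, this, zero_div, arctan_zero, sub_zero]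

theorem dih_c4 : dih 4 2 4 2 4 2 = (π - th0) / 2 := by
  rw [Const.dih_val 4 2 4 2 4 2 16 1 (by norm_num) (by norm_num [del]) (by norm_num [del4]),
    atan_half]
  ring

theorem sqrt128 : √128 / 12 = 2 * √2 / 3 := by
  rw [Const.sq_mul 8 128 (by norm_num) (by norm_num)]; ring

theorem sqrt32 : √32 / 12 = √2 / 3 := by
  rw [Const.sq_mul 4 32 (by norm_num) (by norm_num)]; ring

theorem del_tet : del 4 4 4 4 4 4 = 128 := by norm_num [del]

theorem del_q : del 8 4 4 4 4 4 = 128 ∧ del 4 8 4 4 4 4 = 128 ∧ del 4 4 8 4 4 4 = 128 ∧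
    del 4 4 4 8 4 4 = 128 ∧ del 4 4 4 4 8 4 = 128 ∧ del 4 4 4 4 4 8 = 128 := by norm_num [del]

theorem del_c : del 2 2 2 4 4 4 = 32 := by norm_num [del]

end Pool.Agent.Lib.MP_f3b2fd_co.KA
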