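import Pool.Agent.Lib.MP_f3b2fd_co.KEP.A.St2
import Pool.Agent.Lib.MP_f3b2fd_co.KEP.A.Good2

/-! The decomposition of cells with two vertices. -/

namespace Pool.Agent.Lib.MP_f3b2fd_co.KA

open MeasureTheory Set Real Metric Filter Topology
open scoped ENNReal RealInnerProductSpace

namespace Dec2

open Good2

/-- the volumes. -/
theorem vols2 (hr : RevS) {V : Finset E3} {m e v w : E3} {h : ℝ} (he : ‖e‖ = 1) (hh : 0 < h)
    (hv : v = m - h • e) (hw : w = m + h • e) (hvw : v ≠ w) (h2 : h ^ 2 < 2) :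
    MeasurableSet (cell V {v, w}) ∧ ∃ ω : ℝ, 0 ≤ ω ∧
      volume (cell V {v, w}) = ENNReal.ofReal (ω * (2 * h * (2 - h ^ 2) / 3)) ∧
      volume (cell V {v, w} ∩ ball v 1) ≤ ENNReal.ofReal (ω * (2 / 3 * (1 - h / √2))) ∧
      volume (cell V {v, w} ∩ ball w 1) ≤ ENNReal.ofReal (ω * (2 / 3 * (1 - h / √2))) ∧
      volume (W0 V m e √(2 - h ^ 2) ∩ ball 0 1) = ENNReal.ofReal (ω * (4 / 3)) := by
  have r0 : 0 < √(2 - h ^ 2) := Real.sqrt_pos.2 (by linarith)
  have r2 : √(2 - h ^ 2) ^ 2 = 2 - h ^ 2 := Real.sq_sqrt (by linarith)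
  have s0 : (0 : ℝ) < √2 := Real.sqrt_pos.2 (by norm_num)
  have s2 : (√2 : ℝ) ^ 2 = 2 := Real.sq_sqrt (by norm_num)
  have fw := fun x => fwd (V := V) (x := x) he hh hv hw hvw
  have bw := fun x => bwd (V := V) (x := x) he hh hv hw hvw h2
  obtain ⟨ω, w0, hω⟩ := hr e _ he (W0_meas V m e √(2 - h ^ 2)) (W0_add he) W0_smul
  have wm := W0_meas V m e √(2 - h ^ 2)
  have wa := W0_add (V := V) (m := m) (ρ := √(2 - h ^ 2)) he
  generalize W0 V m e √(2 - h ^ 2) = W at *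
  generalize √(2 - h ^ 2) = R at *
  obtain ⟨c, hc⟩ : ∃ c, c = h / √2 := ⟨_, rfl⟩
  have c0 : 0 < c := hc ▸ div_pos hh s0
  have c2 : c ^ 2 = h ^ 2 / 2 := by rw [hc, div_pow, s2]
  have c1 : c < 1 := by nlinarith
  obtain ⟨k, hk⟩ : ∃ k, k = R ^ 2 / h ^ 2 := ⟨_, rfl⟩
  have k0 : 0 ≤ k := hk ▸ by positivity
  have k1 : k * c ^ 2 = 1 - c ^ 2 := by rw [hk, c2, r2]; field_simp
  rw [← hc]
  have hcell : cell V {v, w} = (fun x => x - m) ⁻¹' (W ∩ {z | ‖z‖ ^ 2 - ⟪z, e⟫ ^ 2 <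
      two (-h) 0 h (fun s => R ^ 2 + 2 * R ^ 2 / h * s + k * s ^ 2)
        (fun s => R ^ 2 + -(2 * R ^ 2 / h) * s + k * s ^ 2) ⟪z, e⟫}) := by
    have q1 : ∀ s, s ≤ 0 → R ^ 2 + 2 * R ^ 2 / h * s + k * s ^ 2 = (R * (1 - |s| / h)) ^ 2 :=
      fun s hs => by rw [abs_of_nonpos hs, hk]; field_simp; ring
    have q2 : ∀ s, 0 < s → R ^ 2 + -(2 * R ^ 2 / h) * s + k * s ^ 2 = (R * (1 - |s| / h)) ^ 2 :=
      fun s hs => by rw [abs_of_pos hs, hk]; field_simp; ring
    ext x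
    simp only [mem_preimage, mem_inter_iff, mem_ofPred_eq, ← pr_sq he]
    constructor
    · intro hx
      obtain ⟨-, a1, a2⟩ := fw x hx
      refine ⟨a1, ?_⟩
      have a3 : 0 < 1 - |⟪x - m, e⟫| / h :=
        (mul_pos_iff_of_pos_left r0).1 ((norm_nonneg _).trans_lt a2)
      have a4 : |⟪x - m, e⟫| < h := by rwa [sub_pos, div_lt_one hh] at a3
      have a5 := pow_lt_pow_left₀ a2 (norm_nonneg _) two_ne_zero
      rcases le_or_gt ⟪x - m, e⟫ 0 with a6 | a6
      · rwa [two_left _ _ (abs_lt.1 a4).1 a6, q1 _ a6]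
      · rwa [two_right _ _ a6 (abs_lt.1 a4).2.le, q2 _ a6]
    · rintro ⟨a1, a2⟩
      refine bw x a1 ?_
      have fin : |⟪x - m, e⟫| ≤ h → ‖pr e (x - m)‖ ^ 2 < (R * (1 - |⟪x - m, e⟫| / h)) ^ 2 →
          ‖pr e (x - m)‖ < R * (1 - |⟪x - m, e⟫| / h) := fun b1 b2 =>
        lt_of_pow_lt_pow_left₀ 2 (mul_nonneg r0.le (sub_nonneg.2 ((div_le_one hh).2 b1))) b2
      rcases two_cases (-h) 0 h (fun s => R ^ 2 + 2 * R ^ 2 / h * s + k * s ^ 2)
        (fun s => R ^ 2 + -(2 * R ^ 2 / h) * s + k * s ^ 2) ⟪x - m, e⟫ with b | b | b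
      · rw [b.2.2, q1 _ b.2.1] at a2
        exact fin (abs_le.2 ⟨b.1.le, b.2.1.trans hh.le⟩) a2
      · rw [b.2.2, q2 _ b.1] at a2
        exact fin (abs_le.2 ⟨by linarith [b.1], b.2.1⟩) a2
      · rw [b] at a2
        exact absurd a2 (not_lt.2 (sq_nonneg _))
  have cap : ∀ x ∈ cell V {v, w}, ∀ σ : ℝ, |σ| = h → ‖x - m + σ • e‖ < 1 →
      0 < σ * ⟪x - m + σ • e, e⟫ ∧ |⟪x - m + σ • e, e⟫| < 1 ∧
      ‖pr e (x - m + σ • e)‖ ^ 2 < 0 + 0 * ⟪x - m + σ • e, e⟫ + k * ⟪x - m + σ • e, e⟫ ^ 2 ∧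
      ‖pr e (x - m + σ • e)‖ ^ 2 < 1 + 0 * ⟪x - m + σ • e, e⟫ + -1 * ⟪x - m + σ • e, e⟫ ^ 2 := by
    intro x hx σ hσ hb
    obtain ⟨-, a1, a2⟩ := fw x hx
    have a3 : 0 < 1 - |⟪x - m, e⟫| / h :=
      (mul_pos_iff_of_pos_left r0).1 ((norm_nonneg _).trans_lt a2)
    have a4 : |⟪x - m, e⟫| < h := by rwa [sub_pos, div_lt_one hh] at a3
    have b1 := pr_sq he (x - m + σ • e)
    have b2 : ‖x - m + σ • e‖ ^ 2 < 1 := by nlinarith [norm_nonneg (x - m + σ • e)]
    have b3 := sq_nonneg ‖pr e (x - m + σ • e)‖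
    refine ⟨?_, (sq_lt_one_iff_abs_lt_one _).1 (by linarith), ?_, by linarith⟩
    · rw [in_add he]
      have t1 : |σ * ⟪x - m, e⟫| < h * h := by
        rw [abs_mul, hσ]; exact mul_lt_mul_of_pos_left a4 hh
      have t2 : σ * σ = h * h := by rw [← hσ, abs_mul_abs_self]
      linarith [(abs_lt.1 t1).1]
    · rw [pr_add he, in_add he]
      have t1 : h - |⟪x - m, e⟫| ≤ |⟪x - m, e⟫ + σ| := by
        have := abs_sub_abs_le_abs_add σ ⟪x - m, e⟫
        rwa [hσ, add_comm] at this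
      have t2 : R * (1 - |⟪x - m, e⟫| / h) ≤ R / h * |⟪x - m, e⟫ + σ| := by
        rw [show R * (1 - |⟪x - m, e⟫| / h) = R / h * (h - |⟪x - m, e⟫|) by field_simp]
        exact mul_le_mul_of_nonneg_left t1 (div_pos r0 hh).le
      have t3 := pow_lt_pow_left₀ (a2.trans_le t2) (norm_nonneg _) two_ne_zero
      rw [mul_pow, sq_abs, div_pow, ← hk] at t3
      linarith
  refine ⟨?_, ω, w0, ?_, ?_, ?_, ?_⟩
  · rw [hcell]
    refine (measurable_id.sub measurable_const) (wm.inter (measurableSet_lt (by fun_prop) ?_))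
    exact (two_meas _ _ _ (by fun_prop) (by fun_prop)).comp (by fun_prop)
  · rw [hcell, vol_shift, hω _ (two_meas _ _ _ (by fun_prop) (by fun_prop)),
      two_int (by fun_prop) (by fun_prop) (by linarith) hh.le, int_quad, int_quad,
      ← ENNReal.ofReal_mul w0]
    · congr 2
      rw [hk, ← r2]; field_simp; ring
    · intro s _ _
      rw [show R ^ 2 + 2 * R ^ 2 / h * s + k * s ^ 2 = (R * (1 + s / h)) ^ 2 by
        rw [hk]; field_simp; ring]
      positivity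
    · intro s _ _
      rw [show R ^ 2 + -(2 * R ^ 2 / h) * s + k * s ^ 2 = (R * (1 - s / h)) ^ 2 by
        rw [hk]; field_simp; ring]
      positivity
  · have sub : cell V {v, w} ∩ ball v 1 ⊆ (fun x => x - v) ⁻¹' (W ∩ {z | ‖z‖ ^ 2 - ⟪z, e⟫ ^ 2 <
        two 0 c 1 (fun s => 0 + 0 * s + k * s ^ 2) (fun s => 1 + 0 * s + -1 * s ^ 2) ⟪z, e⟫}) := by
      rintro x ⟨hx, hb⟩
      have e1 : x - v = x - m + h • e := by rw [hv]; abel
      rw [mem_ball, dist_eq_norm, e1] at hb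
      obtain ⟨a1, a2, a3, a4⟩ := cap x hx h (abs_of_pos hh) hb
      simp only [mem_preimage, mem_inter_iff, mem_ofPred_eq, ← pr_sq he, e1]
      refine ⟨wa _ (fw x hx).2.1 h, ?_⟩
      rcases le_or_gt ⟪x - m + h • e, e⟫ c with b | b
      · rwa [two_left _ _ ((mul_pos_iff_of_pos_left hh).1 a1) b]
      · rwa [two_right _ _ b (abs_lt.1 a2).2.le]
    refine (measure_mono sub).trans (le_of_eq ?_)
    rw [vol_shift, hω _ (two_meas _ _ _ (by fun_prop) (by fun_prop)),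
      two_int (by fun_prop) (by fun_prop) c0.le c1.le (fun s _ _ => by nlinarith [mul_nonneg k0 (sq_nonneg s)])
        (fun s _ _ => by nlinarith), int_quad, int_quad, ← ENNReal.ofReal_mul w0]
    congr 2
    linear_combination c / 3 * k1
  · have sub : cell V {v, w} ∩ ball w 1 ⊆ (fun x => x - w) ⁻¹' (W ∩ {z | ‖z‖ ^ 2 - ⟪z, e⟫ ^ 2 <
        two (-1) (-c) 0 (fun s => 1 + 0 * s + -1 * s ^ 2) (fun s => 0 + 0 * s + k * s ^ 2)
          ⟪z, e⟫}) := by
      rintro x ⟨hx, hb⟩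
      have e1 : x - w = x - m + (-h) • e := by rw [hw, neg_smul]; abel
      rw [mem_ball, dist_eq_norm, e1] at hb
      obtain ⟨a1, a2, a3, a4⟩ := cap x hx (-h) (by rw [abs_neg, abs_of_pos hh]) hb
      simp only [mem_preimage, mem_inter_iff, mem_ofPred_eq, ← pr_sq he, e1]
      refine ⟨wa _ (fw x hx).2.1 (-h), ?_⟩
      rcases le_or_gt ⟪x - m + (-h) • e, e⟫ (-c) with b | b
      · rwa [two_left _ _ (abs_lt.1 a2).1 b]
      · rwa [two_right _ _ b (by nlinarith)]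
    refine (measure_mono sub).trans (le_of_eq ?_)
    rw [vol_shift, hω _ (two_meas _ _ _ (by fun_prop) (by fun_prop)),
      two_int (by fun_prop) (by fun_prop) (by linarith) (by linarith) (fun s _ _ => by nlinarith)
        (fun s _ _ => by nlinarith [mul_nonneg k0 (sq_nonneg s)]), int_quad, int_quad,
      ← ENNReal.ofReal_mul w0]
    congr 2
    linear_combination c / 3 * k1
  · have sub : W ∩ ball 0 1 = W ∩ {z | ‖z‖ ^ 2 - ⟪z, e⟫ ^ 2 <
        two (-1) 0 1 (fun s => 1 + 0 * s + -1 * s ^ 2) (fun s => 1 + 0 * s + -1 * s ^ 2) ⟪z, e⟫} := by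
      ext z
      have a3 := pr_sq he z
      have a4 := sq_nonneg ‖pr e z‖
      refine and_congr_right fun _ => ?_
      rw [mem_ball_zero_iff, ← sq_lt_one_iff₀ (norm_nonneg z), mem_ofPred_eq]
      constructor
      · intro a2
        have a5 := abs_lt.1 ((sq_lt_one_iff_abs_lt_one ⟪z, e⟫).1 (by linarith))
        rcases le_or_gt ⟪z, e⟫ 0 with b | b
        · rw [two_left _ _ a5.1 b]; linarith
        · rw [two_right _ _ b a5.2.le]; linarith
      · intro a2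
        rcases two_cases (-1) 0 1 (fun s => 1 + 0 * s + -1 * s ^ 2)
          (fun s => 1 + 0 * s + -1 * s ^ 2) ⟪z, e⟫ with b | b | b
        · rw [b.2.2] at a2; linarith
        · rw [b.2.2] at a2; linarith
        · rw [b] at a2; linarith
    rw [sub, hω _ (two_meas _ _ _ (by fun_prop) (by fun_prop)),
      two_int (by fun_prop) (by fun_prop) (by norm_num) (by norm_num) (fun s _ _ => by nlinarith)
        (fun s _ _ => by nlinarith), int_quad, int_quad, ← ENNReal.ofReal_mul w0]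
    congr 2
    norm_num

theorem wdg_eq {V : Finset E3} {m e v w : E3} {h : ℝ} (he : ‖e‖ = 1) (hh : 0 < h)
    (hv : v = m - h • e) (hw : w = m + h • e) (hvw : v ≠ w) (h2 : h ^ 2 < 2) :
    wdg (cell V {v, w}) m = W0 V m e √(2 - h ^ 2) := by
  refine Subset.antisymm (fun z hz => ?_) (W0_wdg he hh hv hw hvw h2)
  have hz' : ∀ᶠ t in 𝓝[>] (0 : ℝ), m + t • z ∈ cell V {v, w} := hz
  obtain ⟨t, h1, ht⟩ := (hz'.and self_mem_nhdsWithin).exists
  have t0 : 0 < t := ht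
  have a := (fwd he hh hv hw hvw h1).2.1
  rw [add_sub_cancel_left] at a
  have b := W0_smul _ a t⁻¹ (inv_pos.2 t0)
  rwa [smul_smul, inv_mul_cancel₀ t0.ne', one_smul] at b

end Dec2

open Good2 Dec2 in
theorem dec2 (hr : RevS) (hd : DisjS) : Dec2S := by
  classical
  intro a P V v w ha g2 hV hv hw hvw
  obtain ⟨h, hh⟩ : ∃ h, h = dist v w / 2 := ⟨_, rfl⟩
  have h1 : 1 ≤ h := by have := hV v hv w hw hvw; linarith
  have h0 : 0 < h := by linarith
  have he : ‖(2 * h)⁻¹ • (w - v)‖ = 1 := by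
    rw [norm_smul, Real.norm_eq_abs, abs_of_pos (by positivity), ← dist_eq_norm, dist_comm,
      show dist v w = 2 * h by linarith, inv_mul_cancel₀ (by positivity)]
  have hs : h • (2 * h)⁻¹ • (w - v) = (2⁻¹ : ℝ) • (w - v) := by
    rw [smul_smul]; congr 1; field_simp
  have ev : v = midpoint ℝ v w - h • (2 * h)⁻¹ • (w - v) := by
    rw [hs, midpoint_eq_smul_add, invOf_eq_inv]; module
  have ew : w = midpoint ℝ v w + h • (2 * h)⁻¹ • (w - v) := by
    rw [hs, midpoint_eq_smul_add, invOf_eq_inv]; module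
  generalize (2 * h)⁻¹ • (w - v) = e at he ev ew
  by_cases h2 : h ^ 2 < 2
  swap
  · refine ⟨∅, by simp, by simp, ?_⟩
    rw [show cell V {v, w} = ∅ from
      eq_empty_of_forall_notMem fun x hx => h2 (fwd he h0 ev ew hvw hx).1]
    simp
  obtain ⟨hm, ω, w0, v1, v2, v3, v4⟩ := vols2 (V := V) hr he h0 ev ew hvw h2
  have wd := wdg_eq (V := V) he h0 ev ew hvw h2
  have wm := W0_meas V (midpoint ℝ v w) e √(2 - h ^ 2)
  have fw := fun x (hx : x ∈ cell V {v, w}) => (fwd he h0 ev ew hvw hx).2.1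
  rw [← wd] at v4 wm fw
  have hl : h < √2 := Real.lt_sqrt_of_sq_lt h2
  have s0 : (0 : ℝ) < √2 := Real.sqrt_pos.2 (by norm_num)
  have c1 : 0 ≤ 1 - h / √2 := sub_nonneg.2 ((div_le_one s0).2 hl.le)
  have hS : ({v, w} : Finset E3) ⊆ V := Finset.insert_subset hv (Finset.singleton_subset_iff.2 hw)
  have mid : ∀ p ∈ ({v, w} : Finset E3), ∀ q ∈ ({v, w} : Finset E3), p ≠ q →
      midpoint ℝ p q = midpoint ℝ v w := by
    intro p hp q hq hpq
    simp only [Finset.mem_insert, Finset.mem_singleton] at hp hq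
    rcases hp with rfl | rfl <;> rcases hq with rfl | rfl
    · exact absurd rfl hpq
    · rfl
    · exact midpoint_comm _ _
    · exact absurd rfl hpq
  refine ⟨{cell V {v, w}}, fun X hX => ?_, fun X hX Y hY hXY => ?_, by simp⟩
  swap
  · exact absurd ((Finset.mem_singleton.1 hX).trans (Finset.mem_singleton.1 hY).symm) hXY
  rw [Finset.mem_singleton.1 hX]
  have hc := Finset.card_pair hvw
  refine ⟨hm, by omega, ?_, fun p hp q hq hpq => by rwa [mid p hp q hq hpq],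
    fun p hp q hq hpq => by rwa [mid p hp q hq hpq], fun k => by omega, ?_⟩
  · intro p hp q hq
    simp only [Finset.mem_insert, Finset.mem_singleton] at hp hq
    rcases hp with rfl | rfl <;> rcases hq with rfl | rfl
    · rw [dist_self]; positivity
    · linarith
    · rw [dist_comm]; linarith
    · rw [dist_self]; positivity
  have p1 : 0 ≤ ω * (2 / 3 * (1 - h / √2)) := by positivity
  have p4 : 0 ≤ ω * (2 * h * (2 - h ^ 2) / 3) :=
    mul_nonneg w0 (by have : 0 ≤ 2 - h ^ 2 := by linarith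
                      positivity)
  have l1 : ∑ u ∈ V, (volume (cell V {v, w} ∩ ball u 1)).toReal ≤
      ω * (2 / 3 * (1 - h / √2)) + ω * (2 / 3 * (1 - h / √2)) := by
    rw [← Finset.sum_subset hS fun u hu hn => by
      rw [hd.far V _ hV hS u hu hn, measure_empty, ENNReal.toReal_zero], Finset.sum_pair hvw]
    exact add_le_add (ENNReal.toReal_le_of_le_ofReal p1 v2) (ENNReal.toReal_le_of_le_ofReal p1 v3)
  have t1 : th (cell V {v, w}) v w = 2 * ω := by
    unfold th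
    rw [v4, ENNReal.toReal_ofReal (by positivity)]
    ring
  have t2 : th (cell V {v, w}) w v = 2 * ω := by
    rw [← t1]
    unfold th
    rw [midpoint_comm]
  have d1 : dist v w ^ 2 = 4 * h ^ 2 := by rw [hh]; ring
  have e1 : ({v, w} : Finset E3).erase v = {w} := by
    rw [Finset.erase_insert (Finset.notMem_singleton.2 hvw)]
  have e2 : ({v, w} : Finset E3).erase w = {v} := by
    rw [Finset.pair_comm, Finset.erase_insert (Finset.notMem_singleton.2 hvw.symm)]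
  rw [Finset.sum_pair hvw, e1, e2, Finset.sum_singleton, Finset.sum_singleton, hc, t1, t2,
    dist_comm w v, d1, v1, ENNReal.toReal_ofReal p4]
  have k1 := g2 h (2 * ω) h1 hl (by positivity)
  have k2 := mul_le_mul_of_nonneg_left l1 (show 0 ≤ 6 * a / π by positivity)
  have k3 : 2 * ω * (h * (2 - h ^ 2) / 3 - 4 * a / π * (1 - h / √2)) =
      ω * (2 * h * (2 - h ^ 2) / 3) - 6 * a / π * (ω * (2 / 3 * (1 - h / √2)) +
      ω * (2 / 3 * (1 - h / √2))) := by ring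
  linarith

end Pool.Agent.Lib.MP_f3b2fd_co.KA
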