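import Pool.Agent.Lib.MP_f3b2fd_co.KEP.A.St

/-! Euler's formula for the solid angle of a tetrahedron, as an identity of real functions. -/

namespace Pool.Agent.Lib.MP_f3b2fd_co.KA

open Real

/-- the denominator in Euler's formula; `y1 y2 y3` are lengths, `x4 x5 x6` squared lengths. -/
noncomputable def eul (y1 y2 y3 x4 x5 x6 : ℝ) : ℝ :=
  2 * y1 * y2 * y3 + y1 * (y2 ^ 2 + y3 ^ 2 - x4) + y2 * (y1 ^ 2 + y3 ^ 2 - x5) +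
    y3 * (y1 ^ 2 + y2 ^ 2 - x6)

theorem arg_up (A B : ℝ) (hB : 0 < B) :
    Complex.arg (⟨A, B⟩ : ℂ) = π / 2 - arctan (A / B) := by
  have h1 := arctan_lt_pi_div_two (A / B)
  have h2 := neg_pi_div_two_lt_arctan (A / B)
  have hp : 0 < √(1 + (A / B) ^ 2) := by positivity
  have e : (⟨A, B⟩ : ℂ) = ((B * √(1 + (A / B) ^ 2) : ℝ) : ℂ) *
      (Complex.cos ((π / 2 - arctan (A / B) : ℝ) : ℂ) +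
        Complex.sin ((π / 2 - arctan (A / B) : ℝ) : ℂ) * Complex.I) := by
    rw [← Complex.ofReal_cos, ← Complex.ofReal_sin, cos_pi_div_two_sub, sin_pi_div_two_sub,
      sin_arctan, cos_arctan]
    apply Complex.ext
    · simp only [Complex.mul_re, Complex.ofReal_re, Complex.ofReal_im, Complex.add_re,
        Complex.add_im, Complex.mul_im, Complex.I_re, Complex.I_im]
      field_simp
      ring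
    · simp only [Complex.mul_re, Complex.ofReal_re, Complex.ofReal_im, Complex.add_re,
        Complex.add_im, Complex.mul_im, Complex.I_re, Complex.I_im]
      field_simp
      ring
  rw [e]
  exact Complex.arg_mul_cos_add_sin_mul_I (by positivity) ⟨by linarith [pi_pos], by linarith⟩

theorem dih_arg (y x2 x3 x4 x5 x6 : ℝ) (hy : 0 < y) (hd : 0 < del (y ^ 2) x2 x3 x4 x5 x6) :
    dih (y ^ 2) x2 x3 x4 x5 x6 =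
      Complex.arg ⟨del4 (y ^ 2) x2 x3 x4 x5 x6, 2 * y * √(del (y ^ 2) x2 x3 x4 x5 x6)⟩ := by
  have hs := Real.sqrt_pos.2 hd
  rw [arg_up _ _ (by positivity), dih, show 4 * y ^ 2 * del (y ^ 2) x2 x3 x4 x5 x6 =
    (2 * y) ^ 2 * del (y ^ 2) x2 x3 x4 x5 x6 by ring, Real.sqrt_mul (by positivity),
    Real.sqrt_sq (by positivity)]

theorem dih_pos (x1 x2 x3 x4 x5 x6 : ℝ) : 0 < dih x1 x2 x3 x4 x5 x6 := by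
  have := arctan_lt_pi_div_two (del4 x1 x2 x3 x4 x5 x6 / √(4 * x1 * del x1 x2 x3 x4 x5 x6))
  rw [dih]
  linarith

theorem dih_lt (x1 x2 x3 x4 x5 x6 : ℝ) : dih x1 x2 x3 x4 x5 x6 < π := by
  have := neg_pi_div_two_lt_arctan (del4 x1 x2 x3 x4 x5 x6 / √(4 * x1 * del x1 x2 x3 x4 x5 x6))
  rw [dih]
  linarith

/-- a dihedral angle below a right angle. -/
theorem dih_acute (x1 x2 x3 x4 x5 x6 : ℝ) (h1 : 0 < x1) (hd : 0 < del x1 x2 x3 x4 x5 x6)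
    (h4 : 0 < del4 x1 x2 x3 x4 x5 x6) : dih x1 x2 x3 x4 x5 x6 =
      arctan (√(4 * x1 * del x1 x2 x3 x4 x5 x6) / del4 x1 x2 x3 x4 x5 x6) := by
  have hs : 0 < √(4 * x1 * del x1 x2 x3 x4 x5 x6) := by positivity
  rw [dih, ← arctan_inv_of_pos (div_pos h4 hs), inv_div]

/-- Euler's formula. -/
theorem euler (y1 y2 y3 x4 x5 x6 : ℝ) (h1 : 0 < y1) (h2 : 0 < y2) (h3 : 0 < y3)
    (hd : 0 < del (y1 ^ 2) (y2 ^ 2) (y3 ^ 2) x4 x5 x6) (he : 0 < eul y1 y2 y3 x4 x5 x6)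
    (hk : 0 < (x4 - (y2 - y3) ^ 2) * (x5 - (y1 - y3) ^ 2) * (x6 - (y1 - y2) ^ 2)) :
    dih (y1 ^ 2) (y2 ^ 2) (y3 ^ 2) x4 x5 x6 + dih (y2 ^ 2) (y1 ^ 2) (y3 ^ 2) x5 x4 x6 +
      dih (y3 ^ 2) (y1 ^ 2) (y2 ^ 2) x6 x4 x5 - π =
      2 * arctan (√(del (y1 ^ 2) (y2 ^ 2) (y3 ^ 2) x4 x5 x6) / eul y1 y2 y3 x4 x5 x6) := by
  have e2 : del (y2 ^ 2) (y1 ^ 2) (y3 ^ 2) x5 x4 x6 = del (y1 ^ 2) (y2 ^ 2) (y3 ^ 2) x4 x5 x6 := by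
    unfold del; ring
  have e3 : del (y3 ^ 2) (y1 ^ 2) (y2 ^ 2) x6 x4 x5 = del (y1 ^ 2) (y2 ^ 2) (y3 ^ 2) x4 x5 x6 := by
    unfold del; ring
  have p1 := dih_pos (y1 ^ 2) (y2 ^ 2) (y3 ^ 2) x4 x5 x6
  have p2 := dih_pos (y2 ^ 2) (y1 ^ 2) (y3 ^ 2) x5 x4 x6
  have p3 := dih_pos (y3 ^ 2) (y1 ^ 2) (y2 ^ 2) x6 x4 x5
  have q1 := dih_lt (y1 ^ 2) (y2 ^ 2) (y3 ^ 2) x4 x5 x6
  have q2 := dih_lt (y2 ^ 2) (y1 ^ 2) (y3 ^ 2) x5 x4 x6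
  have q3 := dih_lt (y3 ^ 2) (y1 ^ 2) (y2 ^ 2) x6 x4 x5
  have a1 := dih_arg y1 _ _ _ _ _ h1 hd
  have a2 := dih_arg y2 _ _ _ _ _ h2 (e2 ▸ hd)
  have a3 := dih_arg y3 _ _ _ _ _ h3 (e3 ▸ hd)
  rw [e2] at a2
  rw [e3] at a3
  have hs := Real.sqrt_pos.2 hd
  have hq := Real.sq_sqrt hd.le
  set s := √(del (y1 ^ 2) (y2 ^ 2) (y3 ^ 2) x4 x5 x6)
  set D := eul y1 y2 y3 x4 x5 x6 with hD
  set K := (x4 - (y2 - y3) ^ 2) * (x5 - (y1 - y3) ^ 2) * (x6 - (y1 - y2) ^ 2) with hK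
  have a4 : Complex.arg ⟨-s, D⟩ = π / 2 + arctan (s / D) := by
    rw [arg_up _ _ he, neg_div, arctan_neg]
    ring
  have nz : ∀ A B : ℝ, 0 < B → (⟨A, B⟩ : ℂ) ≠ 0 := fun A B hB h =>
    hB.ne' (congrArg Complex.im h)
  have key : (⟨del4 (y1 ^ 2) (y2 ^ 2) (y3 ^ 2) x4 x5 x6, 2 * y1 * s⟩ : ℂ) *
      ⟨del4 (y2 ^ 2) (y1 ^ 2) (y3 ^ 2) x5 x4 x6, 2 * y2 * s⟩ *
      ⟨del4 (y3 ^ 2) (y1 ^ 2) (y2 ^ 2) x6 x4 x5, 2 * y3 * s⟩ =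
      (K : ℂ) * (⟨-s, D⟩ * ⟨-s, D⟩) := by
    apply Complex.ext
    · simp only [Complex.mul_re, Complex.mul_im, Complex.ofReal_re, Complex.ofReal_im]
      unfold del at hq
      unfold eul at hD
      unfold del4
      rw [hK, hD]
      linear_combination
        (-4 * y1 * y2 * (-y1 ^ 2 * y2 ^ 2 - y3 ^ 2 * x6 + y1 ^ 2 * x4 + y2 ^ 2 * x5 - x4 * x5 +
            y3 ^ 2 * (-y3 ^ 2 + y1 ^ 2 + y2 ^ 2 - x6 + x4 + x5)) -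
          4 * y1 * y3 * (-y1 ^ 2 * y3 ^ 2 - y2 ^ 2 * x5 + y1 ^ 2 * x4 + y3 ^ 2 * x6 - x4 * x6 +
            y2 ^ 2 * (-y2 ^ 2 + y1 ^ 2 + y3 ^ 2 - x5 + x4 + x6)) -
          4 * y2 * y3 * (-y2 ^ 2 * y3 ^ 2 - y1 ^ 2 * x4 + y2 ^ 2 * x5 + y3 ^ 2 * x6 - x5 * x6 +
            y1 ^ 2 * (-y1 ^ 2 + y2 ^ 2 + y3 ^ 2 - x4 + x5 + x6)) -
          (x4 - (y2 - y3) ^ 2) * (x5 - (y1 - y3) ^ 2) * (x6 - (y1 - y2) ^ 2)) * hq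
    · simp only [Complex.mul_re, Complex.mul_im, Complex.ofReal_re, Complex.ofReal_im]
      unfold del at hq
      unfold eul at hD
      unfold del4
      rw [hK, hD]
      linear_combination (-8 * y1 * y2 * y3 * s) * hq
  have b1 : 0 < 2 * y1 * s := by positivity
  have b2 : 0 < 2 * y2 * s := by positivity
  have b3 : 0 < 2 * y3 * s := by positivity
  have ang : ((Complex.arg _ : ℝ) : Real.Angle) = ((Complex.arg _ : ℝ) : Real.Angle) :=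
    congrArg (fun z : ℂ => (Complex.arg z : Real.Angle)) key
  rw [Complex.arg_real_mul _ hk,
    Complex.arg_mul_coe_angle (mul_ne_zero (nz _ _ b1) (nz _ _ b2)) (nz _ _ b3),
    Complex.arg_mul_coe_angle (nz _ _ b1) (nz _ _ b2),
    Complex.arg_mul_coe_angle (nz _ _ he) (nz _ _ he), ← a1, ← a2, ← a3, a4,
    ← Real.Angle.coe_add, ← Real.Angle.coe_add, ← Real.Angle.coe_add,
    Real.Angle.angle_eq_iff_two_pi_dvd_sub] at ang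
  obtain ⟨k, hk'⟩ := ang
  have t1 := arctan_lt_pi_div_two (s / D)
  have t2 : 0 < arctan (s / D) := arctan_pos.2 (div_pos hs he)
  have u1 : (k : ℝ) < 1 := by
    by_contra h
    nlinarith [pi_pos]
  have u2 : (-1 : ℝ) < k := by
    by_contra h
    nlinarith [pi_pos]
  have u3 : k = 0 := by
    have v1 : k < 1 := by exact_mod_cast u1
    have v2 : -1 < k := by exact_mod_cast u2
    omega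
  rw [u3] at hk'
  simp only [Int.cast_zero, mul_zero] at hk'
  linarith

/-- the 4-cell inequality in Euler form, at one point given by its six lengths. -/
theorem g4_euler (a b : ℝ) (c1 c2 c3 c4 c5 c6 y1 y2 y3 y4 y5 y6 : ℝ) (h1 : 0 < y1) (h2 : 0 < y2)
    (h3 : 0 < y3) (h4 : 0 < y4) (h5 : 0 < y5) (h6 : 0 < y6)
    (hd : 0 < del (y1 ^ 2) (y2 ^ 2) (y3 ^ 2) (y4 ^ 2) (y5 ^ 2) (y6 ^ 2))
    (e0 : 0 < eul y1 y2 y3 (y4 ^ 2) (y5 ^ 2) (y6 ^ 2))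
    (e1 : 0 < eul y1 y5 y6 (y4 ^ 2) (y2 ^ 2) (y3 ^ 2))
    (e2 : 0 < eul y2 y4 y6 (y5 ^ 2) (y1 ^ 2) (y3 ^ 2))
    (e3 : 0 < eul y3 y4 y5 (y6 ^ 2) (y1 ^ 2) (y2 ^ 2))
    (k0 : 0 < (y4 ^ 2 - (y2 - y3) ^ 2) * (y5 ^ 2 - (y1 - y3) ^ 2) * (y6 ^ 2 - (y1 - y2) ^ 2))
    (k1 : 0 < (y4 ^ 2 - (y5 - y6) ^ 2) * (y2 ^ 2 - (y1 - y6) ^ 2) * (y3 ^ 2 - (y1 - y5) ^ 2))
    (k2 : 0 < (y5 ^ 2 - (y4 - y6) ^ 2) * (y1 ^ 2 - (y2 - y6) ^ 2) * (y3 ^ 2 - (y2 - y4) ^ 2))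
    (k3 : 0 < (y6 ^ 2 - (y4 - y5) ^ 2) * (y1 ^ 2 - (y3 - y5) ^ 2) * (y2 ^ 2 - (y3 - y4) ^ 2)) :
    8 * a -
      (4 * a / π - b * c1) * dih (y1 ^ 2) (y2 ^ 2) (y3 ^ 2) (y4 ^ 2) (y5 ^ 2) (y6 ^ 2) -
      (4 * a / π - b * c2) * dih (y2 ^ 2) (y1 ^ 2) (y3 ^ 2) (y5 ^ 2) (y4 ^ 2) (y6 ^ 2) -
      (4 * a / π - b * c3) * dih (y3 ^ 2) (y1 ^ 2) (y2 ^ 2) (y6 ^ 2) (y4 ^ 2) (y5 ^ 2) -
      (4 * a / π - b * c4) * dih (y4 ^ 2) (y2 ^ 2) (y6 ^ 2) (y1 ^ 2) (y5 ^ 2) (y3 ^ 2) -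
      (4 * a / π - b * c5) * dih (y5 ^ 2) (y1 ^ 2) (y6 ^ 2) (y2 ^ 2) (y4 ^ 2) (y3 ^ 2) -
      (4 * a / π - b * c6) * dih (y6 ^ 2) (y1 ^ 2) (y5 ^ 2) (y3 ^ 2) (y4 ^ 2) (y2 ^ 2) =
    b * (c1 * dih (y1 ^ 2) (y2 ^ 2) (y3 ^ 2) (y4 ^ 2) (y5 ^ 2) (y6 ^ 2) +
        c2 * dih (y2 ^ 2) (y1 ^ 2) (y3 ^ 2) (y5 ^ 2) (y4 ^ 2) (y6 ^ 2) +
        c3 * dih (y3 ^ 2) (y1 ^ 2) (y2 ^ 2) (y6 ^ 2) (y4 ^ 2) (y5 ^ 2) +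
        c4 * dih (y4 ^ 2) (y2 ^ 2) (y6 ^ 2) (y1 ^ 2) (y5 ^ 2) (y3 ^ 2) +
        c5 * dih (y5 ^ 2) (y1 ^ 2) (y6 ^ 2) (y2 ^ 2) (y4 ^ 2) (y3 ^ 2) +
        c6 * dih (y6 ^ 2) (y1 ^ 2) (y5 ^ 2) (y3 ^ 2) (y4 ^ 2) (y2 ^ 2)) -
      4 * a / π *
        (arctan (√(del (y1 ^ 2) (y2 ^ 2) (y3 ^ 2) (y4 ^ 2) (y5 ^ 2) (y6 ^ 2)) /
            eul y1 y2 y3 (y4 ^ 2) (y5 ^ 2) (y6 ^ 2)) +
          arctan (√(del (y1 ^ 2) (y2 ^ 2) (y3 ^ 2) (y4 ^ 2) (y5 ^ 2) (y6 ^ 2)) /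
            eul y1 y5 y6 (y4 ^ 2) (y2 ^ 2) (y3 ^ 2)) +
          arctan (√(del (y1 ^ 2) (y2 ^ 2) (y3 ^ 2) (y4 ^ 2) (y5 ^ 2) (y6 ^ 2)) /
            eul y2 y4 y6 (y5 ^ 2) (y1 ^ 2) (y3 ^ 2)) +
          arctan (√(del (y1 ^ 2) (y2 ^ 2) (y3 ^ 2) (y4 ^ 2) (y5 ^ 2) (y6 ^ 2)) /
            eul y3 y4 y5 (y6 ^ 2) (y1 ^ 2) (y2 ^ 2))) := by
  have d1 : del (y1 ^ 2) (y5 ^ 2) (y6 ^ 2) (y4 ^ 2) (y2 ^ 2) (y3 ^ 2) =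
      del (y1 ^ 2) (y2 ^ 2) (y3 ^ 2) (y4 ^ 2) (y5 ^ 2) (y6 ^ 2) := by unfold del; ring
  have d2 : del (y2 ^ 2) (y4 ^ 2) (y6 ^ 2) (y5 ^ 2) (y1 ^ 2) (y3 ^ 2) =
      del (y1 ^ 2) (y2 ^ 2) (y3 ^ 2) (y4 ^ 2) (y5 ^ 2) (y6 ^ 2) := by unfold del; ring
  have d3 : del (y3 ^ 2) (y4 ^ 2) (y5 ^ 2) (y6 ^ 2) (y1 ^ 2) (y2 ^ 2) =
      del (y1 ^ 2) (y2 ^ 2) (y3 ^ 2) (y4 ^ 2) (y5 ^ 2) (y6 ^ 2) := by unfold del; ring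
  have s0 := euler y1 y2 y3 _ _ _ h1 h2 h3 hd e0 k0
  have s1 := euler y1 y5 y6 _ _ _ h1 h5 h6 (d1 ▸ hd) e1 k1
  have s2 := euler y2 y4 y6 _ _ _ h2 h4 h6 (d2 ▸ hd) e2 k2
  have s3 := euler y3 y4 y5 _ _ _ h3 h4 h5 (d3 ▸ hd) e3 k3
  rw [d1] at s1
  rw [d2] at s2
  rw [d3] at s3
  have w1 : ∀ x1 x2 x3 x4 x5 x6, dih x1 x2 x3 x4 x5 x6 = dih x1 x3 x2 x4 x6 x5 := by
    intro x1 x2 x3 x4 x5 x6
    unfold dih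
    rw [show del x1 x3 x2 x4 x6 x5 = del x1 x2 x3 x4 x5 x6 by unfold del; ring,
      show del4 x1 x3 x2 x4 x6 x5 = del4 x1 x2 x3 x4 x5 x6 by unfold del4; ring]
  have w2 : ∀ x1 x2 x3 x4 x5 x6, dih x1 x2 x3 x4 x5 x6 = dih x1 x5 x6 x4 x2 x3 := by
    intro x1 x2 x3 x4 x5 x6
    unfold dih
    rw [show del x1 x5 x6 x4 x2 x3 = del x1 x2 x3 x4 x5 x6 by unfold del; ring,
      show del4 x1 x5 x6 x4 x2 x3 = del4 x1 x2 x3 x4 x5 x6 by unfold del4; ring]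
  have w3 : ∀ x1 x2 x3 x4 x5 x6, dih x1 x2 x3 x4 x5 x6 = dih x1 x6 x5 x4 x3 x2 := fun _ _ _ _ _ _ =>
    (w2 _ _ _ _ _ _).trans (w1 _ _ _ _ _ _)
  have t1 := w2 (y1 ^ 2) (y2 ^ 2) (y3 ^ 2) (y4 ^ 2) (y5 ^ 2) (y6 ^ 2)
  have t2 := w2 (y2 ^ 2) (y1 ^ 2) (y3 ^ 2) (y5 ^ 2) (y4 ^ 2) (y6 ^ 2)
  have t3 := w2 (y3 ^ 2) (y1 ^ 2) (y2 ^ 2) (y6 ^ 2) (y4 ^ 2) (y5 ^ 2)
  have t4 := w3 (y4 ^ 2) (y2 ^ 2) (y6 ^ 2) (y1 ^ 2) (y5 ^ 2) (y3 ^ 2)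
  have t5 := w3 (y5 ^ 2) (y1 ^ 2) (y6 ^ 2) (y2 ^ 2) (y4 ^ 2) (y3 ^ 2)
  have t6 := w3 (y6 ^ 2) (y1 ^ 2) (y5 ^ 2) (y3 ^ 2) (y4 ^ 2) (y2 ^ 2)
  rw [← t1] at s1
  rw [← t2, ← t6] at s2
  rw [← t3, ← t4, ← t5] at s3
  have hp : 8 * a = 2 * a / π * (4 * π) := by field_simp; ring
  rw [hp]
  linear_combination (-(2 * a / π)) * (s0 + s1 + s2 + s3)

end Pool.Agent.Lib.MP_f3b2fd_co.KA
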