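import Pool.Agent.Lib.MP_f3b2fd_co.KEP.A.St

/-! Additivity of the cell inequality, and the passage to the density inequality. -/

namespace Pool.Agent.Lib.MP_f3b2fd_co.KA

open MeasureTheory Set Real Metric Filter Topology
open scoped ENNReal

namespace Union

lemma wdg_mono {X Y : Set E3} (h : X ⊆ Y) (m : E3) : wdg X m ⊆ wdg Y m := by
  intro z hz
  have hz' : ∀ᶠ t in 𝓝[>] (0 : ℝ), m + t • z ∈ X := hz
  exact hz'.mono fun _ ht => h ht

lemma wdg_disj {X Y : Set E3} (h : Disjoint X Y) (m : E3) : Disjoint (wdg X m) (wdg Y m) := by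
  rw [Set.disjoint_left]
  intro z h1 h2
  have k1 : ∀ᶠ t in 𝓝[>] (0 : ℝ), m + t • z ∈ X := h1
  have k2 : ∀ᶠ t in 𝓝[>] (0 : ℝ), m + t • z ∈ Y := h2
  obtain ⟨t, ht1, ht2⟩ := (k1.and k2).exists
  exact Set.disjoint_left.1 h ht1 ht2

lemma vol_ball (v : E3) : volume (ball v 1) = ENNReal.ofReal (π * 4 / 3) := by
  rw [EuclideanSpace.volume_ball_fin_three]
  simp

end Union

theorem union : UnionS := by
  intro a b f V J s X hG hD
  classical
  have hm : ∀ i ∈ s, MeasurableSet (X i) := fun i hi => (hG i hi).1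
  have hW := fun i (hi : i ∈ s) => (hG i hi).2
  choose! W hW1 hW2 using hW
  refine ⟨Finset.measurableSet_biUnion s hm, fun v w => ⋃ i ∈ s, W i v w, fun v w =>
    ⟨Finset.measurableSet_biUnion s fun i hi => (hW1 i hi v w).1,
      iUnion₂_subset fun i hi => (hW1 i hi v w).2.trans (Union.wdg_mono
        (subset_iUnion₂ (s := fun i (_ : i ∈ s) => X i) i hi) _)⟩, ?_⟩
  have e1 : ∀ v : E3, volume ((⋃ i ∈ s, X i) ∩ ball v 1) ≤ ∑ i ∈ s, volume (X i ∩ ball v 1) := by
    intro v
    rw [iUnion₂_inter]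
    exact measure_biUnion_finset_le s _
  have e2 : volume (⋃ i ∈ s, X i) = ∑ i ∈ s, volume (X i) :=
    measure_biUnion_finset (fun i hi j hj h => hD i hi j hj h) hm
  have e3 : ∀ v w : E3, volume ((⋃ i ∈ s, W i v w) ∩ ball 0 1) =
      ∑ i ∈ s, volume (W i v w ∩ ball 0 1) := by
    intro v w
    rw [iUnion₂_inter]
    refine measure_biUnion_finset (fun i hi j hj h => ?_)
      fun i hi => (hW1 i hi v w).1.inter measurableSet_ball
    exact (Union.wdg_disj (hD i hi j hj h) (midpoint ℝ v w)).mono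
      (inter_subset_left.trans (hW1 i hi v w).2) (inter_subset_left.trans (hW1 j hj v w).2)
  calc ENNReal.ofReal (6 * a / π) * ∑ v ∈ V, volume ((⋃ i ∈ s, X i) ∩ ball v 1)
      ≤ ENNReal.ofReal (6 * a / π) * ∑ v ∈ V, ∑ i ∈ s, volume (X i ∩ ball v 1) := by
        gcongr with v hv
        exact e1 v
    _ = ∑ i ∈ s, ENNReal.ofReal (6 * a / π) * ∑ v ∈ V, volume (X i ∩ ball v 1) := by
        rw [Finset.sum_comm, Finset.mul_sum]
    _ ≤ ∑ i ∈ s, (volume (X i) + ∑ v ∈ V, ∑ w ∈ V.erase v,
        ENNReal.ofReal (6 * b / π * f (dist v w / 2)) * volume (W i v w ∩ ball 0 1)) :=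
        Finset.sum_le_sum fun i hi => hW2 i hi
    _ = _ := by
        rw [Finset.sum_add_distrib, e2, Finset.sum_comm]
        congr 1
        refine Finset.sum_congr rfl fun v _ => ?_
        rw [Finset.sum_comm]
        refine Finset.sum_congr rfl fun w _ => ?_
        rw [e3, Finset.mul_sum]

theorem final : FinalS := by
  intro a b f V X ha hb hf hG hX h0
  obtain ⟨hm, W, -, h⟩ := hG
  have hfin : volume (⋃ v ∈ V, ball v √2) ≠ ∞ :=
    ((measure_biUnion_finset_le V _).trans_lt
      (ENNReal.sum_lt_top.2 fun v _ => measure_ball_lt_top)).ne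
  have e1 : ∀ v ∈ V, ENNReal.ofReal (π * 4 / 3) ≤ volume (X ∩ ball v 1) := by
    intro v hv
    rw [← Union.vol_ball v, inter_comm]
    have := measure_le_inter_add_sdiff volume (ball v 1) X
    rwa [h0 v hv, add_zero] at this
  have e2 : ∀ v w : E3, volume (W v w ∩ ball 0 1) ≤ ENNReal.ofReal (π * 4 / 3) := by
    intro v w
    rw [← Union.vol_ball 0]
    exact measure_mono inter_subset_right
  have hp := pi_pos
  have e3 : ENNReal.ofReal (8 * a * V.card) ≤ volume (⋃ v ∈ V, ball v √2) +
      ENNReal.ofReal (8 * b * ∑ v ∈ V, ∑ w ∈ V.erase v, f (dist v w / 2)) := by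
    calc ENNReal.ofReal (8 * a * V.card)
        = ENNReal.ofReal (6 * a / π) * ∑ _v ∈ V, ENNReal.ofReal (π * 4 / 3) := by
          rw [Finset.sum_const, nsmul_eq_mul, ← ENNReal.ofReal_natCast,
            ← ENNReal.ofReal_mul (by positivity), ← ENNReal.ofReal_mul (by positivity)]
          congr 1
          field_simp
          ring
      _ ≤ ENNReal.ofReal (6 * a / π) * ∑ v ∈ V, volume (X ∩ ball v 1) := by
          gcongr with v hv
          exact e1 v hv
      _ ≤ _ := h
      _ ≤ volume (⋃ v ∈ V, ball v √2) + ∑ v ∈ V, ∑ w ∈ V.erase v,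
            ENNReal.ofReal (6 * b / π * f (dist v w / 2)) * ENNReal.ofReal (π * 4 / 3) := by
          gcongr with v hv w hw
          exact e2 v w
      _ = _ := by
          congr 1
          rw [Finset.mul_sum, ENNReal.ofReal_sum_of_nonneg fun v _ => by
            have := Finset.sum_nonneg (s := V.erase v) fun w _ => hf (dist v w / 2)
            positivity]
          refine Finset.sum_congr rfl fun v _ => ?_
          rw [Finset.mul_sum, ENNReal.ofReal_sum_of_nonneg fun w _ => by
            have := hf (dist v w / 2)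
            positivity]
          refine Finset.sum_congr rfl fun w _ => ?_
          have := hf (dist v w / 2)
          rw [← ENNReal.ofReal_mul (by positivity)]
          congr 1
          field_simp
          ring
  have hs : 0 ≤ 8 * b * ∑ v ∈ V, ∑ w ∈ V.erase v, f (dist v w / 2) := by
    have := Finset.sum_nonneg (s := V) fun v _ =>
      Finset.sum_nonneg (s := V.erase v) fun w _ => hf (dist v w / 2)
    positivity
  rw [← ENNReal.ofReal_toReal hfin, ← ENNReal.ofReal_add ENNReal.toReal_nonneg hs,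
    ENNReal.ofReal_le_ofReal_iff (add_nonneg ENNReal.toReal_nonneg hs)] at e3
  linarith

end Pool.Agent.Lib.MP_f3b2fd_co.KA
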