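import Pool.Agent.Lib.MP_f3b2fd_co.KEP.A.St2
import Pool.Agent.Lib.MP_f3b2fd_co.KEP.A.Union

/-! Angles round an edge, and the sum over all pieces. -/

set_option autoImplicit false

namespace Pool.Agent.Lib.MP_f3b2fd_co.KA

open MeasureTheory Set Real Metric Filter Topology
open scoped ENNReal Pointwise

namespace Fin2b

theorem cone {X : Set E3} {m z : E3} {c : ℝ} (hc : 0 < c) (h : z ∈ wdg X m) :
    c • z ∈ wdg X m := by
  have h' : ∀ᶠ t in 𝓝[>] (0 : ℝ), m + t • z ∈ X := h
  have k : Tendsto (fun t : ℝ => t * c) (𝓝[>] 0) (𝓝[>] 0) := by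
    refine tendsto_nhdsWithin_iff.2 ⟨?_, ?_⟩
    · have : Tendsto (fun t : ℝ => t * c) (𝓝 0) (𝓝 (0 * c)) :=
        (continuous_id.mul continuous_const).tendsto 0
      rw [zero_mul] at this
      exact this.mono_left nhdsWithin_le_nhds
    · exact eventually_mem_nhdsWithin.mono fun t ht => mul_pos ht hc
  exact (k.eventually h').mono fun t ht => by rwa [smul_smul]

theorem fin (A : Set E3) (m : E3) (r : ℝ) : volume (A ∩ ball m r) ≠ ∞ :=
  ((measure_mono inter_subset_right).trans_lt measure_ball_lt_top).ne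

theorem low {J : Type} (s : Finset J) (X : J → Set E3) (m : E3) (r : ℝ)
    (h : volume (ball m r \ ⋃ j ∈ s, X j) = 0) :
    (volume (ball m r)).toReal ≤ ∑ j ∈ s, (volume (X j ∩ ball m r)).toReal := by
  rw [← ENNReal.toReal_sum fun j _ => fin _ _ _]
  refine ENNReal.toReal_mono (ENNReal.sum_ne_top.2 fun j _ => fin _ _ _) ?_
  have := measure_le_inter_add_sdiff volume (ball m r) (⋃ j ∈ s, X j)
  rw [h, add_zero, inter_comm, iUnion₂_inter] at this
  exact this.trans (measure_biUnion_finset_le s _)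

theorem up {J : Type} (s : Finset J) (X : J → Set E3) (U : Set E3) (hU : volume U ≠ ∞)
    (hm : ∀ j ∈ s, MeasurableSet (X j)) (hd : ∀ i ∈ s, ∀ j ∈ s, i ≠ j → Disjoint (X i) (X j))
    (hs : ∀ j ∈ s, X j ⊆ U) : ∑ j ∈ s, (volume (X j)).toReal ≤ (volume U).toReal := by
  rw [← ENNReal.toReal_sum fun j hj => ne_top_of_le_ne_top hU (measure_mono (hs j hj)),
    ← measure_biUnion_finset (fun i hi j hj h => hd i hi j hj h) hm]
  exact ENNReal.toReal_mono hU (measure_mono (iUnion₂_subset hs))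

theorem one (v : E3) : (volume (ball v 1)).toReal = 4 * π / 3 := by
  rw [Union.vol_ball, ENNReal.toReal_ofReal (by positivity)]
  ring

end Fin2b

open Fin2b

theorem angSb : AngS where
  le J s X m hm hd := by
    rw [← one 0]
    exact up s _ _ measure_ball_lt_top.ne (fun j hj => (hm j hj).inter measurableSet_ball)
      (fun i hi j hj h => (Union.wdg_disj (hd i hi j hj h) m).mono inter_subset_left
        inter_subset_left) fun _ _ => inter_subset_right
  ge J s X m ε hε hs h0 := by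
    have e1 := low s X m ε h0
    have e2 : ∀ j ∈ s, (volume (X j ∩ ball m ε)).toReal ≤
        ε ^ 3 * (volume (wdg (X j) m ∩ ball 0 1)).toReal := fun j hj => by
      have k : X j ∩ ball m ε ⊆ (fun x => x + -m) ⁻¹' (ε • (wdg (X j) m ∩ ball 0 1)) := by
        rintro x ⟨h1, h2⟩
        rw [mem_preimage, mem_smul_set_iff_inv_smul_mem₀ hε.ne', ← sub_eq_add_neg]
        refine ⟨cone (inv_pos.2 hε) (hs j hj x h1), ?_⟩
        rw [mem_ball_zero_iff, norm_smul, Real.norm_of_nonneg (inv_pos.2 hε).le,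
          inv_mul_lt_iff₀ hε, mul_one, ← dist_eq_norm]
        exact h2
      have k2 := measure_mono (μ := volume) k
      rw [measure_preimage_add_right, Measure.addHaar_smul, finrank_euclideanSpace_fin,
        abs_of_nonneg (by positivity)] at k2
      have k3 := ENNReal.toReal_mono (ENNReal.mul_ne_top ENNReal.ofReal_ne_top (fin _ _ _)) k2
      rwa [ENNReal.toReal_mul, ENNReal.toReal_ofReal (by positivity)] at k3
    have e3 := e1.trans (Finset.sum_le_sum e2)
    rw [← Finset.mul_sum, EuclideanSpace.volume_ball_fin_three, ENNReal.toReal_mul,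
      ENNReal.toReal_pow, ENNReal.toReal_ofReal hε.le, ENNReal.toReal_ofReal (by positivity)] at e3
    have e4 := le_of_mul_le_mul_left e3 (by positivity)
    linarith

theorem final2b (hc : Cover2S) (hf : Far2S) (hd : DisjS) : Final2S := by
  classical
  intro a b f P V ha hb h0 cl hV hD
  choose! s s1 s2 s3 using hD
  set I := (V.powerset.erase ∅).sigma s with hI
  have m : ∀ j ∈ I, j.1 ⊆ V ∧ j.1.Nonempty ∧ j.2 ∈ s j.1 := fun j hj => by
    obtain ⟨k1, k2⟩ := Finset.mem_sigma.1 hj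
    exact ⟨Finset.mem_powerset.1 (Finset.mem_of_mem_erase k1),
      Finset.nonempty_iff_ne_empty.2 (Finset.ne_of_mem_erase k1), k2⟩
  have pc : ∀ j ∈ I, Piece a P V j.1 j.2 := fun j hj =>
    s1 _ (m j hj).1 (m j hj).2.1 _ (m j hj).2.2
  have sb : ∀ j ∈ I, j.2 ⊆ cell V j.1 := fun j hj => by
    rw [← s3 _ (m j hj).1 (m j hj).2.1]
    exact subset_iUnion₂ (s := fun X (_ : X ∈ s j.1) => X) _ (m j hj).2.2
  have dj : ∀ i ∈ I, ∀ j ∈ I, i ≠ j → Disjoint i.2 j.2 := by
    rintro ⟨S, X⟩ hi ⟨T, Y⟩ hj hne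
    by_cases e : S = T
    · subst e
      exact s2 _ (m _ hi).1 (m _ hi).2.1 _ (m _ hi).2.2 _ (m _ hj).2.2 fun k => hne (by
        simp only at k
        rw [k])
    · exact (hd.disj V S T hV (m _ hi).1 (m _ hj).1 (m _ hi).2.1 (m _ hj).2.1 e).mono (sb _ hi)
        (sb _ hj)
  have cv : ∀ x ∈ ⋃ S ∈ V.powerset.erase ∅, cell V S, ∃ j ∈ I, x ∈ j.2 := fun x hx => by
    obtain ⟨S, hS, k⟩ := mem_iUnion₂.1 hx
    rw [← s3 _ (Finset.mem_powerset.1 (Finset.mem_of_mem_erase hS))
      (Finset.nonempty_iff_ne_empty.2 (Finset.ne_of_mem_erase hS))] at k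
    obtain ⟨X, hX, k⟩ := mem_iUnion₂.1 k
    exact ⟨⟨S, X⟩, Finset.mem_sigma.2 ⟨hS, hX⟩, k⟩
  have r1 : (1 : ℝ) ≤ √2 := Real.one_le_sqrt.2 one_le_two
  have e1 : ∑ j ∈ I, (volume j.2).toReal ≤ (volume (⋃ v ∈ V, ball v √2)).toReal :=
    up I _ _ ((measure_biUnion_finset_le V _).trans_lt
      (ENNReal.sum_lt_top.2 fun v _ => measure_ball_lt_top)).ne (fun j hj => (pc j hj).meas) dj
      fun j hj => (sb j hj).trans (hd.sub V _ (m j hj).1 (m j hj).2.1)
  have e2 : ∀ v ∈ V, 4 * π / 3 ≤ ∑ j ∈ I, (volume (j.2 ∩ ball v 1)).toReal := fun v hv => by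
    rw [← one v]
    refine low I (fun j => j.2) v 1 (measure_mono_null ?_ (hc V hV v hv))
    rintro x ⟨k1, k2⟩
    refine ⟨ball_subset_ball r1 k1, fun k => k2 ?_⟩
    obtain ⟨j, hj, k⟩ := cv x k
    exact mem_iUnion₂.2 ⟨j, hj, k⟩
  have e3 : ∀ v ∈ V, ∀ w ∈ V.erase v, ∑ j ∈ I with (v ∈ j.1 ∧ w ∈ j.1),
      P j.1.card (dist v w ^ 2) (th j.2 v w) / 2 ≤ 8 * b * f (dist v w / 2) := fun v hv w hw => by
    obtain ⟨hne, hw⟩ := Finset.mem_erase.1 hw
    set J := I.filter fun j => v ∈ j.1 ∧ w ∈ j.1 with hJ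
    have mJ : ∀ j ∈ J, j ∈ I ∧ v ∈ j.1 ∧ w ∈ j.1 := fun j hj => Finset.mem_filter.1 hj
    rcases J.eq_empty_or_nonempty with k | ⟨j0, hj0⟩
    · rw [k, Finset.sum_empty]
      have := h0 (dist v w / 2)
      positivity
    have d1 := hV v hv w hw hne.symm
    have d2 := (pc j0 (mJ j0 hj0).1).short v (mJ j0 hj0).2.1 w (mJ j0 hj0).2.2
    have a1 := angSb.le _ J (fun j => j.2) (midpoint ℝ v w)
      (fun j hj => (pc j (mJ j hj).1).measW v (mJ j hj).2.1 w (mJ j hj).2.2 hne.symm)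
      fun i hi j hj => dj i (mJ i hi).1 j (mJ j hj).1
    have a2 := angSb.ge _ J (fun j => j.2) (midpoint ℝ v w) (√2 - dist v w / 2) (by linarith)
      (fun j hj => (pc j (mJ j hj).1).star v (mJ j hj).2.1 w (mJ j hj).2.2 hne.symm)
      (measure_mono_null (by
        rintro x ⟨k1, k2⟩
        have n2 : ‖(2 : ℝ)‖⁻¹ = 1 / 2 := by norm_num
        have b1 : x ∈ ball v √2 := by
          have := dist_triangle x (midpoint ℝ v w) v
          rw [dist_midpoint_left, n2] at this
          rw [mem_ball] at k1 ⊢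
          linarith
        have b2 : x ∈ ball w √2 := by
          have := dist_triangle x (midpoint ℝ v w) w
          rw [dist_midpoint_right, n2] at this
          rw [mem_ball] at k1 ⊢
          linarith
        refine ⟨b1, fun k => k2 ?_⟩
        obtain ⟨j, hj, k⟩ := cv x k
        have c : ∀ u ∈ V, x ∈ ball u √2 → u ∈ j.1 := fun u hu bu => by
          by_contra hn
          have : x ∈ cell V j.1 ∩ ball u √2 := ⟨sb j hj k, bu⟩
          rw [hf V _ hV (m j hj).1 u hu hn] at this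
          exact this
        exact mem_iUnion₂.2 ⟨j, Finset.mem_filter.2 ⟨hj, c v hv b1, c w hw b2⟩, k⟩) (hc V hV v hv))
    have a3 := cl (dist v w / 2) _ J (fun j => j.1.card) (fun j => th j.2 v w) (by linarith)
      (by linarith) (fun j hj => ⟨Finset.one_lt_card.2 ⟨v, (mJ j hj).2.1, w, (mJ j hj).2.2,
        hne.symm⟩, (pc j (mJ j hj).1).card, by unfold th; positivity,
        fun k => (pc j (mJ j hj).1).acute k v (mJ j hj).2.1 w (mJ j hj).2.2 hne.symm⟩) (by
          unfold th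
          rw [← Finset.mul_sum]
          linarith)
    rw [show 4 * (dist v w / 2) ^ 2 = dist v w ^ 2 by ring] at a3
    rw [← Finset.sum_div]
    linarith
  have e4 : ∑ j ∈ I, ∑ v ∈ j.1, ∑ w ∈ j.1.erase v, P j.1.card (dist v w ^ 2) (th j.2 v w) / 2 =
      ∑ v ∈ V, ∑ w ∈ V.erase v, ∑ j ∈ I with (v ∈ j.1 ∧ w ∈ j.1),
        P j.1.card (dist v w ^ 2) (th j.2 v w) / 2 := by
    simp only [Finset.sum_filter]
    rw [Finset.sum_congr rfl fun v _ => Finset.sum_comm, Finset.sum_comm]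
    refine Finset.sum_congr rfl fun j hj => ?_
    symm
    rw [← Finset.sum_subset (m j hj).1 fun v _ hn => Finset.sum_eq_zero fun w _ =>
      if_neg fun k => hn k.1]
    refine Finset.sum_congr rfl fun v hv => ?_
    rw [← Finset.sum_subset (Finset.erase_subset_erase v (m j hj).1) fun w hw hn =>
      if_neg fun k => hn (Finset.mem_erase.2 ⟨(Finset.mem_erase.1 hw).1, k.2⟩)]
    exact Finset.sum_congr rfl fun w hw => if_pos ⟨hv, (Finset.mem_erase.1 hw).2⟩
  have e5 := Finset.sum_le_sum fun j hj => (pc j hj).ineq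
  rw [Finset.sum_add_distrib, e4, ← Finset.mul_sum, Finset.sum_comm] at e5
  have e6 := Finset.sum_le_sum fun v hv => Finset.sum_le_sum (e3 v hv)
  have e7 := Finset.sum_le_sum e2
  rw [Finset.sum_const, nsmul_eq_mul] at e7
  have hp := pi_pos
  have e8 := mul_le_mul_of_nonneg_left e7 (show 0 ≤ 6 * a / π by positivity)
  rw [show 6 * a / π * ((V.card : ℝ) * (4 * π / 3)) = 8 * a * V.card by field_simp; ring] at e8
  simp only [← Finset.mul_sum] at e6
  linarith

end Pool.Agent.Lib.MP_f3b2fd_co.KA
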