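import Pool.Agent.Lib.MP_f3b2fd_co.Cap

/-! Cells of a finite packing: definitions and statements. -/

namespace Pool.Agent.Lib.MP_f3b2fd_co.KA

open MeasureTheory Set Real Metric Filter Topology
open scoped ENNReal RealInnerProductSpace

noncomputable section

/-! ### functions of the squared edge lengths -/

/-- the Cayley-Menger polynomial: `144` times the squared volume. -/
def del (x1 x2 x3 x4 x5 x6 : ℝ) : ℝ :=
  x1 * x4 * (-x1 + x2 + x3 - x4 + x5 + x6) + x2 * x5 * (x1 - x2 + x3 + x4 - x5 + x6) +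
    x3 * x6 * (x1 + x2 - x3 + x4 + x5 - x6) - x2 * x3 * x4 - x1 * x3 * x5 - x1 * x2 * x6 -
    x4 * x5 * x6

/-- its derivative in `x4`. -/
def del4 (x1 x2 x3 x4 x5 x6 : ℝ) : ℝ :=
  -x2 * x3 - x1 * x4 + x2 * x5 + x3 * x6 - x5 * x6 + x1 * (-x1 + x2 + x3 - x4 + x5 + x6)

/-- `4 * del` times the squared circumradius. -/
def rho (x1 x2 x3 x4 x5 x6 : ℝ) : ℝ :=
  -x1 ^ 2 * x4 ^ 2 - x2 ^ 2 * x5 ^ 2 - x3 ^ 2 * x6 ^ 2 + 2 * x1 * x2 * x4 * x5 +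
    2 * x1 * x3 * x4 * x6 + 2 * x2 * x3 * x5 * x6

/-- the dihedral angle along the first edge. -/
def dih (x1 x2 x3 x4 x5 x6 : ℝ) : ℝ :=
  π / 2 - arctan (del4 x1 x2 x3 x4 x5 x6 / √(4 * x1 * del x1 x2 x3 x4 x5 x6))

/-- the inequality for 2-cells. -/
def G2 (a b : ℝ) (f : ℝ → ℝ) : Prop :=
  ∀ h, 1 ≤ h → h < √2 → 0 ≤ h * (2 - h ^ 2) / 3 - 4 * a / π * (1 - h / √2) + 8 * b / π * f h

/-- the inequality for 3-cells. -/
def G3 (a b : ℝ) (f : ℝ → ℝ) : Prop :=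
  ∀ x4 x5 x6, 4 ≤ x4 → 4 ≤ x5 → 4 ≤ x6 → x4 ≤ 8 → x5 ≤ 8 → x6 ≤ 8 → 0 < del 2 2 2 x4 x5 x6 →
    0 ≤ √(del 2 2 2 x4 x5 x6) / 12 + 6 * a -
      2 * a / π * (dih 2 2 2 x4 x5 x6 + dih 2 2 2 x5 x4 x6 + dih 2 2 2 x6 x4 x5) -
      (4 * a / π - 8 * b / π * f (√x4 / 2)) * dih x4 2 x6 2 x5 2 -
      (4 * a / π - 8 * b / π * f (√x5 / 2)) * dih x5 2 x6 2 x4 2 -
      (4 * a / π - 8 * b / π * f (√x6 / 2)) * dih x6 2 x5 2 x4 2

/-- the inequality for 4-cells. -/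
def G4 (a b : ℝ) (f : ℝ → ℝ) : Prop :=
  ∀ x1 x2 x3 x4 x5 x6, 4 ≤ x1 → 4 ≤ x2 → 4 ≤ x3 → 4 ≤ x4 → 4 ≤ x5 → 4 ≤ x6 →
    x1 ≤ 8 → x2 ≤ 8 → x3 ≤ 8 → x4 ≤ 8 → x5 ≤ 8 → x6 ≤ 8 → 0 < del x1 x2 x3 x4 x5 x6 →
    rho x1 x2 x3 x4 x5 x6 < 8 * del x1 x2 x3 x4 x5 x6 →
    0 ≤ √(del x1 x2 x3 x4 x5 x6) / 12 + 8 * a -
      (4 * a / π - 8 * b / π * f (√x1 / 2)) * dih x1 x2 x3 x4 x5 x6 -
      (4 * a / π - 8 * b / π * f (√x2 / 2)) * dih x2 x1 x3 x5 x4 x6 -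
      (4 * a / π - 8 * b / π * f (√x3 / 2)) * dih x3 x1 x2 x6 x4 x5 -
      (4 * a / π - 8 * b / π * f (√x4 / 2)) * dih x4 x2 x6 x1 x5 x3 -
      (4 * a / π - 8 * b / π * f (√x5 / 2)) * dih x5 x1 x6 x2 x4 x3 -
      (4 * a / π - 8 * b / π * f (√x6 / 2)) * dih x6 x1 x5 x3 x4 x2

/-! ### cells -/

/-- finite packings. -/
def Pack (V : Finset E3) : Prop := ∀ v ∈ V, ∀ w ∈ V, v ≠ w → 2 ≤ dist v w

/-- the open ball of radius `r` at `y` contains no centre. -/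
def Em (V : Finset E3) (y : E3) (r : ℝ) : Prop := ∀ v ∈ V, r ≤ dist y v

/-- the cell with vertex set `S`. -/
def cell (V S : Finset E3) : Set E3 :=
  {x | ∃ (y : E3) (r : ℝ) (t : E3 → ℝ), Em V y r ∧ (∀ v ∈ S, dist y v = r ∧ 0 < t v) ∧
    x = y + ∑ v ∈ S, t v • (v - y) ∧
    ((r = √2 ∧ ∑ v ∈ S, t v < 1 ∧ LinearIndependent ℝ fun v : S => (v : E3) - y) ∨
      (r < √2 ∧ ∑ v ∈ S, t v = 1 ∧ S.card = 4))}

/-- the directions pointing into `X` at `m`. -/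
def wdg (X : Set E3) (m : E3) : Set E3 := {z | ∀ᶠ t in 𝓝[>] (0 : ℝ), m + t • z ∈ X}

/-- the cell inequality. -/
def Good (a b : ℝ) (f : ℝ → ℝ) (V : Finset E3) (X : Set E3) : Prop :=
  MeasurableSet X ∧ ∃ W : E3 → E3 → Set E3,
    (∀ v w, MeasurableSet (W v w) ∧ W v w ⊆ wdg X (midpoint ℝ v w)) ∧
    ENNReal.ofReal (6 * a / π) * ∑ v ∈ V, volume (X ∩ ball v 1) ≤ volume X +
      ∑ v ∈ V, ∑ w ∈ V.erase v,
        ENNReal.ofReal (6 * b / π * f (dist v w / 2)) * volume (W v w ∩ ball 0 1)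

/-- the open tetrahedron. -/
def tet (p q r s : E3) : Set E3 :=
  {x | ∃ α β γ : ℝ, 0 < α ∧ 0 < β ∧ 0 < γ ∧ α + β + γ < 1 ∧
    x = p + α • (q - p) + β • (r - p) + γ • (s - p)}

/-- the open wedge with edge `u`. -/
def wed (u v w : E3) : Set E3 :=
  {z | ∃ α β γ : ℝ, 0 < β ∧ 0 < γ ∧ z = α • u + β • v + γ • w}

/-- the open octant. -/
def oct (u v w : E3) : Set E3 :=
  {z | ∃ α β γ : ℝ, 0 < α ∧ 0 < β ∧ 0 < γ ∧ z = α • u + β • v + γ • w}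

/-- a function of the squared edge lengths, read on four points. -/
def onP (F : ℝ → ℝ → ℝ → ℝ → ℝ → ℝ → ℝ) (p q r s : E3) : ℝ :=
  F (dist p q ^ 2) (dist p r ^ 2) (dist p s ^ 2) (dist r s ^ 2) (dist q s ^ 2) (dist q r ^ 2)

end

/-! ### statements -/

/-- the cell inequality is additive. -/
def UnionS : Prop := ∀ (a b : ℝ) (f : ℝ → ℝ) (V : Finset E3) (J : Type) (s : Finset J)
  (X : J → Set E3), (∀ i ∈ s, Good a b f V (X i)) →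
  (∀ i ∈ s, ∀ j ∈ s, i ≠ j → Disjoint (X i) (X j)) → Good a b f V (⋃ i ∈ s, X i)

/-- from the inequality for the union of all cells to the density inequality. -/
def FinalS : Prop := ∀ (a b : ℝ) (f : ℝ → ℝ) (V : Finset E3) (X : Set E3), 0 ≤ a → 0 ≤ b →
  (∀ h, 0 ≤ f h) → Good a b f V X → X ⊆ ⋃ v ∈ V, ball v √2 →
  (∀ v ∈ V, volume (ball v 1 \ X) = 0) →
  8 * a * V.card - 8 * b * ∑ v ∈ V, ∑ w ∈ V.erase v, f (dist v w / 2) ≤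
    (volume (⋃ v ∈ V, ball v √2)).toReal

/-- vectors with nonpositive products. -/
structure ObtS : Prop where
  red : ∀ (S : Finset E3) (p : E3 → E3) (t : E3 → ℝ),
    (∀ v ∈ S, ∀ w ∈ S, v ≠ w → ⟪p v, p w⟫ ≤ 0) → (∀ v ∈ S, 0 ≤ t v) →
    ∃ T ⊆ S, ∃ t' : E3 → ℝ, (∀ v ∈ T, 0 < t' v) ∧ ∑ v ∈ T, t' v ≤ ∑ v ∈ S, t v ∧
      ∑ v ∈ T, t' v • p v = ∑ v ∈ S, t v • p v ∧ LinearIndependent ℝ fun v : T => p v
  uniq : ∀ (S T : Finset E3) (p : E3 → E3) (t t' : E3 → ℝ),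
    (∀ v ∈ S ∪ T, ∀ w ∈ S ∪ T, v ≠ w → ⟪p v, p w⟫ ≤ 0) → (∀ v ∈ S, 0 < t v) → (∀ v ∈ T, 0 < t' v) →
    (LinearIndependent ℝ fun v : S => p v) → (LinearIndependent ℝ fun v : T => p v) →
    ∑ v ∈ S, t v • p v = ∑ v ∈ T, t' v • p v → S = T
  four : ∀ (S : Finset E3) (y : E3) (r : ℝ), Pack S → (∀ v ∈ S, dist y v = r) → r < √2 →
    S.card ≤ 4 ∧ ∀ p ∈ S, LinearIndependent ℝ fun v : S.erase p => (v : E3) - p
  inner : ∀ (y v w : E3) (r : ℝ), dist y v = r → dist y w = r → 2 ≤ dist v w →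
    ⟪v - y, w - y⟫ ≤ r ^ 2 - 2

/-- the cells cover. -/
def CoverS : Prop := ∀ V : Finset E3, Pack V → ∀ v ∈ V,
  volume (ball v 1 \ ⋃ S ∈ V.powerset.erase ∅, cell V S) = 0

structure DisjS : Prop where
  key : ∀ (V S : Finset E3) (x y y' : E3) (r r' : ℝ) (t : E3 → ℝ), S ⊆ V →
    (∀ v ∈ S, dist y v = r ∧ 0 < t v) → x = y + ∑ v ∈ S, t v • (v - y) → ∑ v ∈ S, t v ≤ 1 →
    (∑ v ∈ S, t v < 1 → r = √2) → Em V y' r' → 0 ≤ r' → r' ≤ √2 →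
    r' ^ 2 - dist y' x ^ 2 + (1 - ∑ v ∈ S, t v) * dist y y' ^ 2 ≤ r ^ 2 - dist y x ^ 2 ∧
    (r ^ 2 - dist y x ^ 2 ≤ r' ^ 2 - dist y' x ^ 2 → ∀ v ∈ S, dist y' v = r')
  disj : ∀ V S T : Finset E3, Pack V → S ⊆ V → T ⊆ V → S.Nonempty → T.Nonempty → S ≠ T →
    Disjoint (cell V S) (cell V T)
  far : ∀ V S : Finset E3, Pack V → S ⊆ V → ∀ v ∈ V, v ∉ S → cell V S ∩ ball v 1 = ∅
  sub : ∀ V S : Finset E3, S ⊆ V → S.Nonempty → cell V S ⊆ ⋃ v ∈ V, ball v √2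

/-- volumes of solids of revolution in a wedge. -/
def RevS : Prop := ∀ (e : E3) (W : Set E3), ‖e‖ = 1 → MeasurableSet W →
  (∀ z ∈ W, ∀ s : ℝ, z + s • e ∈ W) → (∀ z ∈ W, ∀ c : ℝ, 0 < c → c • z ∈ W) →
  ∃ ω : ℝ, 0 ≤ ω ∧ ∀ g : ℝ → ℝ, Measurable g →
    volume (W ∩ {z | ‖z‖ ^ 2 - ⟪z, e⟫ ^ 2 < g ⟪z, e⟫}) =
      ENNReal.ofReal ω * ∫⁻ s, ENNReal.ofReal (g s)

/-- the dihedral angle. -/
def DihS : Prop := ∀ u v w : E3, LinearIndependent ℝ ![u, v, w] →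
  volume (wed u v w ∩ ball 0 1) = ENNReal.ofReal (2 / 3 * onP dih 0 u v w)

/-- Girard's formula. -/
def GirS : Prop := ∀ u v w : E3, LinearIndependent ℝ ![u, v, w] →
  IsOpen (wed u v w) ∧ 2 * volume (oct u v w ∩ ball 0 1) + ENNReal.ofReal (2 * π / 3) =
    volume (wed u v w ∩ ball 0 1) + volume (wed v u w ∩ ball 0 1) + volume (wed w u v ∩ ball 0 1)

structure VolS : Prop where
  vol : ∀ p q r s : E3, LinearIndependent ℝ ![q - p, r - p, s - p] → 0 < onP del p q r s ∧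
    IsOpen (tet p q r s) ∧ volume (tet p q r s) = ENNReal.ofReal (√(onP del p q r s) / 12)
  rad : ∀ (p q r s y : E3) (R : ℝ), dist y p = R → dist y q = R → dist y r = R → dist y s = R →
    onP rho p q r s = 4 * onP del p q r s * R ^ 2

/-- tetrahedra. -/
structure TetS : Prop where
  swap : ∀ p q r s : E3, tet p q r s = tet q p r s ∧ tet p q r s = tet p r q s ∧
    tet p q r s = tet p q s r
  ind : ∀ p q r s : E3, LinearIndependent ℝ ![q - p, r - p, s - p] →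
    LinearIndependent ℝ ![p - q, r - q, s - q] ∧ LinearIndependent ℝ ![r - p, q - p, s - p] ∧
    LinearIndependent ℝ ![q - p, s - p, r - p]
  sym : ∀ x1 x2 x3 x4 x5 x6, dih x1 x2 x3 x4 x5 x6 = dih x1 x3 x2 x4 x6 x5 ∧
    dih x1 x2 x3 x4 x5 x6 = dih x1 x6 x5 x4 x3 x2 ∧ 0 ≤ dih x1 x2 x3 x4 x5 x6
  edge : ∀ p q r s : E3, LinearIndependent ℝ ![q - p, r - p, s - p] →
    ENNReal.ofReal (2 / 3 * onP dih p q r s) ≤
      volume (interior (wdg (tet p q r s) (midpoint ℝ p q)) ∩ ball 0 1)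
  vert : ∀ p q r s : E3, LinearIndependent ℝ ![q - p, r - p, s - p] →
    π ≤ onP dih p q r s + onP dih p r q s + onP dih p s q r ∧ volume (tet p q r s ∩ ball p 1) ≤
      ENNReal.ofReal ((onP dih p q r s + onP dih p r q s + onP dih p s q r - π) / 3)

def Good1S : Prop := ∀ (a b : ℝ) (f : ℝ → ℝ) (V : Finset E3) (v : E3), 6 * a / π ≤ √8 → Pack V →
  v ∈ V → Good a b f V (cell V {v})

def Good2S : Prop := ∀ (a b : ℝ) (f : ℝ → ℝ) (V : Finset E3) (v w : E3), 0 ≤ a → 0 ≤ b →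
  (∀ h, 0 ≤ f h) → G2 a b f → Pack V → v ∈ V → w ∈ V → v ≠ w → Good a b f V (cell V {v, w})

def Good3S : Prop := ∀ (a b : ℝ) (f : ℝ → ℝ) (V S : Finset E3), 0 ≤ a → 0 ≤ b →
  (∀ h, 0 ≤ f h) → G3 a b f → Pack V → S ⊆ V → S.card = 3 → Good a b f V (cell V S)

def Good4S : Prop := ∀ (a b : ℝ) (f : ℝ → ℝ) (V S : Finset E3), 0 ≤ a → 0 ≤ b →
  (∀ h, 0 ≤ f h) → G4 a b f → Pack V → S ⊆ V → 4 ≤ S.card → Good a b f V (cell V S)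

/-- part A. -/
def AS : Prop := ∀ (a b : ℝ) (f : ℝ → ℝ), 0 ≤ a → 0 ≤ b → 6 * a / π ≤ √8 → (∀ h, 0 ≤ f h) →
  G2 a b f → G3 a b f → G4 a b f → ∀ V : Finset E3, Pack V →
  8 * a * V.card - 8 * b * ∑ v ∈ V, ∑ w ∈ V.erase v, f (dist v w / 2) ≤
    (volume (⋃ v ∈ V, ball v √2)).toReal

theorem partA (hu : UnionS) (hf : FinalS) (hc : CoverS) (hd : DisjS) (h1 : Good1S) (h2 : Good2S)
    (h3 : Good3S) (h4 : Good4S) : AS := by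
  intro a b f ha hb hab h0 g2 g3 g4 V hV
  have m : ∀ S ∈ V.powerset.erase ∅, S ⊆ V ∧ S.Nonempty := fun S hS =>
    ⟨Finset.mem_powerset.1 (Finset.mem_of_mem_erase hS),
      Finset.nonempty_iff_ne_empty.2 (Finset.ne_of_mem_erase hS)⟩
  refine hf a b f V _ ha hb h0 (hu a b f V _ (V.powerset.erase ∅) (cell V) (fun S hS => ?_)
    fun S hS T hT h => hd.disj V S T hV (m S hS).1 (m T hT).1 (m S hS).2 (m T hT).2 h)
    (iUnion₂_subset fun S hS => hd.sub V S (m S hS).1 (m S hS).2) (hc V hV)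
  obtain ⟨k1, k2⟩ := m S hS
  have k3 := Finset.card_pos.2 k2
  rcases (by omega : S.card = 1 ∨ S.card = 2 ∨ S.card = 3 ∨ 4 ≤ S.card) with k | k | k | k
  · obtain ⟨v, rfl⟩ := Finset.card_eq_one.1 k
    exact h1 a b f V v hab hV (k1 (by simp))
  · obtain ⟨v, w, hvw, rfl⟩ := Finset.card_eq_two.1 k
    exact h2 a b f V v w ha hb h0 g2 hV (k1 (by simp)) (k1 (by simp)) hvw
  · exact h3 a b f V S ha hb h0 g3 hV k1 k
  · exact h4 a b f V S ha hb h0 g4 hV k1 k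

end Pool.Agent.Lib.MP_f3b2fd_co.KA
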