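import Pool.Agent.Lib.MP_f3b2fd_co.KEP.A.St

/-! Cells with a correction depending on the dihedral angle: definitions and statements. -/

namespace Pool.Agent.Lib.MP_f3b2fd_co.KA

open MeasureTheory Set Real Metric Filter Topology
open scoped ENNReal RealInnerProductSpace

noncomputable section

/-- the inequality for 2-cells; `P k x θ` is the gain of a `k`-cell along an edge of squared
length `x` with dihedral angle `θ`. -/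
def G2p (a : ℝ) (P : ℕ → ℝ → ℝ → ℝ) : Prop :=
  ∀ h θ, 1 ≤ h → h < √2 → 0 ≤ θ →
    0 ≤ θ * (h * (2 - h ^ 2) / 3 - 4 * a / π * (1 - h / √2)) + P 2 (4 * h ^ 2) θ

/-- the inequality for 3-cells. -/
def G3p (a : ℝ) (P : ℕ → ℝ → ℝ → ℝ) : Prop :=
  ∀ x4 x5 x6, 4 ≤ x4 → 4 ≤ x5 → 4 ≤ x6 → x4 < 8 → x5 < 8 → x6 < 8 → x4 + x5 + x6 ≤ 18 →
    0 < del 2 2 2 x4 x5 x6 →
    0 ≤ √(del 2 2 2 x4 x5 x6) / 12 + 6 * a -
      2 * a / π * (dih 2 2 2 x4 x5 x6 + dih 2 2 2 x5 x4 x6 + dih 2 2 2 x6 x4 x5) -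
      4 * a / π * (dih x4 2 x6 2 x5 2 + dih x5 2 x6 2 x4 2 + dih x6 2 x5 2 x4 2) +
      (P 3 x4 (dih x4 2 x6 2 x5 2) + P 3 x5 (dih x5 2 x6 2 x4 2) + P 3 x6 (dih x6 2 x5 2 x4 2))

/-- the inequality for 4-cells. -/
def G4p (a : ℝ) (P : ℕ → ℝ → ℝ → ℝ) : Prop :=
  ∀ x1 x2 x3 x4 x5 x6, 4 ≤ x1 → 4 ≤ x2 → 4 ≤ x3 → 4 ≤ x4 → 4 ≤ x5 → 4 ≤ x6 →
    x1 < 8 → x2 < 8 → x3 < 8 → x4 < 8 → x5 < 8 → x6 < 8 →
    x1 + x2 + x6 < 18 → x1 + x3 + x5 < 18 → x2 + x3 + x4 < 18 → x4 + x5 + x6 < 18 →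
    0 < del x1 x2 x3 x4 x5 x6 → rho x1 x2 x3 x4 x5 x6 < 8 * del x1 x2 x3 x4 x5 x6 →
    0 ≤ √(del x1 x2 x3 x4 x5 x6) / 12 + 8 * a -
      4 * a / π * (dih x1 x2 x3 x4 x5 x6 + dih x2 x1 x3 x5 x4 x6 + dih x3 x1 x2 x6 x4 x5 +
        dih x4 x2 x6 x1 x5 x3 + dih x5 x1 x6 x2 x4 x3 + dih x6 x1 x5 x3 x4 x2) +
      (P 4 x1 (dih x1 x2 x3 x4 x5 x6) + P 4 x2 (dih x2 x1 x3 x5 x4 x6) +
        P 4 x3 (dih x3 x1 x2 x6 x4 x5) + P 4 x4 (dih x4 x2 x6 x1 x5 x3) +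
        P 4 x5 (dih x5 x1 x6 x2 x4 x3) + P 4 x6 (dih x6 x1 x5 x3 x4 x2))

/-- the gains of the cells round one edge. -/
def CL (b : ℝ) (f : ℝ → ℝ) (P : ℕ → ℝ → ℝ → ℝ) : Prop :=
  ∀ (h : ℝ) (J : Type) (s : Finset J) (k : J → ℕ) (θ : J → ℝ), 1 ≤ h → h < √2 →
    (∀ j ∈ s, 2 ≤ k j ∧ k j ≤ 4 ∧ 0 ≤ θ j ∧ (k j = 3 → θ j ≤ π / 2)) →
    ∑ j ∈ s, θ j = 2 * π → ∑ j ∈ s, P (k j) (4 * h ^ 2) (θ j) ≤ 16 * b * f h

/-- the dihedral angle of `X` along the segment from `v` to `w`. -/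
def th (X : Set E3) (v w : E3) : ℝ :=
  3 / 2 * (volume (wdg X (midpoint ℝ v w) ∩ ball 0 1)).toReal

/-- a piece `X` of the cell with vertex set `S`, with its inequality. -/
structure Piece (a : ℝ) (P : ℕ → ℝ → ℝ → ℝ) (V S : Finset E3) (X : Set E3) : Prop where
  meas : MeasurableSet X
  card : S.card ≤ 4
  short : ∀ v ∈ S, ∀ w ∈ S, dist v w < 2 * √2
  measW : ∀ v ∈ S, ∀ w ∈ S, v ≠ w → MeasurableSet (wdg X (midpoint ℝ v w))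
  star : ∀ v ∈ S, ∀ w ∈ S, v ≠ w → ∀ x ∈ X, x - midpoint ℝ v w ∈ wdg X (midpoint ℝ v w)
  acute : S.card = 3 → ∀ v ∈ S, ∀ w ∈ S, v ≠ w → th X v w ≤ π / 2
  ineq : 6 * a / π * ∑ v ∈ V, (volume (X ∩ ball v 1)).toReal ≤ (volume X).toReal +
    ∑ v ∈ S, ∑ w ∈ S.erase v, P S.card (dist v w ^ 2) (th X v w) / 2

/-- the cell with vertex set `S` is a disjoint union of pieces. -/
def Dec (a : ℝ) (P : ℕ → ℝ → ℝ → ℝ) (V S : Finset E3) : Prop :=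
  ∃ s : Finset (Set E3), (∀ X ∈ s, Piece a P V S X) ∧
    (∀ X ∈ s, ∀ Y ∈ s, X ≠ Y → Disjoint X Y) ∧ ⋃ X ∈ s, X = cell V S

end

/-- the cells cover the big balls. -/
def Cover2S : Prop := ∀ V : Finset E3, Pack V → ∀ v ∈ V,
  volume (ball v √2 \ ⋃ S ∈ V.powerset.erase ∅, cell V S) = 0

/-- a cell is far from the centres that are not among its vertices. -/
def Far2S : Prop :=
  ∀ V S : Finset E3, Pack V → S ⊆ V → ∀ v ∈ V, v ∉ S → cell V S ∩ ball v √2 = ∅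

/-- the wedge of a tetrahedron. -/
def Tet2S : Prop := ∀ p q r s : E3, LinearIndependent ℝ ![q - p, r - p, s - p] →
  wdg (tet p q r s) (midpoint ℝ p q) = wed (q - p) (r - p) (s - p) ∧
  MeasurableSet (wdg (tet p q r s) (midpoint ℝ p q)) ∧
  (∀ x ∈ tet p q r s, x - midpoint ℝ p q ∈ wdg (tet p q r s) (midpoint ℝ p q)) ∧
  th (tet p q r s) p q = onP dih p q r s

/-- angles round a point. -/
structure AngS : Prop where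
  le : ∀ (J : Type) (s : Finset J) (X : J → Set E3) (m : E3),
    (∀ j ∈ s, MeasurableSet (wdg (X j) m)) →
    (∀ i ∈ s, ∀ j ∈ s, i ≠ j → Disjoint (X i) (X j)) →
    ∑ j ∈ s, (volume (wdg (X j) m ∩ ball 0 1)).toReal ≤ 4 * π / 3
  ge : ∀ (J : Type) (s : Finset J) (X : J → Set E3) (m : E3) (ε : ℝ), 0 < ε →
    (∀ j ∈ s, ∀ x ∈ X j, x - m ∈ wdg (X j) m) → volume (ball m ε \ ⋃ j ∈ s, X j) = 0 →
    4 * π / 3 ≤ ∑ j ∈ s, (volume (wdg (X j) m ∩ ball 0 1)).toReal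

def Dec1S : Prop := ∀ (a : ℝ) (P : ℕ → ℝ → ℝ → ℝ) (V : Finset E3) (v : E3), 6 * a / π ≤ √8 →
  Pack V → v ∈ V → Dec a P V {v}

def Dec2S : Prop := ∀ (a : ℝ) (P : ℕ → ℝ → ℝ → ℝ) (V : Finset E3) (v w : E3), 0 ≤ a →
  G2p a P → Pack V → v ∈ V → w ∈ V → v ≠ w → Dec a P V {v, w}

def Dec3S : Prop := ∀ (a : ℝ) (P : ℕ → ℝ → ℝ → ℝ) (V S : Finset E3), 0 ≤ a →
  G3p a P → Pack V → S ⊆ V → S.card = 3 → Dec a P V S

def Dec4S : Prop := ∀ (a : ℝ) (P : ℕ → ℝ → ℝ → ℝ) (V S : Finset E3), 0 ≤ a →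
  G4p a P → Pack V → S ⊆ V → 4 ≤ S.card → Dec a P V S

/-- the sum over all pieces. -/
def Final2S : Prop := ∀ (a b : ℝ) (f : ℝ → ℝ) (P : ℕ → ℝ → ℝ → ℝ) (V : Finset E3), 0 ≤ a → 0 ≤ b →
  (∀ h, 0 ≤ f h) → CL b f P → Pack V → (∀ S ⊆ V, S.Nonempty → Dec a P V S) →
  8 * a * V.card - 8 * b * ∑ v ∈ V, ∑ w ∈ V.erase v, f (dist v w / 2) ≤
    (volume (⋃ v ∈ V, ball v √2)).toReal

/-- part A with the correction. -/
def AS2 : Prop := ∀ (a b : ℝ) (f : ℝ → ℝ) (P : ℕ → ℝ → ℝ → ℝ), 0 ≤ a → 0 ≤ b → 6 * a / π ≤ √8 →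
  (∀ h, 0 ≤ f h) → G2p a P → G3p a P → G4p a P → CL b f P → ∀ V : Finset E3, Pack V →
  8 * a * V.card - 8 * b * ∑ v ∈ V, ∑ w ∈ V.erase v, f (dist v w / 2) ≤
    (volume (⋃ v ∈ V, ball v √2)).toReal

theorem partA2 (hf : Final2S) (h1 : Dec1S) (h2 : Dec2S) (h3 : Dec3S) (h4 : Dec4S) : AS2 := by
  intro a b f P ha hb hab h0 g2 g3 g4 cl V hV
  refine hf a b f P V ha hb h0 cl hV fun S k1 k2 => ?_
  have k3 := Finset.card_pos.2 k2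
  rcases (by omega : S.card = 1 ∨ S.card = 2 ∨ S.card = 3 ∨ 4 ≤ S.card) with k | k | k | k
  · obtain ⟨v, rfl⟩ := Finset.card_eq_one.1 k
    exact h1 a P V v hab hV (k1 (by simp))
  · obtain ⟨v, w, hvw, rfl⟩ := Finset.card_eq_two.1 k
    exact h2 a P V v w ha g2 hV (k1 (by simp)) (k1 (by simp)) hvw
  · exact h3 a P V S ha g3 hV k1 k
  · exact h4 a P V S ha g4 hV k1 k

end Pool.Agent.Lib.MP_f3b2fd_co.KA
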